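import Mathlib

/-!
# Sections of twisted dualizing sheaves on rational nodal curves

`a_1, ..., a_g, b_1, ..., b_g` are distinct complex numbers, `C` is the projective line with `a_i` glued to `b_i`: an irreducible nodal
curve of arithmetic genus `g`. The line bundle `η` on `C` has as sections the functions `s` on the projective line with
`s (b_i) = t_i s (a_i)`, `t_i ≠ 0`. A section of `(ω_C ⊗ η)^q` is `P (x) / D (x)^q dx^q`, `D = ∏ (x - a_i) (x - b_i)`, with
`deg P ≤ q (2 g - 2)` and `P (b_i) / D' (b_i)^q = (- t_i)^q P (a_i) / D' (a_i)^q` (helper77).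
-/

set_option autoImplicit false

namespace Pool.Agent.H77.PG

open Polynomial TensorProduct

noncomputable section

section Definitions

/-- The polynomial `D = ∏ (X - a_i) (X - b_i)` of the points over the nodes. -/
def nodePoly {g : ℕ} (a b : Fin g → ℂ) : ℂ[X] := ∏ i, ((X - C (a i)) * (X - C (b i)))

/-- The space `H⁰ (C, (ω_C ⊗ η)^q)`, where `C` is the projective line with `a_i` glued to `b_i` for all `i` (arithmetic genus `g`) and
`η` is the line bundle with gluing factors `t`: the polynomial `P` stands for the section `P (x) / D (x)^q dx^q`. The degree condition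
says that there is no pole at infinity; the second condition is `P (b_i) / D' (b_i)^q = (- t_i)^q P (a_i) / D' (a_i)^q`, which for
`q = 1` says that the residue at `b_i` is `- t_i` times the residue at `a_i`. -/
def sect {g : ℕ} (a b : Fin g → ℂ) (t : Fin g → ℂˣ) (q : ℕ) : Submodule ℂ ℂ[X] where
  carrier := {P | P.natDegree ≤ q * (2 * g - 2) ∧ ∀ i,
    P.eval (b i) * (derivative (nodePoly a b)).eval (a i) ^ q =
      (-(t i : ℂ)) ^ q * P.eval (a i) * (derivative (nodePoly a b)).eval (b i) ^ q}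
  add_mem' := by
    rintro x y ⟨hx, hx'⟩ ⟨hy, hy'⟩
    refine ⟨(natDegree_add_le _ _).trans (max_le hx hy), fun i => ?_⟩
    simp only [eval_add]
    linear_combination hx' i + hy' i
  zero_mem' := by simp
  smul_mem' := by
    rintro c x ⟨hx, hx'⟩
    refine ⟨(natDegree_smul_le _ _).trans hx, fun i => ?_⟩
    simp only [eval_smul, smul_eq_mul]
    linear_combination c * hx' i

theorem mul_mem_sect {g : ℕ} (a b : Fin g → ℂ) (t : Fin g → ℂˣ) {q r : ℕ} {x y : ℂ[X]}
    (hx : x ∈ sect a b t q) (hy : y ∈ sect a b t r) : x * y ∈ sect a b t (q + r) := by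
  refine ⟨natDegree_mul_le.trans ?_, fun i => ?_⟩
  · rw [add_mul]
    exact add_le_add hx.1 hy.1
  · have e1 := hx.2 i
    have e2 := hy.2 i
    rw [eval_mul, eval_mul, pow_add, pow_add, pow_add]
    calc _ = (x.eval (b i) * (derivative (nodePoly a b)).eval (a i) ^ q) *
          (y.eval (b i) * (derivative (nodePoly a b)).eval (a i) ^ r) := by ring
      _ = _ := by rw [e1, e2]; ring

/-- The multiplication `H⁰ (L^q) ⊗ H⁰ (L^r) → H⁰ (L^(q + r))`, `L = ω_C ⊗ η`. -/
def mulS {g : ℕ} (a b : Fin g → ℂ) (t : Fin g → ℂˣ) (q r : ℕ) :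
    sect a b t q ⊗[ℂ] sect a b t r →ₗ[ℂ] sect a b t (q + r) :=
  (Submodule.mulMap (sect a b t q) (sect a b t r)).codRestrict (sect a b t (q + r)) fun τ => by
    induction τ using TensorProduct.induction_on with
    | zero => rw [map_zero]; exact zero_mem _
    | tmul x y => exact mul_mem_sect a b t x.2 y.2
    | add x y hx hy => rw [map_add]; exact add_mem hx hy

/-- The Koszul differential `⋀² H⁰ (L) ⊗ H⁰ (L) → H⁰ (L) ⊗ H⁰ (L²)`, `(x ∧ y) ⊗ w ↦ x ⊗ (y w) - y ⊗ (x w)`, written on
`(H⁰ (L) ⊗ H⁰ (L)) ⊗ H⁰ (L)`, where it is `(x ⊗ y) ⊗ w ↦ x ⊗ (y w) + y ⊗ (- x w)` (it kills the tensors `(x ⊗ x) ⊗ w`). -/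
def kos {g : ℕ} (a b : Fin g → ℂ) (t : Fin g → ℂˣ) :
    (sect a b t 1 ⊗[ℂ] sect a b t 1) ⊗[ℂ] sect a b t 1 →ₗ[ℂ]
      sect a b t 1 ⊗[ℂ] sect a b t (1 + 1) :=
  LinearMap.lTensor (sect a b t 1) (mulS a b t 1 1) ∘ₗ
      (TensorProduct.assoc ℂ (sect a b t 1) (sect a b t 1) (sect a b t 1)).toLinearMap +
    LinearMap.lTensor (sect a b t 1) (-mulS a b t 1 1) ∘ₗ
      (TensorProduct.assoc ℂ (sect a b t 1) (sect a b t 1) (sect a b t 1)).toLinearMap ∘ₗ
        LinearMap.rTensor (sect a b t 1)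
          (TensorProduct.comm ℂ (sect a b t 1) (sect a b t 1)).toLinearMap

/-- `K_{0,2} (C, L) = 0` for `L = ω_C ⊗ η`: the multiplication map `H⁰ (L) ⊗ H⁰ (L) → H⁰ (L²)` is onto. -/
def VanishK02 {g : ℕ} (a b : Fin g → ℂ) (t : Fin g → ℂˣ) : Prop :=
  Function.Surjective (mulS a b t 1 1)

/-- `K_{1,1} (C, L) = 0` for `L = ω_C ⊗ η`: the kernel of the multiplication map `H⁰ (L) ⊗ H⁰ (L) → H⁰ (L²)` is the image of
`⋀² H⁰ (L)`, that is, it is spanned by the tensors `x ⊗ y - y ⊗ x`. -/
def VanishK11 {g : ℕ} (a b : Fin g → ℂ) (t : Fin g → ℂˣ) : Prop :=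
  ∀ τ : sect a b t 1 ⊗[ℂ] sect a b t 1, mulS a b t 1 1 τ = 0 →
    τ ∈ Submodule.span ℂ (Set.range fun p : sect a b t 1 × sect a b t 1 =>
      p.1 ⊗ₜ[ℂ] p.2 - p.2 ⊗ₜ[ℂ] p.1)

/-- `K_{1,2} (C, L) = 0` for `L = ω_C ⊗ η`: the kernel of the multiplication map `H⁰ (L) ⊗ H⁰ (L²) → H⁰ (L³)` is the image of
`⋀² H⁰ (L) ⊗ H⁰ (L)` under the Koszul differential. -/
def VanishK12 {g : ℕ} (a b : Fin g → ℂ) (t : Fin g → ℂˣ) : Prop :=
  ∀ σ : sect a b t 1 ⊗[ℂ] sect a b t (1 + 1), mulS a b t 1 (1 + 1) σ = 0 →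
    ∃ τ, kos a b t τ = σ

/-- `K_{2,1} (C, L) = 0` for `L = ω_C ⊗ η`: the kernel of the Koszul differential on `⋀² H⁰ (L) ⊗ H⁰ (L)` is the image of
`⋀³ H⁰ (L)`. On `(H⁰ (L) ⊗ H⁰ (L)) ⊗ H⁰ (L)` this says that the kernel of `kos` is spanned by the tensors `(x ⊗ x) ⊗ w` and
`(x ⊗ y) ⊗ w + (y ⊗ w) ⊗ x + (w ⊗ x) ⊗ y`. -/
def VanishK21 {g : ℕ} (a b : Fin g → ℂ) (t : Fin g → ℂˣ) : Prop :=
  ∀ τ : (sect a b t 1 ⊗[ℂ] sect a b t 1) ⊗[ℂ] sect a b t 1, kos a b t τ = 0 →
    τ ∈ Submodule.span ℂ (Set.range fun p : sect a b t 1 × sect a b t 1 =>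
        (p.1 ⊗ₜ[ℂ] p.1) ⊗ₜ[ℂ] p.2) ⊔
      Submodule.span ℂ (Set.range fun p : sect a b t 1 × sect a b t 1 × sect a b t 1 =>
        (p.1 ⊗ₜ[ℂ] p.2.1) ⊗ₜ[ℂ] p.2.2 + (p.2.1 ⊗ₜ[ℂ] p.2.2) ⊗ₜ[ℂ] p.1 +
          (p.2.2 ⊗ₜ[ℂ] p.1) ⊗ₜ[ℂ] p.2.1)

/-- The gluing factors `(z, ..., z, 1, ..., 1)` with `m` factors `z`. -/
def glue (g m : ℕ) (z : ℂˣ) : Fin g → ℂˣ := fun i => if i.val < m then z else 1

end Definitions

/-- A sum with totally antisymmetric coefficients lies in a submodule containing the symmetric and the cyclic combinations. -/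
lemma anti3 {ι M : Type} [Fintype ι] [AddCommMonoid M] [Module ℂ M] (N : Submodule ℂ M)
    (e : ι → ι → ι → M) (F : ι → ι → ι → ℂ) (he : ∀ i j k, e i j k + e j i k ∈ N)
    (hc : ∀ i j k, e i j k + e j k i + e k i j ∈ N)
    (hA : ∀ i j k, F i j k - F j i k = -(F i k j - F k i j)) :
    ∑ i, ∑ j, ∑ k, F i j k • e i j k ∈ N := by
  have s1 : ∑ i, ∑ j, ∑ k, F i j k • e i j k + ∑ i, ∑ j, ∑ k, F j i k • e i j k ∈ N := by
    have h : ∑ i, ∑ j, ∑ k, F i j k • (e i j k + e j i k) ∈ N :=
      N.sum_mem fun i _ => N.sum_mem fun j _ => N.sum_mem fun k _ => N.smul_mem _ (he i j k)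
    have h' : ∑ i, ∑ j, ∑ k, F j i k • e i j k = ∑ i, ∑ j, ∑ k, F i j k • e j i k :=
      Finset.sum_comm
    rw [h', ← Finset.sum_add_distrib]
    convert h using 2
    rw [← Finset.sum_add_distrib]
    refine Finset.sum_congr rfl fun j _ => ?_
    rw [← Finset.sum_add_distrib]
    exact Finset.sum_congr rfl fun k _ => (smul_add _ _ _).symm
  have s2 : ∑ i, ∑ j, ∑ k, (F i j k - F j i k) • e i j k ∈ N := by
    have h : ∑ i, ∑ j, ∑ k, (F i j k - F j i k) • (e i j k + e j k i + e k i j) ∈ N :=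
      N.sum_mem fun i _ => N.sum_mem fun j _ => N.sum_mem fun k _ => N.smul_mem _ (hc i j k)
    have h3 : ∑ i, ∑ j, ∑ k, (F i j k - F j i k) • (e i j k + e j k i + e k i j) =
        (3 : ℂ) • ∑ i, ∑ j, ∑ k, (F i j k - F j i k) • e i j k := by
      have c1 : ∑ i, ∑ j, ∑ k, (F i j k - F j i k) • e j k i =
          ∑ i, ∑ j, ∑ k, (F i j k - F j i k) • e i j k := by
        calc _ = ∑ j, ∑ i, ∑ k, (F i j k - F j i k) • e j k i := Finset.sum_comm
          _ = ∑ j, ∑ k, ∑ i, (F i j k - F j i k) • e j k i :=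
              Finset.sum_congr rfl fun j _ => Finset.sum_comm
          _ = ∑ j, ∑ k, ∑ i, (F j k i - F k j i) • e j k i :=
              Finset.sum_congr rfl fun j _ => Finset.sum_congr rfl fun k _ =>
                Finset.sum_congr rfl fun i _ => by
                  rw [show F i j k - F j i k = F j k i - F k j i by
                    linear_combination -hA j k i]
      have c2 : ∑ i, ∑ j, ∑ k, (F i j k - F j i k) • e k i j =
          ∑ i, ∑ j, ∑ k, (F i j k - F j i k) • e i j k := by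
        calc _ = ∑ i, ∑ k, ∑ j, (F i j k - F j i k) • e k i j :=
              Finset.sum_congr rfl fun i _ => Finset.sum_comm
          _ = ∑ k, ∑ i, ∑ j, (F i j k - F j i k) • e k i j := Finset.sum_comm
          _ = ∑ k, ∑ i, ∑ j, (F k i j - F i k j) • e k i j :=
              Finset.sum_congr rfl fun k _ => Finset.sum_congr rfl fun i _ =>
                Finset.sum_congr rfl fun j _ => by
                  rw [show F i j k - F j i k = F k i j - F i k j by
                    linear_combination hA i j k]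
      simp only [smul_add, Finset.sum_add_distrib]
      rw [c1, c2, show (3 : ℂ) = 1 + 1 + 1 by norm_num, add_smul, add_smul, one_smul]
    rw [h3] at h
    have h4 := N.smul_mem (3⁻¹ : ℂ) h
    rwa [smul_smul, inv_mul_cancel₀ (by norm_num), one_smul] at h4
  have s3 := N.add_mem s1 s2
  have h5 : ∑ i, ∑ j, ∑ k, F i j k • e i j k + ∑ i, ∑ j, ∑ k, F j i k • e i j k +
      ∑ i, ∑ j, ∑ k, (F i j k - F j i k) • e i j k =
      (2 : ℂ) • ∑ i, ∑ j, ∑ k, F i j k • e i j k := by
    simp only [Finset.smul_sum, ← Finset.sum_add_distrib]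
    refine Finset.sum_congr rfl fun i _ => Finset.sum_congr rfl fun j _ =>
      Finset.sum_congr rfl fun k _ => ?_
    rw [← add_smul, ← add_smul, smul_smul]
    congr 1
    ring
  rw [h5] at s3
  have h6 := N.smul_mem (2⁻¹ : ℂ) s3
  rwa [smul_smul, inv_mul_cancel₀ (by norm_num), one_smul] at h6

section General

variable {g : ℕ} (a b : Fin g → ℂ) (t : Fin g → ℂˣ)

/-- The product `D / ((X - a_k) (X - b_k))`. -/
def rest (k : Fin g) : ℂ[X] := ∏ j ∈ Finset.univ.erase k, ((X - C (a j)) * (X - C (b j)))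

lemma nodePoly_eq (k : Fin g) :
    nodePoly a b = (X - C (a k)) * (X - C (b k)) * rest a b k :=
  (Finset.mul_prod_erase _ _ (Finset.mem_univ k)).symm

/-- The numerator of `1 / (X - a_k) - t_k / (X - b_k)`. -/
def num (k : Fin g) : ℂ[X] := (X - C (b k)) - C (t k : ℂ) * (X - C (a k))

/-- The polynomial `E_k = D (1 / (X - a_k) - t_k / (X - b_k))`. -/
def el (k : Fin g) : ℂ[X] := rest a b k * num a b t k

lemma el_mul (k : Fin g) :
    el a b t k * ((X - C (a k)) * (X - C (b k))) = nodePoly a b * num a b t k := by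
  rw [nodePoly_eq a b k, el]; ring

lemma rest_eval_a {i k : Fin g} (h : i ≠ k) : (rest a b k).eval (a i) = 0 := by
  rw [rest, eval_prod]
  exact Finset.prod_eq_zero (Finset.mem_erase.2 ⟨h, Finset.mem_univ i⟩) (by simp)

lemma rest_eval_b {i k : Fin g} (h : i ≠ k) : (rest a b k).eval (b i) = 0 := by
  rw [rest, eval_prod]
  exact Finset.prod_eq_zero (Finset.mem_erase.2 ⟨h, Finset.mem_univ i⟩) (by simp)

lemma der_a (k : Fin g) :
    (derivative (nodePoly a b)).eval (a k) = (a k - b k) * (rest a b k).eval (a k) := by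
  rw [nodePoly_eq a b k]; simp

lemma der_b (k : Fin g) :
    (derivative (nodePoly a b)).eval (b k) = (b k - a k) * (rest a b k).eval (b k) := by
  rw [nodePoly_eq a b k]; simp

lemma node_a (k : Fin g) : (nodePoly a b).eval (a k) = 0 := by
  rw [nodePoly_eq a b k]; simp

lemma node_b (k : Fin g) : (nodePoly a b).eval (b k) = 0 := by
  rw [nodePoly_eq a b k]; simp

lemma el_a (k : Fin g) :
    (el a b t k).eval (a k) = (derivative (nodePoly a b)).eval (a k) := by
  rw [der_a, el, num]; simp; ring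

lemma el_b (k : Fin g) :
    (el a b t k).eval (b k) = -(t k : ℂ) * (derivative (nodePoly a b)).eval (b k) := by
  rw [der_b, el, num]; simp; ring

lemma el_a' {i k : Fin g} (h : i ≠ k) : (el a b t k).eval (a i) = 0 := by
  rw [el, eval_mul, rest_eval_a a b h, zero_mul]

lemma el_b' {i k : Fin g} (h : i ≠ k) : (el a b t k).eval (b i) = 0 := by
  rw [el, eval_mul, rest_eval_b a b h, zero_mul]

lemma el_der_a {i k : Fin g} (h : i ≠ k) :
    (derivative (el a b t k)).eval (a i) * ((a i - a k) * (a i - b k)) =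
      (derivative (nodePoly a b)).eval (a i) * ((a i - b k) - t k * (a i - a k)) := by
  have h1 := congrArg (fun p => (derivative p).eval (a i)) (el_mul a b t k)
  simp only [derivative_mul, eval_add, eval_mul, el_a' a b t h, node_a, zero_mul, add_zero,
    num, eval_sub, eval_X, eval_C] at h1
  exact h1

lemma el_der_b {i k : Fin g} (h : i ≠ k) :
    (derivative (el a b t k)).eval (b i) * ((b i - a k) * (b i - b k)) =
      (derivative (nodePoly a b)).eval (b i) * ((b i - b k) - t k * (b i - a k)) := by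
  have h1 := congrArg (fun p => (derivative p).eval (b i)) (el_mul a b t k)
  simp only [derivative_mul, eval_add, eval_mul, el_b' a b t h, node_b, zero_mul, add_zero,
    num, eval_sub, eval_X, eval_C] at h1
  exact h1

lemma rest_natDegree (k : Fin g) : (rest a b k).natDegree ≤ 2 * (g - 1) := by
  refine (natDegree_prod_le _ _).trans ?_
  calc _ ≤ ∑ _j ∈ Finset.univ.erase k, 2 := Finset.sum_le_sum fun j _ => by
        refine natDegree_mul_le.trans ?_
        simp
    _ = 2 * (g - 1) := by simp [Finset.card_erase_of_mem, mul_comm]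

lemma rest_coeff (k : Fin g) : (rest a b k).coeff (2 * (g - 1)) = 1 := by
  have hm : (rest a b k).Monic := monic_prod_of_monic _ _ fun j _ =>
    (monic_X_sub_C _).mul (monic_X_sub_C _)
  have hd : (rest a b k).natDegree = 2 * (g - 1) := by
    rw [rest, natDegree_prod_of_monic _ _ fun j _ => (monic_X_sub_C _).mul (monic_X_sub_C _)]
    rw [Finset.sum_congr rfl (g := fun _ => 2) fun j _ => by
      rw [(monic_X_sub_C _).natDegree_mul (monic_X_sub_C _)]; simp]
    simp [Finset.card_erase_of_mem, mul_comm]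
  rw [← hd]; exact hm

lemma num_natDegree (k : Fin g) : (num a b t k).natDegree ≤ 1 := by
  unfold num; compute_degree

lemma el_natDegree (k : Fin g) : (el a b t k).natDegree ≤ 2 * (g - 1) + 1 :=
  natDegree_mul_le.trans (add_le_add (rest_natDegree a b k) (num_natDegree a b t k))

lemma el_coeff (k : Fin g) : (el a b t k).coeff (2 * (g - 1) + 1) = 1 - t k := by
  rw [el, coeff_mul_add_eq_of_natDegree_le (rest_natDegree a b k) (num_natDegree a b t k),
    rest_coeff, num]
  simp [coeff_X]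


section Inj

variable (hv : Function.Injective (Sum.elim a b))

include hv

lemma ne_aa {i j : Fin g} (h : i ≠ j) : a i - a j ≠ 0 := fun e =>
  h (Sum.inl.inj (hv (show Sum.elim a b (Sum.inl i) = Sum.elim a b (Sum.inl j) from
    sub_eq_zero.1 e)))

lemma ne_bb {i j : Fin g} (h : i ≠ j) : b i - b j ≠ 0 := fun e =>
  h (Sum.inr.inj (hv (show Sum.elim a b (Sum.inr i) = Sum.elim a b (Sum.inr j) from
    sub_eq_zero.1 e)))

lemma ne_ab (i j : Fin g) : a i - b j ≠ 0 := fun e => by
  have := hv (show Sum.elim a b (Sum.inl i) = Sum.elim a b (Sum.inr j) from sub_eq_zero.1 e)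
  cases this

lemma ne_ba (i j : Fin g) : b i - a j ≠ 0 := fun e =>
  ne_ab a b hv j i (by linear_combination -e)

lemma der_a_ne (k : Fin g) : (derivative (nodePoly a b)).eval (a k) ≠ 0 := by
  rw [der_a, rest, eval_prod]
  refine mul_ne_zero (ne_ab a b hv k k) (Finset.prod_ne_zero_iff.2 fun j hj => ?_)
  simp only [eval_mul, eval_sub, eval_X, eval_C]
  exact mul_ne_zero (ne_aa a b hv (Finset.ne_of_mem_erase hj).symm) (ne_ab a b hv k j)

lemma der_b_ne (k : Fin g) : (derivative (nodePoly a b)).eval (b k) ≠ 0 := by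
  rw [der_b, rest, eval_prod]
  refine mul_ne_zero (ne_ba a b hv k k) (Finset.prod_ne_zero_iff.2 fun j hj => ?_)
  simp only [eval_mul, eval_sub, eval_X, eval_C]
  exact mul_ne_zero (ne_ba a b hv k j) (ne_bb a b hv (Finset.ne_of_mem_erase hj).symm)

lemma uniq {P : ℂ[X]} (hd : P.degree < (2 * g : ℕ)) (ha : ∀ i, P.eval (a i) = 0)
    (hb : ∀ i, P.eval (b i) = 0) : P = 0 := by
  refine eq_zero_of_degree_lt_of_eval_index_eq_zero (v := Sum.elim a b) Finset.univ
    hv.injOn ?_ ?_
  · simpa [two_mul] using hd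
  · rintro (i | i) -
    · exact ha i
    · exact hb i

end Inj

/-- The residue at `a_k`: `r_k (x) = x (a_k) / D' (a_k)`. -/
def res (k : Fin g) : sect a b t 1 →ₗ[ℂ] ℂ :=
  ((derivative (nodePoly a b)).eval (a k))⁻¹ • (leval (a k) ∘ₗ (sect a b t 1).subtype)

section Inj2

variable (hv : Function.Injective (Sum.elim a b))

include hv

lemma val_a (k : Fin g) (x : sect a b t 1) :
    (x : ℂ[X]).eval (a k) = res a b t k x * (derivative (nodePoly a b)).eval (a k) := by
  have h := der_a_ne a b hv k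
  change _ = ((derivative (nodePoly a b)).eval (a k))⁻¹ * (x : ℂ[X]).eval (a k) * _
  field_simp

lemma val_b (k : Fin g) (x : sect a b t 1) :
    (x : ℂ[X]).eval (b k) =
      -(t k : ℂ) * res a b t k x * (derivative (nodePoly a b)).eval (b k) := by
  have h := der_a_ne a b hv k
  have hx := x.2.2 k
  rw [val_a a b t hv k x, pow_one, pow_one, pow_one] at hx
  exact mul_right_cancel₀ h (by linear_combination hx)

lemma expand (hg : 1 ≤ g) (x : sect a b t 1) :
    (x : ℂ[X]) = ∑ k, res a b t k x • el a b t k := by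
  rw [← sub_eq_zero]
  refine uniq a b hv ?_ (fun i => ?_) fun i => ?_
  · have h1 : ((x : ℂ[X]) - ∑ k, res a b t k x • el a b t k).natDegree ≤ 2 * (g - 1) + 1 := by
      refine (natDegree_sub_le _ _).trans (max_le ?_ ?_)
      · have := x.2.1
        omega
      · refine natDegree_sum_le_of_forall_le _ _ fun k _ => ?_
        exact (natDegree_smul_le _ _).trans (el_natDegree a b t k)
    exact degree_le_natDegree.trans_lt (Nat.cast_lt.2 (by omega))
  · rw [eval_sub, eval_finsetSum, Finset.sum_eq_single i, eval_smul, el_a, val_a a b t hv i x,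
      smul_eq_mul, sub_self]
    · intro k _ hk
      rw [eval_smul, el_a' a b t hk.symm, smul_zero]
    · simp
  · rw [eval_sub, eval_finsetSum, Finset.sum_eq_single i, eval_smul, el_b, val_b a b t hv i x,
      smul_eq_mul]
    · ring
    · intro k _ hk
      rw [eval_smul, el_b' a b t hk.symm, smul_zero]
    · simp


lemma sum_res (hg : 1 ≤ g) (x : sect a b t 1) : ∑ k, (1 - (t k : ℂ)) * res a b t k x = 0 := by
  have h := congrArg (fun p => coeff p (2 * (g - 1) + 1)) (expand a b t hv hg x)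
  simp only [finsetSum_coeff, coeff_smul, el_coeff, smul_eq_mul] at h
  have h0 : (x : ℂ[X]).coeff (2 * (g - 1) + 1) = 0 :=
    coeff_eq_zero_of_natDegree_lt (by have := x.2.1; omega)
  rw [h0] at h
  rw [h]
  exact Finset.sum_congr rfl fun k _ => mul_comm _ _

end Inj2

/-- The functional `r_j ⊗ r_k`. -/
def phi (j k : Fin g) : sect a b t 1 ⊗[ℂ] sect a b t 1 →ₗ[ℂ] ℂ :=
  LinearMap.mul' ℂ ℂ ∘ₗ TensorProduct.map (res a b t j) (res a b t k)

lemma phi_tmul (j k : Fin g) (x y : sect a b t 1) :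
    phi a b t j k (x ⊗ₜ[ℂ] y) = res a b t j x * res a b t k y := by
  simp [phi]

section Inj3

variable (hv : Function.Injective (Sum.elim a b))

include hv

lemma rel_a (i : Fin g) :
    leval (a i) ∘ₗ Submodule.mulMap (sect a b t 1) (sect a b t 1) =
      ((derivative (nodePoly a b)).eval (a i)) ^ 2 • phi a b t i i := by
  refine TensorProduct.ext' fun x y => ?_
  simp only [LinearMap.comp_apply, LinearMap.smul_apply, phi_tmul, Submodule.mulMap_tmul,
    leval_apply, eval_mul, val_a a b t hv, smul_eq_mul]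
  ring

lemma rel_da (hg : 1 ≤ g) (i : Fin g) :
    leval (a i) ∘ₗ derivative ∘ₗ Submodule.mulMap (sect a b t 1) (sect a b t 1) =
      ((derivative (nodePoly a b)).eval (a i)) •
        ∑ k, (derivative (el a b t k)).eval (a i) • (phi a b t i k + phi a b t k i) := by
  refine TensorProduct.ext' fun x y => ?_
  have e : ∀ x : sect a b t 1, (derivative (x : ℂ[X])).eval (a i) =
      ∑ k, res a b t k x * (derivative (el a b t k)).eval (a i) := fun x => by
    conv_lhs => rw [expand a b t hv hg x]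
    simp only [derivative_sum, derivative_smul, eval_finsetSum, eval_smul, smul_eq_mul]
  simp only [LinearMap.comp_apply, LinearMap.smul_apply, LinearMap.sum_apply,
    LinearMap.add_apply, phi_tmul, Submodule.mulMap_tmul, leval_apply, derivative_mul, eval_add,
    eval_mul, val_a a b t hv, smul_eq_mul, e]
  simp only [Finset.sum_mul, Finset.mul_sum]
  rw [← Finset.sum_add_distrib]
  exact Finset.sum_congr rfl fun k _ => by ring

lemma rel_db (hg : 1 ≤ g) (i : Fin g) :
    leval (b i) ∘ₗ derivative ∘ₗ Submodule.mulMap (sect a b t 1) (sect a b t 1) =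
      (-(t i : ℂ) * (derivative (nodePoly a b)).eval (b i)) •
        ∑ k, (derivative (el a b t k)).eval (b i) • (phi a b t i k + phi a b t k i) := by
  refine TensorProduct.ext' fun x y => ?_
  have e : ∀ x : sect a b t 1, (derivative (x : ℂ[X])).eval (b i) =
      ∑ k, res a b t k x * (derivative (el a b t k)).eval (b i) := fun x => by
    conv_lhs => rw [expand a b t hv hg x]
    simp only [derivative_sum, derivative_smul, eval_finsetSum, eval_smul, smul_eq_mul]
  simp only [LinearMap.comp_apply, LinearMap.smul_apply, LinearMap.sum_apply,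
    LinearMap.add_apply, phi_tmul, Submodule.mulMap_tmul, leval_apply, derivative_mul, eval_add,
    eval_mul, val_b a b t hv, smul_eq_mul, e]
  simp only [Finset.sum_mul, Finset.mul_sum]
  rw [← Finset.sum_add_distrib]
  exact Finset.sum_congr rfl fun k _ => by ring

lemma rel_sum (hg : 1 ≤ g) (i : Fin g) :
    ∑ k, (1 - (t k : ℂ)) • (phi a b t i k + phi a b t k i) = 0 := by
  refine TensorProduct.ext' fun x y => ?_
  simp only [LinearMap.smul_apply, LinearMap.sum_apply, LinearMap.add_apply, phi_tmul,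
    smul_eq_mul, LinearMap.zero_apply]
  have h1 := sum_res a b t hv hg x
  have h2 := sum_res a b t hv hg y
  calc _ = res a b t i x * ∑ k, (1 - (t k : ℂ)) * res a b t k y +
        res a b t i y * ∑ k, (1 - (t k : ℂ)) * res a b t k x := by
        rw [Finset.mul_sum, Finset.mul_sum, ← Finset.sum_add_distrib]
        exact Finset.sum_congr rfl fun k _ => by ring
    _ = 0 := by rw [h1, h2]; ring

/-- The relations satisfied by a tensor in the kernel of the multiplication. -/
lemma kernel_rel (hg : 1 ≤ g) (τ : sect a b t 1 ⊗[ℂ] sect a b t 1)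
    (h : Submodule.mulMap (sect a b t 1) (sect a b t 1) τ = 0) :
    (∀ i, phi a b t i i τ + phi a b t i i τ = 0) ∧
    (∀ i, ∑ k, (1 - (t k : ℂ)) * (phi a b t i k τ + phi a b t k i τ) = 0) ∧
    (∀ i, ∑ k, (phi a b t i k τ + phi a b t k i τ) *
      (((a i - b k) - t k * (a i - a k)) / ((a i - a k) * (a i - b k))) = 0) ∧
    ∀ i, ∑ k, (phi a b t i k τ + phi a b t k i τ) *
      (((b i - b k) - t k * (b i - a k)) / ((b i - a k) * (b i - b k))) = 0 := by
  have hii : ∀ i, phi a b t i i τ = 0 := fun i => by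
    have h1 := LinearMap.congr_fun (rel_a a b t hv i) τ
    simp only [LinearMap.comp_apply, h, map_zero, LinearMap.smul_apply, smul_eq_mul] at h1
    exact (mul_eq_zero.1 h1.symm).resolve_left (pow_ne_zero 2 (der_a_ne a b hv i))
  refine ⟨fun i => by rw [hii i, add_zero], fun i => ?_, fun i => ?_, fun i => ?_⟩
  · have h1 := LinearMap.congr_fun (rel_sum a b t hv hg i) τ
    simpa only [LinearMap.smul_apply, LinearMap.sum_apply, LinearMap.add_apply,
      smul_eq_mul, LinearMap.zero_apply] using h1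
  · have h1 := LinearMap.congr_fun (rel_da a b t hv hg i) τ
    simp only [LinearMap.comp_apply, h, map_zero, LinearMap.smul_apply, LinearMap.sum_apply,
      LinearMap.add_apply, smul_eq_mul] at h1
    have h2 := (mul_eq_zero.1 h1.symm).resolve_left (der_a_ne a b hv i)
    refine (mul_eq_zero.1 (?_ : (derivative (nodePoly a b)).eval (a i) * _ = 0)).resolve_left
      (der_a_ne a b hv i)
    rw [← h2, Finset.mul_sum]
    refine Finset.sum_congr rfl fun k _ => ?_
    rcases eq_or_ne i k with rfl | hik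
    · rw [hii i]; ring
    · have h3 := el_der_a a b t hik
      have h4 := ne_aa a b hv hik
      have h5 := ne_ab a b hv i k
      have h6 : (derivative (nodePoly a b)).eval (a i) *
          (((a i - b k) - t k * (a i - a k)) / ((a i - a k) * (a i - b k))) =
          (derivative (el a b t k)).eval (a i) := by
        rw [mul_div_assoc', div_eq_iff (mul_ne_zero h4 h5)]
        exact h3.symm
      rw [mul_left_comm, h6, mul_comm]
  · have h1 := LinearMap.congr_fun (rel_db a b t hv hg i) τ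
    simp only [LinearMap.comp_apply, h, map_zero, LinearMap.smul_apply, LinearMap.sum_apply,
      LinearMap.add_apply, smul_eq_mul] at h1
    have h2 := (mul_eq_zero.1 h1.symm).resolve_left
      (mul_ne_zero (neg_ne_zero.2 (t i).ne_zero) (der_b_ne a b hv i))
    refine (mul_eq_zero.1 (?_ : (derivative (nodePoly a b)).eval (b i) * _ = 0)).resolve_left
      (der_b_ne a b hv i)
    rw [← h2, Finset.mul_sum]
    refine Finset.sum_congr rfl fun k _ => ?_
    rcases eq_or_ne i k with rfl | hik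
    · rw [hii i]; ring
    · have h3 := el_der_b a b t hik
      have h4 := ne_bb a b hv hik
      have h5 := ne_ba a b hv i k
      have h6 : (derivative (nodePoly a b)).eval (b i) *
          (((b i - b k) - t k * (b i - a k)) / ((b i - a k) * (b i - b k))) =
          (derivative (el a b t k)).eval (b i) := by
        rw [mul_div_assoc', div_eq_iff (mul_ne_zero h5 h4)]
        exact h3.symm
      rw [mul_left_comm, h6, mul_comm]

end Inj3


lemma comb_mem (hg : 1 ≤ g) (c : Fin g → ℂ) (hc : ∑ k, (1 - (t k : ℂ)) * c k = 0) :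
    ∑ k, c k • el a b t k ∈ sect a b t 1 := by
  refine ⟨?_, fun i => ?_⟩
  · rw [natDegree_le_iff_coeff_eq_zero]
    intro N hN
    rcases eq_or_ne N (2 * (g - 1) + 1) with rfl | hN'
    · simp only [finsetSum_coeff, coeff_smul, el_coeff, smul_eq_mul]
      rw [← hc]
      exact Finset.sum_congr rfl fun k _ => mul_comm _ _
    · refine coeff_eq_zero_of_natDegree_lt (lt_of_le_of_lt
        (natDegree_sum_le_of_forall_le (n := 2 * (g - 1) + 1) _ _ fun k _ =>
          (natDegree_smul_le _ _).trans (el_natDegree a b t k)) ?_)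
      omega
  · rw [eval_finsetSum, eval_finsetSum, Finset.sum_eq_single i, Finset.sum_eq_single i, eval_smul,
      eval_smul, el_a, el_b, smul_eq_mul, smul_eq_mul]
    · ring
    · intro k _ hk
      rw [eval_smul, el_a' a b t hk.symm, smul_zero]
    · simp
    · intro k _ hk
      rw [eval_smul, el_b' a b t hk.symm, smul_zero]
    · simp

lemma res_comb (hv : Function.Injective (Sum.elim a b)) (c : Fin g → ℂ)
    (hc : ∑ k, c k • el a b t k ∈ sect a b t 1) (i : Fin g) :
    res a b t i ⟨∑ k, c k • el a b t k, hc⟩ = c i := by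
  have h := der_a_ne a b hv i
  change ((derivative (nodePoly a b)).eval (a i))⁻¹ * (∑ k, c k • el a b t k).eval (a i) = _
  rw [eval_finsetSum, Finset.sum_eq_single i, eval_smul, el_a, smul_eq_mul]
  · field_simp
  · intro k _ hk
    rw [eval_smul, el_a' a b t hk.symm, smul_zero]
  · simp

lemma eq_zero_of_res (hv : Function.Injective (Sum.elim a b)) (hg : 1 ≤ g) (y : sect a b t 1)
    (h : ∀ k, res a b t k y = 0) : y = 0 := by
  apply Subtype.ext
  rw [expand a b t hv hg y]
  simp [h]


/-! ### Coordinates: an index `e` with `t_e ≠ 1` -/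

/-- `v_k = E_k - ((1 - t_k) / (1 - t_e)) E_e`. -/
def vc (e k : Fin g) : Fin g → ℂ := fun i =>
  (if i = k then 1 else 0) - (if i = e then (1 - (t k : ℂ)) / (1 - (t e : ℂ)) else 0)

lemma vc_sum {e : Fin g} (he : t e ≠ 1) (k : Fin g) : ∑ i, (1 - (t i : ℂ)) * vc t e k i = 0 := by
  have h : (1 : ℂ) - t e ≠ 0 := sub_ne_zero.2 fun h => he (Units.ext h.symm)
  simp only [vc, mul_sub, Finset.sum_sub_distrib, mul_ite, mul_one, mul_zero,
    Finset.sum_ite_eq', Finset.mem_univ, if_true]
  field_simp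
  ring

/-- The spanning sections `v_k` (`v_e = 0`). -/
def bas (hg : 1 ≤ g) {e : Fin g} (he : t e ≠ 1) (k : Fin g) : sect a b t 1 :=
  ⟨∑ i, vc t e k i • el a b t i, comb_mem a b t hg _ (vc_sum t he k)⟩

section Bas

variable (hv : Function.Injective (Sum.elim a b)) (hg : 1 ≤ g) {e : Fin g} (he : t e ≠ 1)

include hv

lemma res_bas (k i : Fin g) : res a b t i (bas a b t hg he k) = vc t e k i :=
  res_comb a b t hv _ _ i

lemma res_bas' {i : Fin g} (k : Fin g) (hi : i ≠ e) :
    res a b t i (bas a b t hg he k) = if i = k then 1 else 0 := by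
  rw [res_bas a b t hv, vc, if_neg hi, sub_zero]

lemma expand_bas (x : sect a b t 1) : x = ∑ k, res a b t k x • bas a b t hg he k := by
  rw [← sub_eq_zero]
  refine eq_zero_of_res a b t hv hg _ fun i => ?_
  have h : (1 : ℂ) - t e ≠ 0 := sub_ne_zero.2 fun h => he (Units.ext h.symm)
  have hs := sum_res a b t hv hg x
  rw [map_sub, map_sum]
  simp only [map_smul, res_bas a b t hv, smul_eq_mul, vc, mul_sub, Finset.sum_sub_distrib,
    mul_ite, mul_one, mul_zero, Finset.sum_ite_eq, Finset.mem_univ, if_true]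
  rw [sub_sub_cancel]
  split_ifs with hi
  · have : ∑ k, res a b t k x * ((1 - (t k : ℂ)) / (1 - (t e : ℂ))) =
        (∑ k, (1 - (t k : ℂ)) * res a b t k x) / (1 - (t e : ℂ)) := by
      rw [Finset.sum_div]
      exact Finset.sum_congr rfl fun k _ => by ring
    rw [this, hs, zero_div]
  · simp

lemma tens2 (τ : sect a b t 1 ⊗[ℂ] sect a b t 1) :
    ∑ j, ∑ k, phi a b t j k τ • (bas a b t hg he j ⊗ₜ[ℂ] bas a b t hg he k) = τ := by
  induction τ using TensorProduct.induction_on with
  | zero => simp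
  | tmul x y =>
    conv_rhs => rw [expand_bas a b t hv hg he x, expand_bas a b t hv hg he y]
    simp only [TensorProduct.sum_tmul, TensorProduct.tmul_sum, TensorProduct.smul_tmul_smul,
      phi_tmul]
    exact Finset.sum_comm
  | add x y hx hy =>
    simp only [map_add, add_smul, Finset.sum_add_distrib]
    rw [hx, hy]

end Bas

/-- Antisymmetrised contraction with the residue `r_i`. -/
def con (i : Fin g) : sect a b t 1 ⊗[ℂ] sect a b t 1 →ₗ[ℂ] sect a b t 1 :=
  (TensorProduct.lid ℂ (sect a b t 1)).toLinearMap ∘ₗ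
      LinearMap.rTensor (sect a b t 1) (res a b t i) -
    (TensorProduct.rid ℂ (sect a b t 1)).toLinearMap ∘ₗ
      LinearMap.lTensor (sect a b t 1) (res a b t i)

lemma con_tmul (i : Fin g) (x y : sect a b t 1) :
    con a b t i (x ⊗ₜ[ℂ] y) = res a b t i x • y - res a b t i y • x := by
  rw [con, LinearMap.sub_apply, LinearMap.comp_apply, LinearMap.comp_apply,
    LinearMap.rTensor_tmul, LinearMap.lTensor_tmul, LinearEquiv.coe_coe, LinearEquiv.coe_coe,
    TensorProduct.lid_tmul, TensorProduct.rid_tmul]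

/-- Antisymmetrised contraction of the first two factors. -/
def rho (i : Fin g) : (sect a b t 1 ⊗[ℂ] sect a b t 1) ⊗[ℂ] sect a b t 1 →ₗ[ℂ]
    sect a b t 1 ⊗[ℂ] sect a b t 1 :=
  LinearMap.rTensor (sect a b t 1) (con a b t i)

lemma rho_tmul (i : Fin g) (x y w : sect a b t 1) :
    rho a b t i ((x ⊗ₜ[ℂ] y) ⊗ₜ[ℂ] w) =
      (res a b t i x • y - res a b t i y • x) ⊗ₜ[ℂ] w := by
  rw [rho, LinearMap.rTensor_tmul, con_tmul]

lemma kos_tmul (x y w : sect a b t 1) :
    kos a b t ((x ⊗ₜ[ℂ] y) ⊗ₜ[ℂ] w) =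
      x ⊗ₜ[ℂ] mulS a b t 1 1 (y ⊗ₜ[ℂ] w) + y ⊗ₜ[ℂ] (-mulS a b t 1 1 (x ⊗ₜ[ℂ] w)) := by
  rw [kos, LinearMap.add_apply, LinearMap.comp_apply, LinearMap.comp_apply, LinearMap.comp_apply,
    LinearMap.rTensor_tmul, LinearEquiv.coe_coe, LinearEquiv.coe_coe, TensorProduct.comm_tmul,
    TensorProduct.assoc_tmul, TensorProduct.assoc_tmul, LinearMap.lTensor_tmul,
    LinearMap.lTensor_tmul, LinearMap.neg_apply]

/-- The coefficients `A_ijk` of a tensor. -/
def aco (i j k : Fin g) : (sect a b t 1 ⊗[ℂ] sect a b t 1) ⊗[ℂ] sect a b t 1 →ₗ[ℂ] ℂ :=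
  phi a b t j k ∘ₗ rho a b t i

lemma aco_tmul (i j k : Fin g) (x y w : sect a b t 1) :
    aco a b t i j k ((x ⊗ₜ[ℂ] y) ⊗ₜ[ℂ] w) =
      (res a b t i x * res a b t j y - res a b t i y * res a b t j x) * res a b t k w := by
  rw [aco, LinearMap.comp_apply, rho_tmul, phi_tmul, map_sub, map_smul, map_smul, smul_eq_mul,
    smul_eq_mul]

lemma ext3 {M : Type} [AddCommMonoid M] [Module ℂ M]
    {f h : (sect a b t 1 ⊗[ℂ] sect a b t 1) ⊗[ℂ] sect a b t 1 →ₗ[ℂ] M}
    (H : ∀ x y w, f ((x ⊗ₜ[ℂ] y) ⊗ₜ[ℂ] w) = h ((x ⊗ₜ[ℂ] y) ⊗ₜ[ℂ] w)) : f = h :=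
  TensorProduct.ext_threefold H

lemma aco_anti (i j k : Fin g) : aco a b t i j k = -aco a b t j i k := by
  refine ext3 a b t fun x y w => ?_
  rw [LinearMap.neg_apply, aco_tmul, aco_tmul]
  ring

lemma aco_sum (hv : Function.Injective (Sum.elim a b)) (hg : 1 ≤ g) (j k : Fin g) :
    ∑ i, (1 - (t i : ℂ)) • aco a b t i j k = 0 := by
  refine ext3 a b t fun x y w => ?_
  simp only [LinearMap.sum_apply, LinearMap.smul_apply, aco_tmul, smul_eq_mul,
    LinearMap.zero_apply]
  have h1 := sum_res a b t hv hg x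
  have h2 := sum_res a b t hv hg y
  calc _ = (∑ i, (1 - (t i : ℂ)) * res a b t i x) * (res a b t j y * res a b t k w) -
        (∑ i, (1 - (t i : ℂ)) * res a b t i y) * (res a b t j x * res a b t k w) := by
        rw [Finset.sum_mul, Finset.sum_mul, ← Finset.sum_sub_distrib]
        exact Finset.sum_congr rfl fun i _ => by ring
    _ = 0 := by rw [h1, h2]; ring

/-- The contraction of a tensor in the kernel of the Koszul differential is in the kernel of the multiplication. -/
lemma rho_ker (i : Fin g) (τ : (sect a b t 1 ⊗[ℂ] sect a b t 1) ⊗[ℂ] sect a b t 1)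
    (h : kos a b t τ = 0) :
    Submodule.mulMap (sect a b t 1) (sect a b t 1) (rho a b t i τ) = 0 := by
  have e : Submodule.mulMap (sect a b t 1) (sect a b t 1) ∘ₗ rho a b t i =
      ((TensorProduct.lid ℂ ℂ[X]).toLinearMap ∘ₗ
        TensorProduct.map (res a b t i) (sect a b t (1 + 1)).subtype) ∘ₗ kos a b t := by
    refine ext3 a b t fun x y w => ?_
    simp only [LinearMap.comp_apply, rho_tmul, kos_tmul, Submodule.mulMap_tmul, map_add,
      TensorProduct.map_tmul, LinearEquiv.coe_coe, TensorProduct.lid_tmul]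
    simp [mulS, add_mul, sub_eq_add_neg]
  have h1 := LinearMap.congr_fun e τ
  simp only [LinearMap.comp_apply] at h1
  rw [h1, h, map_zero, map_zero]

/-- The relations for the coefficients of a tensor in the kernel of the Koszul differential. -/
lemma kos_rel (hv : Function.Injective (Sum.elim a b)) (hg : 1 ≤ g)
    (τ : (sect a b t 1 ⊗[ℂ] sect a b t 1) ⊗[ℂ] sect a b t 1) (h : kos a b t τ = 0)
    (T : Fin g → Fin g → Fin g → ℂ)
    (hT : ∀ i j k, T i j k = aco a b t i j k τ + aco a b t i k j τ) :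
    (∀ i j k, T i j k = T i k j) ∧ (∀ i j, T i j j = 0) ∧
    (∀ i j k, T i j k + T j k i + T k i j = 0) ∧
    (∀ i j, ∑ k, (1 - (t k : ℂ)) * T i j k = 0) ∧
    (∀ j k, ∑ i, (1 - (t i : ℂ)) * T i j k = 0) ∧
    (∀ i j, ∑ k, T i j k *
      (((a j - b k) - t k * (a j - a k)) / ((a j - a k) * (a j - b k))) = 0) ∧
    ∀ i j, ∑ k, T i j k *
      (((b j - b k) - t k * (b j - a k)) / ((b j - a k) * (b j - b k))) = 0 := by
  have hr := fun i => kernel_rel a b t hv hg (rho a b t i τ) (rho_ker a b t i τ h)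
  have hT' : ∀ i j k, T i j k = phi a b t j k (rho a b t i τ) + phi a b t k j (rho a b t i τ) :=
    hT
  have han : ∀ i j k, aco a b t i j k τ = -aco a b t j i k τ := fun i j k => by
    rw [aco_anti a b t i j k]; rfl
  refine ⟨fun i j k => ?_, fun i j => ?_, fun i j k => ?_, fun i j => ?_, fun j k => ?_,
    fun i j => ?_, fun i j => ?_⟩
  · rw [hT, hT, add_comm]
  · rw [hT']; exact (hr i).1 j
  · rw [hT, hT, hT]
    linear_combination han i j k + han i k j + han j k i
  · simp only [hT']; exact (hr i).2.1 j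
  · have h1 := LinearMap.congr_fun (aco_sum a b t hv hg j k) τ
    have h2 := LinearMap.congr_fun (aco_sum a b t hv hg k j) τ
    simp only [LinearMap.sum_apply, LinearMap.smul_apply, smul_eq_mul,
      LinearMap.zero_apply] at h1 h2
    simp only [hT, mul_add, Finset.sum_add_distrib]
    rw [h1, h2, add_zero]
  · simp only [hT']; exact (hr i).2.2.1 j
  · simp only [hT']; exact (hr i).2.2.2 j

/-- The functional `(r_i ⊗ r_j) ⊗ r_k`. -/
def phi3 (i j k : Fin g) : (sect a b t 1 ⊗[ℂ] sect a b t 1) ⊗[ℂ] sect a b t 1 →ₗ[ℂ] ℂ :=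
  LinearMap.mul' ℂ ℂ ∘ₗ TensorProduct.map (phi a b t i j) (res a b t k)

lemma phi3_tmul (i j k : Fin g) (x y w : sect a b t 1) :
    phi3 a b t i j k ((x ⊗ₜ[ℂ] y) ⊗ₜ[ℂ] w) =
      res a b t i x * res a b t j y * res a b t k w := by
  rw [phi3, LinearMap.comp_apply, TensorProduct.map_tmul, phi_tmul, LinearMap.mul'_apply]

lemma aco_eq (i j k : Fin g) : aco a b t i j k = phi3 a b t i j k - phi3 a b t j i k := by
  refine ext3 a b t fun x y w => ?_
  rw [LinearMap.sub_apply, aco_tmul, phi3_tmul, phi3_tmul]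
  ring

lemma tens3 (hv : Function.Injective (Sum.elim a b)) (hg : 1 ≤ g) {e : Fin g} (he : t e ≠ 1)
    (τ : (sect a b t 1 ⊗[ℂ] sect a b t 1) ⊗[ℂ] sect a b t 1) :
    ∑ i, ∑ j, ∑ k, phi3 a b t i j k τ •
      ((bas a b t hg he i ⊗ₜ[ℂ] bas a b t hg he j) ⊗ₜ[ℂ] bas a b t hg he k) = τ := by
  have key : (∑ i, ∑ j, ∑ k, (phi3 a b t i j k).smulRight
      ((bas a b t hg he i ⊗ₜ[ℂ] bas a b t hg he j) ⊗ₜ[ℂ] bas a b t hg he k) :
      (sect a b t 1 ⊗[ℂ] sect a b t 1) ⊗[ℂ] sect a b t 1 →ₗ[ℂ]
        (sect a b t 1 ⊗[ℂ] sect a b t 1) ⊗[ℂ] sect a b t 1) = LinearMap.id := by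
    refine ext3 a b t fun x y w => ?_
    simp only [LinearMap.sum_apply, LinearMap.smulRight_apply, phi3_tmul, LinearMap.id_apply]
    conv_rhs => rw [expand_bas a b t hv hg he x, expand_bas a b t hv hg he y,
      expand_bas a b t hv hg he w]
    simp only [TensorProduct.sum_tmul, TensorProduct.tmul_sum, TensorProduct.smul_tmul_smul]
    exact (Finset.sum_congr rfl fun i _ => Finset.sum_comm).trans
      (Finset.sum_comm.trans (Finset.sum_congr rfl fun k _ => Finset.sum_comm))
  have h1 := LinearMap.congr_fun key τ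
  simpa only [LinearMap.sum_apply, LinearMap.smulRight_apply, LinearMap.id_apply] using h1

lemma mem_of_add_mem {M : Type} [AddCommMonoid M] [Module ℂ M] (N : Submodule ℂ M) {x y : M}
    (h : x + y ∈ N) (hy : y ∈ N) : x ∈ N := by
  have h1 := N.add_mem h (N.smul_mem (-1 : ℂ) hy)
  have e : x + y + (-1 : ℂ) • y = x := by
    have e1 : y + (-1 : ℂ) • y = 0 := by
      have e2 : y + (-1 : ℂ) • y = (1 + -1 : ℂ) • y := by rw [add_smul, one_smul]
      rw [e2, add_neg_cancel, zero_smul]
    rw [add_assoc, e1, add_zero]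
  rwa [e] at h1

/-- The vanishing of `K_{2,1}` from the vanishing of the symmetrised coefficients. -/
theorem vanish21_of (hv : Function.Injective (Sum.elim a b)) (hg : 1 ≤ g) {e : Fin g}
    (he : t e ≠ 1)
    (H : ∀ τ, kos a b t τ = 0 → ∀ i j k, aco a b t i j k τ + aco a b t i k j τ = 0) :
    VanishK21 a b t := by
  intro τ hτ
  rw [← tens3 a b t hv hg he τ]
  refine anti3 _ (fun i j k => (bas a b t hg he i ⊗ₜ[ℂ] bas a b t hg he j) ⊗ₜ[ℂ]
    bas a b t hg he k) (fun i j k => phi3 a b t i j k τ) (fun i j k => ?_) (fun i j k => ?_)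
    (fun i j k => ?_)
  · refine Submodule.mem_sup_left ?_
    set x := bas a b t hg he i
    set y := bas a b t hg he j
    set w := bas a b t hg he k
    have h1 := Submodule.subset_span (R := ℂ) (s := Set.range
      fun p : sect a b t 1 × sect a b t 1 => (p.1 ⊗ₜ[ℂ] p.1) ⊗ₜ[ℂ] p.2) ⟨(x + y, w), rfl⟩
    have h2 := Submodule.subset_span (R := ℂ) (s := Set.range
      fun p : sect a b t 1 × sect a b t 1 => (p.1 ⊗ₜ[ℂ] p.1) ⊗ₜ[ℂ] p.2) ⟨(x, w), rfl⟩
    have h3 := Submodule.subset_span (R := ℂ) (s := Set.range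
      fun p : sect a b t 1 × sect a b t 1 => (p.1 ⊗ₜ[ℂ] p.1) ⊗ₜ[ℂ] p.2) ⟨(y, w), rfl⟩
    simp only [TensorProduct.add_tmul, TensorProduct.tmul_add] at h1 h2 h3
    refine mem_of_add_mem _ (mem_of_add_mem _ ?_ h2) h3
    have h1' := SetLike.mem_coe.1 h1
    convert h1' using 1
    abel
  · exact Submodule.mem_sup_right (Submodule.subset_span
      ⟨(bas a b t hg he i, bas a b t hg he j, bas a b t hg he k), rfl⟩)
  · have h1 := H τ hτ i j k
    rw [aco_eq, aco_eq, LinearMap.sub_apply, LinearMap.sub_apply] at h1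
    linear_combination h1

/-- The space of sections has at most the expected dimension. -/
theorem sect_finite (hv : Function.Injective (Sum.elim a b)) (q N : ℕ)
    (hN : q * (2 * g - 2) < 2 * g + N) :
    Module.Finite ℂ (sect a b t q) ∧ Module.finrank ℂ (sect a b t q) ≤ g + N := by
  let f : sect a b t q →ₗ[ℂ] (Fin g → ℂ) × (Fin N → ℂ) :=
    (LinearMap.prod (LinearMap.pi fun i => leval (a i))
      (LinearMap.pi fun m : Fin N => lcoeff ℂ (2 * g + m.val))) ∘ₗ (sect a b t q).subtype
  have hf : Function.Injective f := by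
    rw [← LinearMap.ker_eq_bot, LinearMap.ker_eq_bot']
    intro x hx
    have ha : ∀ i, (x : ℂ[X]).eval (a i) = 0 := fun i => congrFun (congrArg Prod.fst hx) i
    have hc : ∀ m : Fin N, (x : ℂ[X]).coeff (2 * g + m.val) = 0 := fun m =>
      congrFun (congrArg Prod.snd hx) m
    refine Subtype.ext (uniq a b hv ?_ ha fun i => ?_)
    · rw [degree_lt_iff_coeff_zero]
      intro m hm
      by_cases h20 : m < 2 * g + N
      · have := hc ⟨m - 2 * g, by omega⟩
        simp only at this
        rwa [show 2 * g + (m - 2 * g) = m by omega] at this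
      · exact coeff_eq_zero_of_natDegree_lt (lt_of_le_of_lt x.2.1 (by omega))
    · have h := x.2.2 i
      rw [ha i, mul_zero, zero_mul] at h
      exact (mul_eq_zero.1 h).resolve_right (pow_ne_zero q (der_a_ne a b hv i))
  refine ⟨Module.Finite.of_injective f hf, (LinearMap.finrank_le_finrank_of_injective hf).trans ?_⟩
  simp

theorem sect1_finite (hv : Function.Injective (Sum.elim a b)) (hg : 1 ≤ g) {e : Fin g}
    (he : t e ≠ 1) :
    Module.Finite ℂ (sect a b t 1) ∧ Module.finrank ℂ (sect a b t 1) ≤ g - 1 := by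
  let f : sect a b t 1 →ₗ[ℂ] ({k : Fin g // k ≠ e} → ℂ) := LinearMap.pi fun k => res a b t k
  have hf : Function.Injective f := by
    rw [← LinearMap.ker_eq_bot, LinearMap.ker_eq_bot']
    intro x hx
    have h0 : ∀ k, k ≠ e → res a b t k x = 0 := fun k hk => congrFun hx ⟨k, hk⟩
    have hs := sum_res a b t hv hg x
    rw [Finset.sum_eq_single e (fun k _ hk => by rw [h0 k hk, mul_zero]) (by simp)] at hs
    have h1 : (1 : ℂ) - t e ≠ 0 := sub_ne_zero.2 fun h => he (Units.ext h.symm)
    have h2 := (mul_eq_zero.1 hs).resolve_left h1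
    refine eq_zero_of_res a b t hv hg x fun k => ?_
    rcases eq_or_ne k e with rfl | hk
    · exact h2
    · exact h0 k hk
  refine ⟨Module.Finite.of_injective f hf, (LinearMap.finrank_le_finrank_of_injective hf).trans ?_⟩
  simp [Fintype.card_subtype_compl]

end General

end

end Pool.Agent.H77.PG
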