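import Mathlib

/-!
# The linear system of genus 8

The nodes are `a = (2, -2, 3, -3, 1/2, -1/2, 12, -12)`, `b = (1, -1, 6, -6, 4, -4, 3/2, -3/2)`, the gluing factors are
`(z, z, z, z, 1, 1, 1, 1)`. The coefficients `T i j k` of a tensor in the kernel of the Koszul differential satisfy a linear system
over `ℚ[z]`. Gaussian elimination with constant pivots leaves five unknowns, and then rows which are multiples of `1 + z`
(produced by a computer, checked here step by step) (helper77).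
-/

set_option autoImplicit false

namespace Pool.Agent.H77.PG

lemma all8 {P : ℕ → Prop} (h0 : P 0) (h1 : P 1) (h2 : P 2) (h3 : P 3) (h4 : P 4) (h5 : P 5)
    (h6 : P 6) (h7 : P 7) : ∀ i < 8, P i := by
  intro i hi
  interval_cases i <;> assumption

/-- The linear system has only the trivial solution for `z ≠ -1`. -/
theorem core8 (z : ℂ) (hz : z ≠ -1) (T : ℕ → ℕ → ℕ → ℂ)
    (hsym : ∀ i j k, T i j k = T i k j) (h0 : ∀ i j, T i j j = 0)
    (hc : ∀ i j k, T i j k + T j i k + T k i j = 0)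
    (hs : ∀ i j, T i j 0 + T i j 1 + T i j 2 + T i j 3 = 0)
    (hr : ∀ j k, T 0 j k + T 1 j k + T 2 j k + T 3 j k = 0)
    (a0 : ∀ i, (210 - 280 * z) * T i 0 1 + (-840 + 210 * z) * T i 0 2 + (168 - 105 * z) * T i 0
      3 + (980) * T i 0 4 + (196) * T i 0 5 + (-1764) * T i 0 6 + (-180) * T i 0 7 = 0)
    (a1 : ∀ i, (-210 + 280 * z) * T i 0 1 + (-168 + 105 * z) * T i 1 2 + (840 - 210 * z) * T i 1
      3 + (-196) * T i 1 4 + (-980) * T i 1 5 + (180) * T i 1 6 + (1764) * T i 1 7 = 0)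
    (a2 : ∀ i, (1260 - 630 * z) * T i 0 2 + (252 - 315 * z) * T i 1 2 + (210 - 140 * z) * T i 2
      3 + (1764) * T i 2 4 + (180) * T i 2 5 + (-980) * T i 2 6 + (-196) * T i 2 7 = 0)
    (a3 : ∀ i, (-252 + 315 * z) * T i 0 3 + (-1260 + 630 * z) * T i 1 3 + (-210 + 140 * z) * T i
      2 3 + (-180) * T i 3 4 + (-1764) * T i 3 5 + (196) * T i 3 6 + (980) * T i 3 7 = 0)
    (a4 : ∀ i, (-6906900 + 20720700 * z) * T i 0 4 + (4144140 - 6906900 * z) * T i 1 4 +
      (-4144140 + 1883700 * z) * T i 2 4 + (2960100 - 1593900 * z) * T i 3 4 + (8058050) * T i 4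
      5 + (9459450) * T i 4 6 + (-4351347) * T i 4 7 = 0)
    (a5 : ∀ i, (-4144140 + 6906900 * z) * T i 0 5 + (6906900 - 20720700 * z) * T i 1 5 +
      (-2960100 + 1593900 * z) * T i 2 5 + (4144140 - 1883700 * z) * T i 3 5 + (-8058050) * T i
      4 5 + (4351347) * T i 5 6 + (-9459450) * T i 5 7 = 0)
    (a6 : ∀ i, (24864840 - 22604400 * z) * T i 0 6 + (17760600 - 19126800 * z) * T i 1 6 +
      (27627600 - 41441400 * z) * T i 2 6 + (16576560 - 13813800 * z) * T i 3 6 + (-9459450) * T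
      i 4 6 + (4351347) * T i 5 6 + (-8058050) * T i 6 7 = 0)
    (a7 : ∀ i, (-17760600 + 19126800 * z) * T i 0 7 + (-24864840 + 22604400 * z) * T i 1 7 +
      (-16576560 + 13813800 * z) * T i 2 7 + (-27627600 + 41441400 * z) * T i 3 7 + (-4351347) *
      T i 4 7 + (9459450) * T i 5 7 + (8058050) * T i 6 7 = 0)
    (b0 : ∀ i, (20020 - 30030 * z) * T i 0 1 + (-30030 + 12012 * z) * T i 0 2 + (15015 - 8580 *
      z) * T i 0 3 + (140140) * T i 0 4 + (28028) * T i 0 5 + (114660) * T i 0 6 + (-19404) * T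
      i 0 7 = 0)
    (b1 : ∀ i, (-20020 + 30030 * z) * T i 0 1 + (-15015 + 8580 * z) * T i 1 2 + (30030 - 12012 *
      z) * T i 1 3 + (-28028) * T i 1 4 + (-140140) * T i 1 5 + (19404) * T i 1 6 + (-114660) *
      T i 1 7 = 0)
    (b2 : ∀ i, (90090 - 72072 * z) * T i 0 2 + (45045 - 51480 * z) * T i 1 2 + (40040 - 30030 *
      z) * T i 2 3 + (-114660) * T i 2 4 + (19404) * T i 2 5 + (-140140) * T i 2 6 + (-28028) *
      T i 2 7 = 0)
    (b3 : ∀ i, (-45045 + 51480 * z) * T i 0 3 + (-90090 + 72072 * z) * T i 1 3 + (-40040 + 30030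
      * z) * T i 2 3 + (-19404) * T i 3 4 + (114660) * T i 3 5 + (28028) * T i 3 6 + (140140) *
      T i 3 7 = 0)
    (b4 : ∀ i, (27720 - 18480 * z) * T i 0 4 + (9240 - 11088 * z) * T i 1 4 + (55440 + 27720 *
      z) * T i 2 4 + (7920 - 5544 * z) * T i 3 4 + (5390) * T i 4 5 + (-29106) * T i 4 6 +
      (-6615) * T i 4 7 = 0)
    (b5 : ∀ i, (-9240 + 11088 * z) * T i 0 5 + (-27720 + 18480 * z) * T i 1 5 + (-7920 + 5544 *
      z) * T i 2 5 + (-55440 - 27720 * z) * T i 3 5 + (-5390) * T i 4 5 + (6615) * T i 5 6 +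
      (29106) * T i 5 7 = 0)
    (b6 : ∀ i, (-41580 - 41580 * z) * T i 0 6 + (5940 - 8316 * z) * T i 1 6 + (-13860 + 4620 *
      z) * T i 2 6 + (4620 - 2772 * z) * T i 3 6 + (29106) * T i 4 6 + (6615) * T i 5 6 +
      (-5390) * T i 6 7 = 0)
    (b7 : ∀ i, (-5940 + 8316 * z) * T i 0 7 + (41580 + 41580 * z) * T i 1 7 + (-4620 + 2772 * z)
      * T i 2 7 + (13860 - 4620 * z) * T i 3 7 + (-6615) * T i 4 7 + (-29106) * T i 5 7 + (5390)
      * T i 6 7 = 0)
    : ∀ i < 8, ∀ j < 8, ∀ k < 8, T i j k = 0 := by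
  have zA : ∀ i j, T i i j = 0 := fun i j => by
    have h := hc i i j
    rw [hsym j i i] at h
    have h1 := h0 j i
    linear_combination (1 / 2) * h - (1 / 2) * h1
  have zB : ∀ i j, T i j i = 0 := fun i j => by rw [hsym]; exact zA i j
  have s0 : ∀ i, T i 0 1 + T i 0 2 + T i 0 3 = 0 := fun i => by
    have h := hs i 0
    linear_combination h - h0 i 0
  have s1 : ∀ i, T i 0 1 + T i 1 2 + T i 1 3 = 0 := fun i => by
    have h := hs i 1
    rw [hsym i 1 0] at h
    linear_combination h - h0 i 1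
  have s2 : ∀ i, T i 0 2 + T i 1 2 + T i 2 3 = 0 := fun i => by
    have h := hs i 2
    rw [hsym i 2 0, hsym i 2 1] at h
    linear_combination h - h0 i 2
  have s3 : ∀ i, T i 0 3 + T i 1 3 + T i 2 3 = 0 := fun i => by
    have h := hs i 3
    rw [hsym i 3 0, hsym i 3 1, hsym i 3 2] at h
    linear_combination h - h0 i 3
  have s4 : ∀ i, T i 0 4 + T i 1 4 + T i 2 4 + T i 3 4 = 0 := fun i => by
    have h := hs i 4
    rw [hsym i 4 0, hsym i 4 1, hsym i 4 2, hsym i 4 3] at h
    linear_combination h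
  have s5 : ∀ i, T i 0 5 + T i 1 5 + T i 2 5 + T i 3 5 = 0 := fun i => by
    have h := hs i 5
    rw [hsym i 5 0, hsym i 5 1, hsym i 5 2, hsym i 5 3] at h
    linear_combination h
  have s6 : ∀ i, T i 0 6 + T i 1 6 + T i 2 6 + T i 3 6 = 0 := fun i => by
    have h := hs i 6
    rw [hsym i 6 0, hsym i 6 1, hsym i 6 2, hsym i 6 3] at h
    linear_combination h
  have s7 : ∀ i, T i 0 7 + T i 1 7 + T i 2 7 + T i 3 7 = 0 := fun i => by
    have h := hs i 7
    rw [hsym i 7 0, hsym i 7 1, hsym i 7 2, hsym i 7 3] at h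
    linear_combination h
  have p0 : T 0 1 2 = (-1) * T 0 1 3 := by
    linear_combination 1 * s1 0 + (-1) * zA 0 1
  have p1 : T 0 1 3 = (-1) * T 0 2 3 := by
    linear_combination 1 * s3 0 + (-1) * zA 0 3
  have p2 : T 0 2 3 = 0 := by
    linear_combination (1 / 2) * s2 0 + (-(1 / 2)) * zA 0 2 + (-(1 / 2)) * p0 + ((1 / 2)) * p1
  have p3 : T 1 2 3 = 0 := by
    linear_combination 1 * hr 2 3 + (-1) * zA 2 3 + (-1) * zB 3 2 + (-1) * p2
  have p4 : T 1 0 2 = 0 := by
    linear_combination 1 * s2 1 + (-1) * zA 1 2 + (-1) * p3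
  have p5 : T 1 0 3 = 0 := by
    linear_combination 1 * s0 1 + (-1) * zB 1 0 + (-1) * p4
  have p6 : T 3 0 2 = 0 := by
    linear_combination 1 * hr 0 2 + (-1) * zA 0 2 + (-1) * zB 2 0 + (-1) * p4
  have p7 : T 3 0 1 = 0 := by
    linear_combination 1 * s0 3 + (-1) * zB 3 0 + (-1) * p6
  have p8 : T 3 1 2 = 0 := by
    linear_combination 1 * s1 3 + (-1) * zB 3 1 + (-1) * p7
  have p9 : T 2 0 1 = 0 := by
    linear_combination 1 * hr 0 1 + (-1) * zA 0 1 + (-1) * zB 1 0 + (-1) * p7
  have p10 : T 2 0 3 = 0 := by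
    linear_combination 1 * s0 2 + (-1) * zB 2 0 + (-1) * p9
  have p11 : T 2 1 3 = 0 := by
    linear_combination 1 * s1 2 + (-1) * zB 2 1 + (-1) * p9
  have p12 : T 0 1 4 = (-1) * T 1 0 4 + (-1) * T 4 0 1 := by
    linear_combination 1 * hc 0 1 4
  have p13 : T 0 1 5 = (-1) * T 1 0 5 + (-1) * T 5 0 1 := by
    linear_combination 1 * hc 0 1 5
  have p14 : T 0 1 6 = (-1) * T 1 0 6 + (-1) * T 6 0 1 := by
    linear_combination 1 * hc 0 1 6
  have p15 : T 0 1 7 = (-1) * T 1 0 7 + (-1) * T 7 0 1 := by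
    linear_combination 1 * hc 0 1 7
  have p16 : T 0 2 4 = (-1) * T 2 0 4 + (-1) * T 4 0 2 := by
    linear_combination 1 * hc 0 2 4
  have p17 : T 0 2 5 = (-1) * T 2 0 5 + (-1) * T 5 0 2 := by
    linear_combination 1 * hc 0 2 5
  have p18 : T 0 2 6 = (-1) * T 2 0 6 + (-1) * T 6 0 2 := by
    linear_combination 1 * hc 0 2 6
  have p19 : T 0 2 7 = (-1) * T 2 0 7 + (-1) * T 7 0 2 := by
    linear_combination 1 * hc 0 2 7
  have p20 : T 0 3 4 = (-1) * T 3 0 4 + (-1) * T 4 0 3 := by
    linear_combination 1 * hc 0 3 4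
  have p21 : T 0 3 5 = (-1) * T 3 0 5 + (-1) * T 5 0 3 := by
    linear_combination 1 * hc 0 3 5
  have p22 : T 0 3 6 = (-1) * T 3 0 6 + (-1) * T 6 0 3 := by
    linear_combination 1 * hc 0 3 6
  have p23 : T 0 3 7 = (-1) * T 3 0 7 + (-1) * T 7 0 3 := by
    linear_combination 1 * hc 0 3 7
  have p24 : T 0 4 5 = (-1) * T 4 0 5 + (-1) * T 5 0 4 := by
    linear_combination 1 * hc 0 4 5
  have p25 : T 0 4 6 = (-1) * T 4 0 6 + (-1) * T 6 0 4 := by
    linear_combination 1 * hc 0 4 6
  have p26 : T 0 4 7 = (-1) * T 4 0 7 + (-1) * T 7 0 4 := by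
    linear_combination 1 * hc 0 4 7
  have p27 : T 0 5 6 = (-1) * T 5 0 6 + (-1) * T 6 0 5 := by
    linear_combination 1 * hc 0 5 6
  have p28 : T 0 5 7 = (-1) * T 5 0 7 + (-1) * T 7 0 5 := by
    linear_combination 1 * hc 0 5 7
  have p29 : T 0 6 7 = (-1) * T 6 0 7 + (-1) * T 7 0 6 := by
    linear_combination 1 * hc 0 6 7
  have p30 : T 1 2 4 = (-1) * T 2 1 4 + (-1) * T 4 1 2 := by
    linear_combination 1 * hc 1 2 4
  have p31 : T 1 2 5 = (-1) * T 2 1 5 + (-1) * T 5 1 2 := by
    linear_combination 1 * hc 1 2 5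
  have p32 : T 1 2 6 = (-1) * T 2 1 6 + (-1) * T 6 1 2 := by
    linear_combination 1 * hc 1 2 6
  have p33 : T 1 2 7 = (-1) * T 2 1 7 + (-1) * T 7 1 2 := by
    linear_combination 1 * hc 1 2 7
  have p34 : T 1 3 4 = (-1) * T 3 1 4 + (-1) * T 4 1 3 := by
    linear_combination 1 * hc 1 3 4
  have p35 : T 1 3 5 = (-1) * T 3 1 5 + (-1) * T 5 1 3 := by
    linear_combination 1 * hc 1 3 5
  have p36 : T 1 3 6 = (-1) * T 3 1 6 + (-1) * T 6 1 3 := by
    linear_combination 1 * hc 1 3 6
  have p37 : T 1 3 7 = (-1) * T 3 1 7 + (-1) * T 7 1 3 := by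
    linear_combination 1 * hc 1 3 7
  have p38 : T 1 4 5 = (-1) * T 4 1 5 + (-1) * T 5 1 4 := by
    linear_combination 1 * hc 1 4 5
  have p39 : T 1 4 6 = (-1) * T 4 1 6 + (-1) * T 6 1 4 := by
    linear_combination 1 * hc 1 4 6
  have p40 : T 1 4 7 = (-1) * T 4 1 7 + (-1) * T 7 1 4 := by
    linear_combination 1 * hc 1 4 7
  have p41 : T 1 5 6 = (-1) * T 5 1 6 + (-1) * T 6 1 5 := by
    linear_combination 1 * hc 1 5 6
  have p42 : T 1 5 7 = (-1) * T 5 1 7 + (-1) * T 7 1 5 := by
    linear_combination 1 * hc 1 5 7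
  have p43 : T 1 6 7 = (-1) * T 6 1 7 + (-1) * T 7 1 6 := by
    linear_combination 1 * hc 1 6 7
  have p44 : T 2 3 4 = (-1) * T 3 2 4 + (-1) * T 4 2 3 := by
    linear_combination 1 * hc 2 3 4
  have p45 : T 2 3 5 = (-1) * T 3 2 5 + (-1) * T 5 2 3 := by
    linear_combination 1 * hc 2 3 5
  have p46 : T 2 3 6 = (-1) * T 3 2 6 + (-1) * T 6 2 3 := by
    linear_combination 1 * hc 2 3 6
  have p47 : T 2 3 7 = (-1) * T 3 2 7 + (-1) * T 7 2 3 := by
    linear_combination 1 * hc 2 3 7
  have p48 : T 2 4 5 = (-1) * T 4 2 5 + (-1) * T 5 2 4 := by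
    linear_combination 1 * hc 2 4 5
  have p49 : T 2 4 6 = (-1) * T 4 2 6 + (-1) * T 6 2 4 := by
    linear_combination 1 * hc 2 4 6
  have p50 : T 2 4 7 = (-1) * T 4 2 7 + (-1) * T 7 2 4 := by
    linear_combination 1 * hc 2 4 7
  have p51 : T 2 5 6 = (-1) * T 5 2 6 + (-1) * T 6 2 5 := by
    linear_combination 1 * hc 2 5 6
  have p52 : T 2 5 7 = (-1) * T 5 2 7 + (-1) * T 7 2 5 := by
    linear_combination 1 * hc 2 5 7
  have p53 : T 2 6 7 = (-1) * T 6 2 7 + (-1) * T 7 2 6 := by
    linear_combination 1 * hc 2 6 7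
  have p54 : T 3 4 5 = (-1) * T 4 3 5 + (-1) * T 5 3 4 := by
    linear_combination 1 * hc 3 4 5
  have p55 : T 3 4 6 = (-1) * T 4 3 6 + (-1) * T 6 3 4 := by
    linear_combination 1 * hc 3 4 6
  have p56 : T 3 4 7 = (-1) * T 4 3 7 + (-1) * T 7 3 4 := by
    linear_combination 1 * hc 3 4 7
  have p57 : T 3 5 6 = (-1) * T 5 3 6 + (-1) * T 6 3 5 := by
    linear_combination 1 * hc 3 5 6
  have p58 : T 3 5 7 = (-1) * T 5 3 7 + (-1) * T 7 3 5 := by
    linear_combination 1 * hc 3 5 7
  have p59 : T 3 6 7 = (-1) * T 6 3 7 + (-1) * T 7 3 6 := by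
    linear_combination 1 * hc 3 6 7
  have p60 : T 4 5 6 = (-1) * T 5 4 6 + (-1) * T 6 4 5 := by
    linear_combination 1 * hc 4 5 6
  have p61 : T 4 5 7 = (-1) * T 5 4 7 + (-1) * T 7 4 5 := by
    linear_combination 1 * hc 4 5 7
  have p62 : T 4 6 7 = (-1) * T 6 4 7 + (-1) * T 7 4 6 := by
    linear_combination 1 * hc 4 6 7
  have p63 : T 5 6 7 = (-1) * T 6 5 7 + (-1) * T 7 5 6 := by
    linear_combination 1 * hc 5 6 7
  have p64 : T 3 0 4 = (-1) * T 3 1 4 + (-1) * T 3 2 4 := by
    linear_combination 1 * s4 3 + (-1) * zA 3 4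
  have p65 : T 3 0 5 = (-1) * T 3 1 5 + (-1) * T 3 2 5 := by
    linear_combination 1 * s5 3 + (-1) * zA 3 5
  have p66 : T 3 0 6 = (-1) * T 3 1 6 + (-1) * T 3 2 6 := by
    linear_combination 1 * s6 3 + (-1) * zA 3 6
  have p67 : T 3 0 7 = (-1) * T 3 1 7 + (-1) * T 3 2 7 := by
    linear_combination 1 * s7 3 + (-1) * zA 3 7
  have p68 : T 4 0 1 = (-1) * T 4 0 2 + (-1) * T 4 0 3 := by
    linear_combination 1 * s0 4
  have p69 : T 4 0 2 = (-1) * T 4 1 2 + (-1) * T 4 2 3 := by
    linear_combination 1 * s2 4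
  have p70 : T 4 0 3 = (-1) * T 4 1 3 + (-1) * T 4 2 3 := by
    linear_combination 1 * s3 4
  have p71 : T 5 0 1 = (-1) * T 5 0 2 + (-1) * T 5 0 3 := by
    linear_combination 1 * s0 5
  have p72 : T 5 0 2 = (-1) * T 5 1 2 + (-1) * T 5 2 3 := by
    linear_combination 1 * s2 5
  have p73 : T 5 0 3 = (-1) * T 5 1 3 + (-1) * T 5 2 3 := by
    linear_combination 1 * s3 5
  have p74 : T 6 0 1 = (-1) * T 6 0 2 + (-1) * T 6 0 3 := by
    linear_combination 1 * s0 6
  have p75 : T 6 0 2 = (-1) * T 6 1 2 + (-1) * T 6 2 3 := by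
    linear_combination 1 * s2 6
  have p76 : T 6 0 3 = (-1) * T 6 1 3 + (-1) * T 6 2 3 := by
    linear_combination 1 * s3 6
  have p77 : T 7 0 1 = (-1) * T 7 0 2 + (-1) * T 7 0 3 := by
    linear_combination 1 * s0 7
  have p78 : T 7 0 2 = (-1) * T 7 1 2 + (-1) * T 7 2 3 := by
    linear_combination 1 * s2 7
  have p79 : T 7 0 3 = (-1) * T 7 1 3 + (-1) * T 7 2 3 := by
    linear_combination 1 * s3 7
  have p80 : T 4 1 2 = (-1) * T 4 1 3 + (-1) * T 4 2 3 := by
    linear_combination (1 / 2) * s1 4 + (-(1 / 2)) * p68 + ((1 / 2)) * p69 + ((1 / 2)) * p70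
  have p81 : T 5 1 2 = (-1) * T 5 1 3 + (-1) * T 5 2 3 := by
    linear_combination (1 / 2) * s1 5 + (-(1 / 2)) * p71 + ((1 / 2)) * p72 + ((1 / 2)) * p73
  have p82 : T 6 1 2 = (-1) * T 6 1 3 + (-1) * T 6 2 3 := by
    linear_combination (1 / 2) * s1 6 + (-(1 / 2)) * p74 + ((1 / 2)) * p75 + ((1 / 2)) * p76
  have p83 : T 7 1 2 = (-1) * T 7 1 3 + (-1) * T 7 2 3 := by
    linear_combination (1 / 2) * s1 7 + (-(1 / 2)) * p77 + ((1 / 2)) * p78 + ((1 / 2)) * p79
  have p84 : T 4 0 5 = (-1) * T 4 1 5 + (-1) * T 4 2 5 + (-1) * T 4 3 5 := by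
    linear_combination 1 * s5 4
  have p85 : T 4 0 6 = (-1) * T 4 1 6 + (-1) * T 4 2 6 + (-1) * T 4 3 6 := by
    linear_combination 1 * s6 4
  have p86 : T 4 0 7 = (-1) * T 4 1 7 + (-1) * T 4 2 7 + (-1) * T 4 3 7 := by
    linear_combination 1 * s7 4
  have p87 : T 5 0 4 = (-1) * T 5 1 4 + (-1) * T 5 2 4 + (-1) * T 5 3 4 := by
    linear_combination 1 * s4 5
  have p88 : T 5 0 6 = (-1) * T 5 1 6 + (-1) * T 5 2 6 + (-1) * T 5 3 6 := by
    linear_combination 1 * s6 5
  have p89 : T 5 0 7 = (-1) * T 5 1 7 + (-1) * T 5 2 7 + (-1) * T 5 3 7 := by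
    linear_combination 1 * s7 5
  have p90 : T 6 0 4 = (-1) * T 6 1 4 + (-1) * T 6 2 4 + (-1) * T 6 3 4 := by
    linear_combination 1 * s4 6
  have p91 : T 6 0 5 = (-1) * T 6 1 5 + (-1) * T 6 2 5 + (-1) * T 6 3 5 := by
    linear_combination 1 * s5 6
  have p92 : T 6 0 7 = (-1) * T 6 1 7 + (-1) * T 6 2 7 + (-1) * T 6 3 7 := by
    linear_combination 1 * s7 6
  have p93 : T 7 0 4 = (-1) * T 7 1 4 + (-1) * T 7 2 4 + (-1) * T 7 3 4 := by
    linear_combination 1 * s4 7
  have p94 : T 7 0 5 = (-1) * T 7 1 5 + (-1) * T 7 2 5 + (-1) * T 7 3 5 := by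
    linear_combination 1 * s5 7
  have p95 : T 7 0 6 = (-1) * T 7 1 6 + (-1) * T 7 2 6 + (-1) * T 7 3 6 := by
    linear_combination 1 * s6 7
  have p96 : T 2 0 4 = (-1) * T 2 1 4 + (1) * T 3 2 4 + (1) * T 4 2 3 := by
    linear_combination 1 * s4 2 + (-1) * zA 2 4 + (-1) * p44
  have p97 : T 2 0 5 = (-1) * T 2 1 5 + (1) * T 3 2 5 + (1) * T 5 2 3 := by
    linear_combination 1 * s5 2 + (-1) * zA 2 5 + (-1) * p45
  have p98 : T 2 0 6 = (-1) * T 2 1 6 + (1) * T 3 2 6 + (1) * T 6 2 3 := by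
    linear_combination 1 * s6 2 + (-1) * zA 2 6 + (-1) * p46
  have p99 : T 2 0 7 = (-1) * T 2 1 7 + (1) * T 3 2 7 + (1) * T 7 2 3 := by
    linear_combination 1 * s7 2 + (-1) * zA 2 7 + (-1) * p47
  have p100 : T 1 0 4 = (-(1 / 5)) * T 1 0 5 + ((9 / 5)) * T 1 0 6 + ((9 / 49)) * T 1 0 7 := by
    linear_combination (1 / 980) * a0 1 + (-(3 / 14) + (2 / 7) * z) * zB 1 0 + ((6 / 7) - (3 /
      14) * z) * p4 + (-(6 / 35) + (3 / 28) * z) * p5
  have p101 : T 1 0 6 = (-(11 / 637)) * T 1 0 7 := by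
    linear_combination (1 / 366912) * b0 1 + (-(55 / 1008) + (55 / 672) * z) * zB 1 0 + ((55 /
      672) - (11 / 336) * z) * p4 + (-(55 / 1344) + (55 / 2352) * z) * p5 + (-(55 / 144)) * p100
  have p102 : T 2 1 4 = (-5) * T 2 1 5 + ((45 / 49)) * T 2 1 6 + (9) * T 2 1 7 := by
    linear_combination (-1 / 196) * a1 2 + (-(6 / 7) + (15 / 28) * z) * zB 2 1 + (-(15 / 14) +
      (10 / 7) * z) * p9 + ((30 / 7) - (15 / 14) * z) * p11
  have p103 : T 2 1 6 = (-(637 / 11)) * T 2 1 7 := by
    linear_combination (-1 / 6336) * b1 2 + (-(455 / 192) + (65 / 48) * z) * zB 2 1 + (-(455 /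
      144) + (455 / 96) * z) * p9 + ((455 / 96) - (91 / 48) * z) * p11 + (-(637 / 144)) * p102
  have p104 : T 3 1 4 = (-5) * T 3 1 5 + ((45 / 49)) * T 3 1 6 + (9) * T 3 1 7 := by
    linear_combination (-1 / 196) * a1 3 + ((30 / 7) - (15 / 14) * z) * zB 3 1 + (-(15 / 14) +
      (10 / 7) * z) * p7 + (-(6 / 7) + (15 / 28) * z) * p8
  have p105 : T 3 1 6 = (-(637 / 11)) * T 3 1 7 := by
    linear_combination (-1 / 6336) * b1 3 + ((455 / 96) - (91 / 48) * z) * zB 3 1 + (-(455 /
      144) + (455 / 96) * z) * p7 + (-(455 / 192) + (65 / 48) * z) * p8 + (-(637 / 144)) * p104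
  have p106 : T 3 2 4 = (-(5 / 49)) * T 3 2 5 + ((5 / 9)) * T 3 2 6 + ((1 / 9)) * T 3 2 7 := by
    linear_combination (1 / 1764) * a2 3 + (-(5 / 42) + (5 / 63) * z) * zB 3 2 + (-(5 / 7) + (5
      / 14) * z) * p6 + (-(1 / 7) + (5 / 28) * z) * p8
  have p107 : T 3 2 5 = ((3185 / 486)) * T 3 2 6 + ((637 / 486)) * T 3 2 7 := by
    linear_combination (1 / 31104) * b2 3 + (-(5005 / 3888) + (5005 / 5184) * z) * zB 3 2 +
      (-(5005 / 1728) + (1001 / 432) * z) * p6 + (-(5005 / 3456) + (715 / 432) * z) * p8 +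
      ((3185 / 864)) * p106
  have p108 : T 1 0 5 = (1) * T 3 1 5 + (1) * T 2 1 5 + (-1) * T 5 2 3 := by
    linear_combination 1 * hr 0 5 + (-1) * zA 0 5 + (-1) * p65 + (-1) * p97
  have p109 : T 1 0 7 = (1) * T 3 1 7 + (1) * T 2 1 7 + (-1) * T 7 2 3 := by
    linear_combination 1 * hr 0 7 + (-1) * zA 0 7 + (-1) * p67 + (-1) * p99
  have p110 : T 6 2 3 = (-(405648 / 7007)) * T 2 1 7 + (-(405648 / 7007)) * T 3 1 7 + (-(11 /
      637)) * T 7 2 3 := by
    linear_combination 1 * hr 0 6 + (-1) * zA 0 6 + (-1) * p66 + (-1) * p98 + (-1) * p101 + (1)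
      * p103 + (1) * p105 + ((11 / 637)) * p109
  have p111 : T 3 1 5 = (-(61 / 486)) * T 3 2 6 + ((6723 / 539)) * T 3 1 7 + ((277 / 23814)) * T
      3 2 7 := by
    linear_combination (1 / 4704) * a0 3 + (-(1 / 28) + (5 / 224) * z) * zB 3 0 + ((5 / 28) - (5
      / 112) * z) * p6 + (-(5 / 112) + (5 / 84) * z) * p7 + (-(5 / 24)) * p64 + (-(1 / 24)) *
      p65 + ((3 / 8)) * p66 + ((15 / 392)) * p67 + ((5 / 24)) * p104 + (-(9 / 49)) * p105 + ((5
      / 24)) * p106 + ((1 / 49)) * p107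
  have p112 : T 3 2 6 = ((405648 / 7007)) * T 3 1 7 + (-(11 / 637)) * T 3 2 7 := by
    linear_combination (-1 / 366912) * b0 3 + ((55 / 1344) - (55 / 2352) * z) * zB 3 0 + (-(55 /
      672) + (11 / 336) * z) * p6 + ((55 / 1008) - (55 / 672) * z) * p7 + ((55 / 144)) * p64 +
      ((11 / 144)) * p65 + ((5 / 16)) * p66 + (-(11 / 208)) * p67 + (-(55 / 144)) * p104 + (-(65
      / 98)) * p105 + (-(55 / 144)) * p106 + (-(11 / 294)) * p107 + ((11 / 6)) * p111
  have p113 : T 4 3 5 = (-(4 / 7) + (5 / 28) * z) * T 4 1 3 + ((1 / 42) - (25 / 252) * z) * T 4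
      2 3 + ((1 / 9)) * T 4 3 6 + ((5 / 9)) * T 4 3 7 := by
    linear_combination (-1 / 1764) * a3 4 + (-(5 / 49)) * zB 4 3 + (-(1 / 7) + (5 / 28) * z) *
      p70
  have p114 : T 4 3 6 = ((1215 / 448) - (3159 / 3136) * z) * T 4 1 3 + (-(85 / 448) + (2525 /
      3136) * z) * T 4 2 3 + (-5) * T 4 3 7 := by
    linear_combination (1 / 40768) * b3 4 + ((99 / 208)) * zB 4 3 + ((495 / 448) - (495 / 392) *
      z) * p70 + (-(45 / 16)) * p113
  have p115 : T 5 3 4 = (-(28 / 5) + (7 / 4) * z) * T 5 1 3 + ((7 / 30) - (35 / 36) * z) * T 5 2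
      3 + ((49 / 45)) * T 5 3 6 + ((49 / 9)) * T 5 3 7 := by
    linear_combination (-1 / 180) * a3 5 + (-(49 / 5)) * zB 5 3 + (-(7 / 5) + (7 / 4) * z) * p73
  have p116 : T 5 3 6 = (-(4131 / 448) + (6075 / 3136) * z) * T 5 1 3 + (-(31 / 448) + (1175 /
      3136) * z) * T 5 2 3 + (-5) * T 5 3 7 := by
    linear_combination (5 / 34496) * b3 5 + (-(2925 / 176)) * zB 5 3 + ((2925 / 448) - (2925 /
      392) * z) * p73 + ((45 / 16)) * p115
  have p117 : T 6 4 5 = (-(48 / 35) + (24 / 7) * z) * T 6 1 4 + (-(12 / 35) + (180 / 77) * z) *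
      T 6 2 4 + (-(60 / 49) + (36 / 13) * z) * T 6 3 4 + ((27 / 50)) * T 6 4 7 := by
    linear_combination (1 / 8058050) * a4 6 + (-(27 / 23)) * zB 6 4 + ((6 / 7) - (18 / 7) * z) *
      p90
  have p118 : T 6 4 7 = (-(440 / 63) + (440 / 63) * z) * T 6 1 4 + ((440 / 63) + (1000 / 63) *
      z) * T 6 2 4 + (-(22000 / 3087) + (880 / 117) * z) * T 6 3 4 := by
    linear_combination (-5 / 18522) * b4 6 + (-(55 / 7)) * zB 6 4 + ((1100 / 147) - (2200 / 441)
      * z) * p90 + ((275 / 189)) * p117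
  have p119 : T 7 3 4 = (-(28 / 5) + (7 / 4) * z) * T 7 1 3 + ((7 / 30) - (35 / 36) * z) * T 7 2
      3 + (-(49 / 5)) * T 7 3 5 + ((49 / 45)) * T 7 3 6 := by
    linear_combination (-1 / 180) * a3 7 + ((49 / 9)) * zB 7 3 + (-(7 / 5) + (7 / 4) * z) * p79
  have p120 : T 7 3 5 = (-(187 / 896) + (275 / 6272) * z) * T 7 1 3 + (-(341 / 217728) + (12925
      / 1524096) * z) * T 7 2 3 + (-(11 / 486)) * T 7 3 6 := by
    linear_combination (5 / 1524096) * b3 7 + (-(3575 / 7776)) * zB 7 3 + ((3575 / 24192) -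
      (3575 / 21168) * z) * p79 + ((55 / 864)) * p119
  have p121 : T 7 4 6 = (-(184 / 245) + (368 / 1001) * z) * T 7 1 6 + ((92 / 315) - (460 / 231)
      * z) * T 7 2 6 + (-(92 / 105) + (92 / 99) * z) * T 7 3 6 + ((23 / 50)) * T 7 5 6 := by
    linear_combination (-1 / 9459450) * a6 7 + (-(23 / 27)) * zB 7 6 + ((92 / 35) - (184 / 77) *
      z) * p95
  have p122 : T 7 5 6 = (-(440 / 343) - (200 / 91) * z) * T 7 1 6 + (-(440 / 243) + (1000 /
      1701) * z) * T 7 2 6 + (-(1760 / 1701) - (800 / 243) * z) * T 7 3 6 := by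
    linear_combination (25 / 500094) * b6 7 + ((1375 / 5103)) * zB 7 6 + ((2750 / 1323) + (2750
      / 1323) * z) * p95 + (-(275 / 189)) * p121
  have p123 : T 4 2 5 = ((7 / 30) - (35 / 36) * z) * T 4 2 3 + ((49 / 9)) * T 4 2 6 + ((49 /
      45)) * T 4 2 7 + (-(28 / 5) + (7 / 4) * z) * T 4 1 3 := by
    linear_combination (1 / 180) * a2 4 + (-(49 / 5)) * zB 4 2 + (-7 + (7 / 2) * z) * p69 + ((28
      / 5) - (7 / 4) * z) * p80
  have p124 : T 4 2 6 = (-(31 / 2240) + (235 / 3136) * z) * T 4 2 3 + (-(1 / 5)) * T 4 2 7 +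
      (-(4131 / 2240) + (1215 / 3136) * z) * T 4 1 3 := by
    linear_combination (-1 / 34496) * b2 4 + (-(585 / 176)) * zB 4 2 + ((585 / 224) - (117 / 56)
      * z) * p69 + (-(585 / 448) + (117 / 196) * z) * p80 + ((9 / 16)) * p123
  have p125 : T 5 2 4 = ((1 / 42) - (25 / 252) * z) * T 5 2 3 + ((5 / 9)) * T 5 2 6 + ((1 / 9))
      * T 5 2 7 + (-(4 / 7) + (5 / 28) * z) * T 5 1 3 := by
    linear_combination (1 / 1764) * a2 5 + (-(5 / 49)) * zB 5 2 + (-(5 / 7) + (5 / 14) * z) *
      p72 + ((4 / 7) - (5 / 28) * z) * p81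
  have p126 : T 5 2 6 = (-(17 / 448) + (505 / 3136) * z) * T 5 2 3 + (-(1 / 5)) * T 5 2 7 +
      ((243 / 448) - (3159 / 15680) * z) * T 5 1 3 := by
    linear_combination (-1 / 203840) * b2 5 + ((99 / 1040)) * zB 5 2 + ((99 / 224) - (99 / 280)
      * z) * p72 + (-(99 / 448) + (99 / 980) * z) * p81 + (-(9 / 16)) * p125
  have p127 : T 7 2 4 = ((1 / 42) - (25 / 252) * z) * T 7 2 3 + (-(5 / 49)) * T 7 2 5 + ((5 /
      9)) * T 7 2 6 + (-(4 / 7) + (5 / 28) * z) * T 7 1 3 := by
    linear_combination (1 / 1764) * a2 7 + ((1 / 9)) * zB 7 2 + (-(5 / 7) + (5 / 14) * z) * p78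
      + ((4 / 7) - (5 / 28) * z) * p83
  have p128 : T 7 2 5 = ((7735 / 31104) - (32825 / 31104) * z) * T 7 2 3 + ((3185 / 486)) * T 7
      2 6 + (-(455 / 128) + (169 / 128) * z) * T 7 1 3 := by
    linear_combination (1 / 31104) * b2 7 + ((7007 / 7776)) * zB 7 2 + (-(5005 / 1728) + (1001 /
      432) * z) * p78 + ((5005 / 3456) - (143 / 216) * z) * p83 + ((3185 / 864)) * p127
  have p129 : T 4 1 5 = ((36 / 35) - (9 / 28) * z) * T 4 1 3 + ((9 / 49)) * T 4 1 6 + ((9 / 5))
      * T 4 1 7 + (-(3 / 70) + (5 / 28) * z) * T 4 2 3 := by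
    linear_combination (-1 / 980) * a1 4 + (-(1 / 5)) * zB 4 1 + (-(3 / 14) + (2 / 7) * z) * p68
      + ((3 / 14) - (2 / 7) * z) * p69 + ((3 / 14) - (2 / 7) * z) * p70 + (-(27 / 70) + (11 /
      28) * z) * p80
  have p130 : T 4 1 6 = (-(1001 / 64) + (247 / 64) * z) * T 4 1 3 + (-(637 / 11)) * T 4 1 7 +
      ((91 / 576) - (325 / 576) * z) * T 4 2 3 := by
    linear_combination (-1 / 6336) * b1 4 + (-(637 / 144)) * zB 4 1 + (-(455 / 144) + (455 / 96)
      * z) * p68 + ((455 / 144) - (455 / 96) * z) * p69 + ((455 / 144) - (455 / 96) * z) * p70 +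
      (-(3185 / 576) + (195 / 32) * z) * p80 + (-(3185 / 144)) * p129
  have p131 : T 5 1 4 = ((36 / 7) - (45 / 28) * z) * T 5 1 3 + ((45 / 49)) * T 5 1 6 + (9) * T 5
      1 7 + (-(3 / 14) + (25 / 28) * z) * T 5 2 3 := by
    linear_combination (-1 / 196) * a1 5 + (-5) * zB 5 1 + (-(15 / 14) + (10 / 7) * z) * p71 +
      ((15 / 14) - (10 / 7) * z) * p72 + ((15 / 14) - (10 / 7) * z) * p73 + (-(27 / 14) + (55 /
      28) * z) * p81
  have p132 : T 5 1 6 = (-(1001 / 64) + (247 / 64) * z) * T 5 1 3 + (-(637 / 11)) * T 5 1 7 +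
      ((91 / 576) - (325 / 576) * z) * T 5 2 3 := by
    linear_combination (-1 / 6336) * b1 5 + (-(3185 / 144)) * zB 5 1 + (-(455 / 144) + (455 /
      96) * z) * p71 + ((455 / 144) - (455 / 96) * z) * p72 + ((455 / 144) - (455 / 96) * z) *
      p73 + (-(3185 / 576) + (195 / 32) * z) * p81 + (-(637 / 144)) * p131
  have p133 : T 7 1 4 = ((36 / 7) - (45 / 28) * z) * T 7 1 3 + (-5) * T 7 1 5 + ((45 / 49)) * T
      7 1 6 + (-(3 / 14) + (25 / 28) * z) * T 7 2 3 := by
    linear_combination (-1 / 196) * a1 7 + (9) * zB 7 1 + (-(15 / 14) + (10 / 7) * z) * p77 +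
      ((15 / 14) - (10 / 7) * z) * p78 + ((15 / 14) - (10 / 7) * z) * p79 + (-(27 / 14) + (55 /
      28) * z) * p83
  have p134 : T 7 1 6 = (-(1001 / 64) + (247 / 64) * z) * T 7 1 3 + ((91 / 576) - (325 / 576) *
      z) * T 7 2 3 := by
    linear_combination (-1 / 6336) * b1 7 + (-(3185 / 176)) * zB 7 1 + (-(455 / 144) + (455 /
      96) * z) * p77 + ((455 / 144) - (455 / 96) * z) * p78 + ((455 / 144) - (455 / 96) * z) *
      p79 + (-(3185 / 576) + (195 / 32) * z) * p83 + (-(637 / 144)) * p133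
  have p135 : T 5 4 6 = ((23 / 50)) * T 5 4 7 + ((10649 / 392) - (484817 / 6860) * z + (40871 /
      2744) * z ^ 2) * T 5 1 3 + (-(299 / 3528) + (1357 / 4116) * z - (6325 / 24696) * z ^ 2) *
      T 5 2 3 + ((19872 / 385) - (9936 / 77) * z) * T 5 1 7 := by
    linear_combination (1 / 9459450) * a4 5 + (-(23 / 27)) * zB 5 4 + ((46 / 63) - (46 / 21) *
      z) * p87 + (-(460 / 441) + (92 / 39) * z) * p115 + (-(92 / 81) + (4508 / 1755) * z) * p116
      + (-(92 / 315) + (460 / 231) * z) * p125 + (-(92 / 567) + (2300 / 2079) * z) * p126 +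
      (-(368 / 315) + (184 / 63) * z) * p131 + (-(368 / 343) + (920 / 343) * z) * p132
  have p136 : T 5 4 7 = (-(4675 / 294) + (85580 / 1029) * z - (37675 / 2058) * z ^ 2) * T 5 1 3
      + ((275 / 7938) - (5500 / 27783) * z + (6875 / 55566) * z ^ 2) * T 5 2 3 + (-(240 / 7) +
      (1200 / 7) * z) * T 5 1 7 := by
    linear_combination (-25 / 500094) * b4 5 + ((1375 / 5103)) * zB 5 4 + ((5500 / 3969) -
      (11000 / 11907) * z) * p87 + (-(27500 / 27783) + (1100 / 1701) * z) * p115 + (-(5500 /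
      5103) + (1540 / 2187) * z) * p116 + ((5500 / 3969) + (27500 / 11907) * z) * p125 + ((27500
      / 35721) + (137500 / 107163) * z) * p126 + (-(11000 / 11907) + (4400 / 11907) * z) * p131
      + (-(55000 / 64827) + (22000 / 64827) * z) * p132 + (-(275 / 189)) * p135
  have p137 : T 4 1 7 = (-(77 / 114858) + (275 / 57429) * z) * T 4 2 3 + (-(1001 / 4254) + (110
      / 2127) * z) * T 4 1 3 + (-(11 / 6381)) * T 4 2 7 + (-(550 / 6381)) * T 4 3 7 := by
    linear_combination (-55 / 5513184) * a0 4 + ((13475 / 1378296)) * zB 4 0 + ((1925 / 918864)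
      - (1925 / 689148) * z) * p68 + (-(9625 / 918864) + (13475 / 2756592) * z) * p69 + (-(385 /
      918864) + (9625 / 5513184) * z) * p70 + ((9625 / 918864) - (13475 / 2756592) * z) * p80 +
      ((2695 / 1378296)) * p84 + (-(2695 / 153144)) * p85 + (-(275 / 153144)) * p86 + (-(2695 /
      1378296)) * p113 + ((26950 / 1550583)) * p114 + (-(2695 / 1378296)) * p123 + ((10780 /
      1550583)) * p124 + (-(2695 / 1378296)) * p129 + ((110 / 6381)) * p130
  have p138 : T 4 2 7 = (-(373 / 7644) + (9325 / 26754) * z) * T 4 2 3 + (-(3357 / 196) + (16785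
      / 4459) * z) * T 4 1 3 + ((55 / 637)) * T 4 3 7 := by
    linear_combination (3545 / 107872128) * b0 4 + (-(194975 / 42336)) * zB 4 0 + (-(194975 /
      296352) + (194975 / 197568) * z) * p68 + ((974875 / 592704) - (38995 / 28224) * z) * p69 +
      ((194975 / 1185408) - (974875 / 1382976) * z) * p70 + (-(974875 / 592704) + (38995 /
      28224) * z) * p80 + (-(38995 / 42336)) * p84 + (-(17725 / 4704)) * p85 + ((38995 / 61152))
      * p86 + ((38995 / 42336)) * p113 + ((46085 / 11907)) * p114 + ((38995 / 42336)) * p123 +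
      ((209155 / 23814)) * p124 + ((38995 / 42336)) * p129 + ((28360 / 7203)) * p130 +
      (-(6361857 / 28028)) * p137
  have p139 : T 5 1 7 = ((77 / 107568) - (55 / 107568) * z) * T 5 2 3 + (-(1309 / 3984) + (1507
      / 19920) * z) * T 5 1 3 + (-(11 / 3735)) * T 5 2 7 + (-(110 / 747)) * T 5 3 7 := by
    linear_combination (-11 / 645408) * a0 5 + ((539 / 161352)) * zB 5 0 + ((385 / 107568) -
      (385 / 80676) * z) * p71 + (-(1925 / 107568) + (2695 / 322704) * z) * p72 + (-(77 /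
      107568) + (1925 / 645408) * z) * p73 + ((1925 / 107568) - (2695 / 322704) * z) * p81 +
      ((2695 / 161352)) * p87 + (-(539 / 17928)) * p88 + (-(55 / 17928)) * p89 + (-(2695 /
      161352)) * p115 + ((2156 / 181521)) * p116 + (-(2695 / 161352)) * p125 + ((3773 / 181521))
      * p126 + (-(2695 / 161352)) * p131 + ((11 / 747)) * p132
  have p140 : T 5 2 7 = ((3665 / 3696) - (18325 / 25872) * z) * T 5 2 3 + (-(560745 / 1232) +
      (903789 / 8624) * z) * T 5 1 3 + ((3185 / 11)) * T 5 3 7 := by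
    linear_combination (415 / 1862784) * b0 5 + (-(5395 / 864)) * zB 5 0 + (-(26975 / 6048) +
      (26975 / 4032) * z) * p71 + ((134875 / 12096) - (5395 / 576) * z) * p72 + ((26975 / 24192)
      - (134875 / 28224) * z) * p73 + (-(134875 / 12096) + (5395 / 576) * z) * p81 + (-(26975 /
      864)) * p87 + (-(26975 / 1056)) * p88 + ((415 / 96)) * p89 + ((26975 / 864)) * p115 +
      ((318305 / 5346)) * p116 + ((26975 / 864)) * p125 + ((458575 / 10692)) * p126 + ((26975 /
      864)) * p131 + ((350675 / 6468)) * p132 + (-(1385685 / 484)) * p139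
  have p141 : T 7 1 5 = (-(4531 / 217728) + (99275 / 1524096) * z) * T 7 2 3 + ((2883 / 896) -
      (4827 / 6272) * z) * T 7 1 3 + (-(61 / 486)) * T 7 2 6 + (-(25 / 243)) * T 7 3 6 := by
    linear_combination (1 / 4704) * a0 7 + ((15 / 392)) * zB 7 0 + (-(5 / 112) + (5 / 84) * z) *
      p77 + ((25 / 112) - (5 / 48) * z) * p78 + ((1 / 112) - (25 / 672) * z) * p79 + (-(25 /
      112) + (5 / 48) * z) * p83 + (-(5 / 24)) * p93 + (-(1 / 24)) * p94 + ((3 / 8)) * p95 + ((5
      / 24)) * p119 + (-2) * p120 + ((5 / 24)) * p127 + ((1 / 49)) * p128 + ((5 / 24)) * p133 +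
      (-(9 / 49)) * p134
  have p142 : T 7 2 6 = (-(9 / 56) + (225 / 392) * z) * T 7 2 3 + ((891 / 56) - (1539 / 392) *
      z) * T 7 1 3 + (-1) * T 7 3 6 := by
    linear_combination (-1 / 366912) * b0 7 + (-(11 / 208)) * zB 7 0 + ((55 / 1008) - (55 / 672)
      * z) * p77 + (-(275 / 2016) + (11 / 96) * z) * p78 + (-(55 / 4032) + (275 / 4704) * z) *
      p79 + ((275 / 2016) - (11 / 96) * z) * p83 + ((55 / 144)) * p93 + ((11 / 144)) * p94 + ((5
      / 16)) * p95 + (-(55 / 144)) * p119 + ((11 / 3)) * p120 + (-(55 / 144)) * p127 + (-(11 /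
      294)) * p128 + (-(55 / 144)) * p133 + (-(65 / 98)) * p134 + ((11 / 6)) * p141
  have p143 : T 7 4 5 = ((323 / 28) - (33961 / 686) * z + (2189 / 196) * z ^ 2) * T 7 1 3 +
      (-(1159 / 15876) + (29027 / 55566) * z - (14575 / 15876) * z ^ 2) * T 7 2 3 + (-(304 /
      567) + (176 / 81) * z) * T 7 3 6 := by
    linear_combination (-1 / 8058050) * a5 7 + (-(27 / 23)) * zB 7 5 + (-(18 / 35) + (6 / 7) *
      z) * p94 + ((36 / 35) - (12 / 11) * z) * p120 + ((27 / 50)) * p122 + ((36 / 245) - (60 /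
      91) * z) * p128 + (-(1188 / 1715) - (108 / 91) * z) * p134 + ((48 / 35) - (24 / 7) * z) *
      p141 + (-(106 / 567) - (2026 / 567) * z) * p142
  have p144 : T 4 1 3 = (-(49 / 5)) * T 5 1 3 + ((49 / 45)) * T 6 1 3 + (-(4038464 / 105105)) *
      T 3 1 7 + ((49 / 9)) * T 7 1 3 + (-(5696 / 85995)) * T 3 2 7 := by
    linear_combination (1 / 180) * a3 1 + (7 - (7 / 2) * z) * zA 1 3 + ((7 / 6) - (7 / 9) * z) *
      p3 + ((7 / 5) - (7 / 4) * z) * p5 + (1) * p34 + ((49 / 5)) * p35 + (-(49 / 45)) * p36 +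
      (-(49 / 9)) * p37 + (-1) * p104 + ((376 / 2205)) * p105 + (-(24 / 5)) * p111 + ((244 /
      405)) * p112
  have p145 : T 5 1 3 = (-(11 / 486)) * T 6 1 3 + (-(2275552 / 567567)) * T 3 1 7 + (-(55 /
      486)) * T 7 1 3 + (-(712 / 51597)) * T 3 2 7 := by
    linear_combination (-5 / 1524096) * b3 1 + (-(3575 / 12096) + (715 / 3024) * z) * zA 1 3 +
      (-(3575 / 27216) + (3575 / 36288) * z) * p3 + (-(3575 / 24192) + (3575 / 21168) * z) * p5
      + (-(55 / 864)) * p34 + ((325 / 864)) * p35 + ((715 / 7776)) * p36 + ((3575 / 7776)) * p37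
      + ((55 / 864)) * p104 + (-(1595 / 47628)) * p105 + (-(25 / 36)) * p111 + ((1525 / 17496))
      * p112 + ((55 / 864)) * p144
  have p146 : T 4 2 3 = (-(49 / 5)) * T 5 2 3 + (-(20032 / 3185)) * T 3 2 7 + ((1058 / 195)) * T
      7 2 3 + (-(45072 / 715)) * T 2 1 7 + (-(26006544 / 7007)) * T 3 1 7 := by
    linear_combination (1 / 180) * a3 2 + ((7 / 6) - (7 / 9) * z) * zA 2 3 + ((7 / 5) - (7 / 4)
      * z) * p10 + (7 - (7 / 2) * z) * p11 + (1) * p44 + ((49 / 5)) * p45 + (-(49 / 45)) * p46 +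
      (-(49 / 9)) * p47 + (-1) * p106 + (-(2376 / 245)) * p107 + ((49 / 45)) * p110 + (-(2836 /
      45)) * p112
  have p147 : T 5 2 3 = (-(2504 / 1911)) * T 3 2 7 + (-(5819 / 51597)) * T 7 2 3 + ((2504 /
      1911)) * T 2 1 7 + (-(12520 / 33)) * T 3 1 7 := by
    linear_combination (-5 / 1524096) * b3 2 + (-(3575 / 27216) + (3575 / 36288) * z) * zA 2 3 +
      (-(3575 / 24192) + (3575 / 21168) * z) * p10 + (-(3575 / 12096) + (715 / 3024) * z) * p11
      + (-(55 / 864)) * p44 + ((325 / 864)) * p45 + ((715 / 7776)) * p46 + ((3575 / 7776)) * p47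
      + ((55 / 864)) * p106 + (-(75 / 196)) * p107 + (-(715 / 7776)) * p110 + (-(4985 / 1944)) *
      p112 + ((55 / 864)) * p146
  have p148 : T 2 1 5 = ((19571 / 3003)) * T 2 1 7 + (-(9760 / 7371)) * T 3 2 7 + (-(9760 /
      7371)) * T 7 2 3 := by
    linear_combination (1 / 4704) * a0 2 + ((5 / 28) - (5 / 112) * z) * zB 2 0 + (-(5 / 112) +
      (5 / 84) * z) * p9 + (-(1 / 28) + (5 / 224) * z) * p10 + (-(5 / 24)) * p96 + (-(1 / 24)) *
      p97 + ((3 / 8)) * p98 + ((15 / 392)) * p99 + ((5 / 24)) * p102 + (-(9 / 49)) * p103 + (-(5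
      / 24)) * p106 + (-(1 / 49)) * p107 + ((3 / 8)) * p110 + ((61 / 486)) * p112 + (-(5 / 24))
      * p146 + (2) * p147
  have p149 : T 2 1 7 = (-(7007 / 4272)) * T 6 1 3 + (-(4967963 / 354576)) * T 7 1 3 + ((110 /
      747)) * T 7 2 3 + (-1) * T 3 1 7 := by
    linear_combination (7007 / 5673216) * a2 1 + (-(147147 / 472768) + (735735 / 1891072) * z) *
      zA 1 2 + (-(245245 / 945536) + (245245 / 1418304) * z) * p3 + (-(735735 / 472768) +
      (735735 / 945536) * z) * p4 + (-(1030029 / 472768)) * p30 + (-(105105 / 472768)) * p31 +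
      ((1716715 / 1418304)) * p32 + ((343343 / 1418304)) * p33 + ((1030029 / 472768)) * p80 +
      ((105105 / 472768)) * p81 + (-(1716715 / 1418304)) * p82 + (-(343343 / 1418304)) * p83 +
      ((1030029 / 472768)) * p102 + ((35035 / 44322)) * p103 + ((1716715 / 1418304)) * p110 +
      (-(1030029 / 472768)) * p144 + ((6243237 / 295480)) * p145 + (-(1030029 / 472768)) * p146
      + ((6243237 / 295480)) * p147 + (-(315315 / 29548)) * p148
  have p150 : T 7 1 3 = ((89 / 8451)) * T 7 2 3 := by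
    linear_combination (83 / 141345792) * b2 1 + (-(59345 / 2243584) + (59345 / 1963136) * z) *
      zA 1 2 + (-(59345 / 2524032) + (59345 / 3365376) * z) * p3 + (-(59345 / 1121792) + (11869
      / 280448) * z) * p4 + ((5395 / 80128)) * p30 + (-(913 / 80128)) * p31 + ((59345 / 721152))
      * p32 + ((11869 / 721152)) * p33 + (-(5395 / 80128)) * p80 + ((913 / 80128)) * p81 +
      (-(59345 / 721152)) * p82 + (-(11869 / 721152)) * p83 + (-(5395 / 80128)) * p102 +
      (-(318305 / 2208528)) * p103 + ((59345 / 721152)) * p110 + ((5395 / 80128)) * p144 +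
      (-(6723 / 10016)) * p145 + ((5395 / 80128)) * p146 + (-(6723 / 10016)) * p147 + ((1743 /
      5008)) * p148 + ((391511 / 3759756)) * p149
  have p151 : T 6 3 4 = ((2947 / 178) - (16121 / 178) * z) * T 6 1 3 + (-(49 / 5)) * T 6 3 5 +
      ((49 / 9)) * T 6 3 7 := by
    linear_combination (-1 / 180) * a3 6 + ((49 / 45)) * zB 6 3 + (-(7 / 5) + (7 / 4) * z) * p76
      + ((7 / 30) - (35 / 36) * z) * p110 + (-(67608 / 5005) + (56340 / 1001) * z) * p149 +
      ((13980771 / 73870) - (23301285 / 29548) * z) * p150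
  have p152 : T 6 3 5 = (-(32065 / 89712) + (76175 / 89712) * z) * T 6 1 3 + (-(55 / 486)) * T 6
      3 7 := by
    linear_combination (5 / 1524096) * b3 6 + (-(715 / 7776)) * zB 6 3 + ((3575 / 24192) - (3575
      / 21168) * z) * p76 + (-(3575 / 217728) + (17875 / 254016) * z) * p110 + ((7825 / 8232) -
      (39125 / 9604) * z) * p149 + (-(793353275 / 59568768) + (3966766375 / 69496896) * z) *
      p150 + ((55 / 864)) * p151
  have p153 : T 6 2 4 = (-(5 / 49)) * T 6 2 5 + ((1 / 9)) * T 6 2 7 + ((2105 / 1246) - (1645 /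
      178) * z) * T 6 1 3 := by
    linear_combination (1 / 1764) * a2 6 + ((5 / 9)) * zB 6 2 + (-(5 / 7) + (5 / 14) * z) * p75
      + ((4 / 7) - (5 / 28) * z) * p82 + ((1 / 42) - (25 / 252) * z) * p110 + (-(67608 / 49049)
      + (281700 / 49049) * z) * p149 + ((1997253 / 103418) - (16643775 / 206836) * z) * p150
  have p154 : T 6 2 5 = ((637 / 486)) * T 6 2 7 + ((257075 / 12816) - (1267357 / 12816) * z) * T
      6 1 3 := by
    linear_combination (1 / 31104) * b2 6 + ((35035 / 7776)) * zB 6 2 + (-(5005 / 1728) + (1001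
      / 432) * z) * p75 + ((5005 / 3456) - (143 / 216) * z) * p82 + ((5005 / 31104) - (3575 /
      5184) * z) * p110 + (-(1565 / 168) + (7825 / 196) * z) * p149 + ((1110694585 / 8509824) -
      (793353275 / 1418304) * z) * p150 + ((3185 / 864)) * p153
  have p155 : T 6 1 4 = (-(18945 / 1246) + (14805 / 178) * z) * T 6 1 3 + (-5) * T 6 1 5 + (9) *
      T 6 1 7 := by
    linear_combination (-1 / 196) * a1 6 + ((45 / 49)) * zB 6 1 + (-(15 / 14) + (10 / 7) * z) *
      p74 + ((15 / 14) - (10 / 7) * z) * p75 + ((15 / 14) - (10 / 7) * z) * p76 + (-(27 / 14) +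
      (55 / 28) * z) * p82 + (-(3 / 14) + (25 / 28) * z) * p110 + ((608472 / 49049) - (2535300 /
      49049) * z) * p149 + (-(17975277 / 103418) + (149793975 / 206836) * z) * p150
  have p156 : T 6 1 7 = (-(55 / 4984) - (4279 / 4984) * z) * T 6 1 3 := by
    linear_combination (-1 / 366912) * b1 6 + ((11 / 208)) * zB 6 1 + (-(55 / 1008) + (55 / 672)
      * z) * p74 + ((55 / 1008) - (55 / 672) * z) * p75 + ((55 / 1008) - (55 / 672) * z) * p76 +
      (-(55 / 576) + (165 / 1568) * z) * p82 + (-(55 / 4032) + (275 / 4704) * z) * p110 +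
      ((14085 / 17836) - (211275 / 62426) * z) * p149 + (-(36616305 / 3309376) + (549244575 /
      11582816) * z) * p150 + (-(11 / 144)) * p155
  have p157 : T 6 1 5 = ((4852795 / 4395888) - (23268629 / 4395888) * z) * T 6 1 3 + ((277 /
      23814)) * T 6 2 7 + ((15745 / 11907)) * T 6 3 7 := by
    linear_combination (1 / 4704) * a0 6 + ((3 / 8)) * zB 6 0 + (-(5 / 112) + (5 / 84) * z) *
      p74 + ((25 / 112) - (5 / 48) * z) * p75 + ((1 / 112) - (25 / 672) * z) * p76 + (-(25 /
      112) + (5 / 48) * z) * p82 + (-(5 / 24)) * p90 + (-(1 / 24)) * p91 + ((15 / 392)) * p92 +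
      (-(1 / 112) + (25 / 672) * z) * p110 + ((25353 / 49049) - (211275 / 98098) * z) * p149 +
      (-(5991759 / 827344) + (49931325 / 1654688) * z) * p150 + ((5 / 24)) * p151 + (-2) * p152
      + ((5 / 24)) * p153 + ((1 / 49)) * p154 + ((5 / 24)) * p155 + ((90 / 49)) * p156
  have p158 : T 6 2 7 = ((405 / 623) + (31509 / 623) * z) * T 6 1 3 + (-1) * T 6 3 7 := by
    linear_combination (-1 / 6336) * b0 6 + ((3185 / 176)) * zB 6 0 + ((455 / 144) - (455 / 96)
      * z) * p74 + (-(2275 / 288) + (637 / 96) * z) * p75 + (-(455 / 576) + (325 / 96) * z) *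
      p76 + ((2275 / 288) - (637 / 96) * z) * p82 + ((3185 / 144)) * p90 + ((637 / 144)) * p91 +
      (-(49 / 16)) * p92 + ((455 / 576) - (325 / 96) * z) * p110 + (-(14085 / 308) + (211275 /
      1078) * z) * p149 + ((302916705 / 472768) - (649107225 / 236384) * z) * p150 + (-(3185 /
      144)) * p151 + ((637 / 3)) * p152 + (-(3185 / 144)) * p153 + (-(13 / 6)) * p154 + (-(3185
      / 144)) * p155 + (-196) * p156 + ((637 / 6)) * p157
  have p159 : T 6 5 7 = ((460 / 567) - (92 / 81) * z) * T 6 3 7 + (-(575 / 26166) - (21965 /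
      13083) * z + (8947 / 3738) * z ^ 2) * T 6 1 3 := by
    linear_combination (1 / 9459450) * a7 6 + (-(23 / 27)) * zA 6 7 + ((92 / 49) - (184 / 91) *
      z) * p92 + ((23 / 50)) * p118 + (-(10120 / 3087) + (2024 / 585) * z) * p151 + ((2024 / 63)
      - (99176 / 2925) * z) * p152 + ((1012 / 315) + (460 / 63) * z) * p153 + (-(1012 / 3087) -
      (2300 / 3087) * z) * p154 + (-(1012 / 315) + (1012 / 315) * z) * p155 + (-(1380 / 49) +
      (142876 / 5005) * z) * p156 + ((1012 / 63) - (1012 / 63) * z) * p157 + (-(920 / 83349) +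
      (227056 / 1083537) * z) * p158
  have p160 : T 5 3 7 = (-(23851 / 1083537) - (1495 / 83349) * z) * T 3 2 7 + (-(35972 / 4459) -
      (11500 / 3773) * z) * T 3 1 7 + ((32065 / 8518608) - (76175 / 8518608) * z) * T 7 2 3 +
      ((5 / 729)) * T 7 3 6 + (-(23 / 1458)) * T 6 3 7 := by
    linear_combination (1 / 31216185) * a5 3 + (-(92 / 693) + (460 / 7623) * z) * zA 3 5 + ((230
      / 891)) * p54 + (-(23 / 165)) * p57 + ((10 / 33)) * p58 + ((92 / 693) - (460 / 2079) * z)
      * p65 + (-(184 / 4851) + (4600 / 27027) * z) * p107 + (-(736 / 2079) + (1840 / 2079) * z)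
      * p111 + (-(103132 / 505197) + (507380 / 505197) * z) * p112 + (-(230 / 891)) * p113 +
      (-(230 / 8019)) * p114 + (-(230 / 891)) * p115 + (-(5681 / 40095)) * p116 + (-(10 / 33)) *
      p120 + ((1265 / 18144) - (2185 / 127008) * z) * p144 + ((152927 / 73920) - (57707 /
      103488) * z) * p145 + (-(115 / 163296) + (2875 / 1143072) * z) * p146 + (-(28957 / 665280)
      + (161345 / 931392) * z) * p147 + (-(223169 / 17657640) + (1691765 / 24720696) * z) * p149
      + ((86177909 / 223382880) - (313577465 / 312736032) * z) * p150 + ((23 / 165)) * p152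
  have p161 : T 7 3 6 = ((1038 / 4459) - (1266 / 4459) * z) * T 3 2 7 + ((211248 / 4459) +
      (830736 / 49049) * z) * T 3 1 7 + (-1) * T 6 3 7 := by
    linear_combination (1 / 686) * b5 3 + ((3960 / 49) + (1980 / 49) * z) * zA 3 5 + ((55 / 7))
      * p54 + (-(135 / 14)) * p57 + (-(297 / 7)) * p58 + ((660 / 49) - (792 / 49) * z) * p65 +
      (-(660 / 343) + (396 / 49) * z) * p107 + ((1320 / 49) - (528 / 49) * z) * p111 + (-(63470
      / 3969) + (215578 / 3969) * z) * p112 + (-(55 / 7)) * p113 + (-(55 / 63)) * p114 + (-(55 /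
      7)) * p115 + ((137 / 126)) * p116 + ((297 / 7)) * p120 + ((6655 / 3136) - (11495 / 21952)
      * z) * p144 + ((82647 / 6272) - (285903 / 43904) * z) * p145 + (-(605 / 28224) + (15125 /
      197568) * z) * p146 + (-(10653 / 6272) + (320325 / 43904) * z) * p147 + (-(436635 /
      499408) + (16549875 / 3495856) * z) * p149 + ((155874543 / 11582816) - (5398587975 /
      81079712) * z) * p150 + ((135 / 14)) * p152 + (-(81 / 14)) * p160
  have p162 : T 4 3 7 = ((325376 / 40131) + (511792 / 441441) * z) * T 3 1 7 + (-(218843 /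
      1083537) + (1124821 / 1083537) * z) * T 3 2 7 + ((637 / 486)) * T 6 3 7 + (-(257075 /
      1216944) + (1267357 / 1216944) * z) * T 7 2 3 := by
    linear_combination (1 / 4351347) * a7 3 + ((400 / 63) - (200 / 21) * z) * zA 3 7 + (1) * p56
      + (-(50 / 23)) * p58 + (-(50 / 27)) * p59 + ((200 / 49) - (400 / 91) * z) * p67 + (-1) *
      p119 + ((1377 / 115)) * p120 + ((63905 / 20608) - (176713 / 144256) * z) * p150 + ((50 /
      23)) * p160 + ((739 / 1458)) * p161
  have hz1 : (1 + z : ℂ) ≠ 0 := fun e => hz (by linear_combination e)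
  have f0 : (244901504919 / 5646275635) * T 3 1 7 + (423232739 / 3695744052) * T 3 2 7 +
      (-513669 / 655040) * T 6 1 3 + (-1135889 / 20733120) * T 7 2 3 = 0 := by
    refine (mul_eq_zero.1 (show (1 + z) * ((244901504919 / 5646275635) * T 3 1 7 + (423232739 /
      3695744052) * T 3 2 7 + (-513669 / 655040) * T 6 1 3 + (-1135889 / 20733120) * T 7 2 3) =
      0 by
      linear_combination (1 / 248648400) * a7 2 + ((1 / 15) - (1 / 18) * z) * zA 2 7 + ((1 / 9)
        - (1 / 6) * z) * p47 + ((7 / 400)) * p50 + (-(7 / 184)) * p52 + (-(7 / 216)) * p53 + ((1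
        / 14) - (1 / 13) * z) * p99 + (-(7 / 400)) * p127 + ((513 / 12880)) * p128 + (-(7 /
        400)) * p138 + ((7 / 184)) * p140 + ((28189 / 99360)) * p142 + ((3357 / 11200) - (3357 /
        50960) * z) * p144 + (-(81983619 / 4048000) + (341293401 / 73673600) * z) * p145 + ((373
        / 436800) - (373 / 61152) * z) * p146 + ((4634459 / 157872000) + (1451207 / 44204160) *
        z) * p147 + ((7662007 / 580179600) + (67178599 / 162450288) * z) * p149 + ((127162584133
        / 15658076160) - (121213774283 / 15658076160) * z) * p150 + ((7 / 216)) * p158 + ((22295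
        / 2024)) * p160 + (-(267071 / 1283040)) * p161 + (-(11 / 7280)) * p162)).resolve_left
        hz1
  have f1 : (-75658068264 / 49098049) * T 3 1 7 + (-193000858 / 40171131) * T 3 2 7 + (-12171 /
      7832) * T 6 1 3 + (259489 / 247896) * T 7 2 3 = 0 := by
    refine (mul_eq_zero.1 (show (1 + z) * ((-75658068264 / 49098049) * T 3 1 7 + (-193000858 /
      40171131) * T 3 2 7 + (-12171 / 7832) * T 6 1 3 + (259489 / 247896) * T 7 2 3) = 0 by
      linear_combination (1 / 20790) * b7 2 + ((2 / 9) - (2 / 15) * z) * zA 2 7 + (-(2 / 3) + (2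
        / 9) * z) * p47 + ((7 / 22)) * p50 + ((7 / 5)) * p52 + (-(7 / 27)) * p53 + ((2 / 7) - (2
        / 5) * z) * p99 + (-(7 / 22)) * p127 + (-(1053 / 770)) * p128 + (-(7 / 22)) * p138 +
        (-(7 / 5)) * p140 + (-(959 / 108)) * p142 + ((3357 / 616) - (16785 / 14014) * z) * p144
        + ((513747 / 880) - (10809297 / 80080) * z) * p145 + ((373 / 24024) - (9325 / 84084) *
        z) * p146 + (-(52867 / 34320) + (99865 / 48048) * z) * p147 + (-(7329373 / 1387386) +
        (394020859 / 48558510) * z) * p149 + (-(18462863549 / 187216128) - (67338146401 /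
        936080640) * z) * p150 + ((7 / 27)) * p158 + (-(4459 / 11)) * p160 + ((195643 / 32076))
        * p161 + (-(5 / 182)) * p162)).resolve_left hz1
  have f2 : (-142968121 / 513297785) * T 3 1 7 + (-1553221 / 1511895294) * T 3 2 7 + (8437 /
      2947680) * T 6 1 3 + (332651 / 279897120) * T 7 2 3 = 0 := by
    refine (mul_eq_zero.1 (show (1 + z) * ((-142968121 / 513297785) * T 3 1 7 + (-1553221 /
      1511895294) * T 3 2 7 + (8437 / 2947680) * T 6 1 3 + (332651 / 279897120) * T 7 2 3) = 0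
      by
      linear_combination (1 / 248648400) * a7 1 + ((1 / 10) - (1 / 11) * z) * zA 1 7 + ((1 / 15)
        - (1 / 18) * z) * p33 + ((1 / 9) - (1 / 6) * z) * p37 + ((7 / 400)) * p40 + (-(7 / 184))
        * p42 + (-(7 / 216)) * p43 + (-(1 / 15) + (1 / 18) * z) * p83 + ((1 / 14) - (1 / 13) *
        z) * p109 + (-(7 / 400)) * p133 + ((247 / 15120)) * p134 + (-(7 / 400)) * p137 + ((77 /
        2552400)) * p138 + ((7 / 184)) * p139 + (-(77 / 687240)) * p140 + ((231 / 1840)) * p141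
        + (-(4697 / 298080)) * p142 + ((121 / 33600) - (121 / 152880) * z) * p144 + ((1769 /
        552000) - (5563 / 5023200) * z) * p145 + ((121 / 11793600) - (121 / 1651104) * z) * p146
        + (-(35731 / 193752000) + (10553 / 13562640) * z) * p147 + ((2758087 / 712038600) -
        (783941 / 49842702) * z) * p149 + (-(114881984063 / 422768056320) + (1135550719831 /
        2959376394240) * z) * p150 + ((7 / 216)) * p156 + (-(7 / 184)) * p160 + ((301 / 116640))
        * p161 + ((11 / 7280)) * p162)).resolve_left hz1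
  have f3 : (22075736 / 4463459) * T 3 1 7 + (390464 / 32867289) * T 3 2 7 + (-22 / 801) * T 6 1
      3 + (-4936 / 836649) * T 7 2 3 = 0 := by
    refine (mul_eq_zero.1 (show (1 + z) * ((22075736 / 4463459) * T 3 1 7 + (390464 / 32867289)
      * T 3 2 7 + (-22 / 801) * T 6 1 3 + (-4936 / 836649) * T 7 2 3) = 0 by
      linear_combination (1 / 20790) * b7 1 + (-2 - 2 * z) * zA 1 7 + ((2 / 9) - (2 / 15) * z) *
        p33 + (-(2 / 3) + (2 / 9) * z) * p37 + ((7 / 22)) * p40 + ((7 / 5)) * p42 + (-(7 / 27))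
        * p43 + (-(2 / 9) + (2 / 15) * z) * p83 + ((2 / 7) - (2 / 5) * z) * p109 + (-(7 / 22)) *
        p133 + (-(137 / 4158)) * p134 + (-(7 / 22)) * p137 + ((7 / 12762)) * p138 + (-(7 / 5)) *
        p139 + ((77 / 18675)) * p140 + ((21 / 110)) * p141 + (-(427 / 17820)) * p142 + ((11 /
        168) - (55 / 3822) * z) * p144 + (-(247 / 120) + (2551 / 5460) * z) * p145 + ((11 /
        58968) - (275 / 206388) * z) * p146 + ((53 / 42120) + (80 / 7371) * z) * p147 + ((8263 /
        154791) - (912616 / 5417685) * z) * p149 + (-(3983798749 / 25274177280) + (390061771301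
        / 176919240960) * z) * p150 + ((7 / 27)) * p156 + ((7 / 5)) * p160 + ((203 / 14580)) *
        p161 + ((5 / 182)) * p162)).resolve_left hz1
  have q317 : T 3 1 7 = 0 := by
    linear_combination (-7442165478737 / 285187728143682) * f0 + (1019547508507 /
      877500701980560) * f1 + (12538473012259 / 5281254224883) * f2 + (1882441966988 /
      2031251624955) * f3
  have q327 : T 3 2 7 = 0 := by
    linear_combination (110135193817261 / 10562508449766) * f0 + (-20519488528781 /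
      32500025999280) * f1 + (-2351453287692539 / 4303244183238) * f2 + (-383893042327399 /
      1203704666640) * f3
  have q613 : T 6 1 3 = 0 := by
    linear_combination (-239726442698126 / 142593864071841) * f0 + (-465912644615 /
      43875035099028) * f1 + (-917763029697812 / 58093796473713) * f2 + (8568077394547 /
      812500649982) * f3
  have q723 : T 7 2 3 = 0 := by
    linear_combination (403137103358 / 58035760713) * f0 + (-287733944201 / 1160715214260) * f1
      + (2071044804532 / 2149472619) * f2 + (-1803232753817 / 21494726190) * f3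
  have q637 : T 6 3 7 = 0 := by
    refine (mul_eq_zero.1 (show (1 + z) * T 6 3 7 = 0 by
      linear_combination (-1 / 4604600) * a7 5 + ((189 / 92)) * zA 5 7 + ((7 / 4)) * p63 + (-(27
        / 7) + (54 / 13) * z) * p89 + (-(7 / 4)) * p122 + ((110 / 49) + (50 / 13) * z) * p134 +
        (-(189 / 200)) * p136 + ((216 / 7) - (23058 / 143) * z) * p139 + ((69 / 415) - (3663 /
        5395) * z) * p140 + ((770 / 243) - (250 / 243) * z) * p142 + (-(43605 / 616) + (653643 /
        2156) * z - (3699 / 56) * z ^ 2) * p145 + ((95 / 616) - (1585 / 2156) * z + (25 / 56) *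
        z ^ 2) * p147 + ((29735 / 147147) - (992210 / 1030029) * z + (7825 / 13377) * z ^ 2) *
        p149 + ((33895745 / 1654688) - (292799445 / 2895704) * z + (210369445 / 11582816) * z ^
        2) * p150 + (-(7 / 4)) * p159 + ((456 / 11) - 168 * z) * p160 + (-(2870 / 2673) + (1370
        / 243) * z) * p161 + ((6035 / 26292) - (5270 / 6573) * z - (27115 / 26292) * z ^ 2) *
        q723 + ((6525 / 4984) - (5841 / 2492) * z - (2601 / 712) * z ^ 2) * q613 + (-(259297216
        / 1618617) + (877650112 / 1618617) * z + (103358848 / 147147) * z ^ 2) * q317 +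
        (-(1540372 / 3972969) + (5369344 / 3972969) * z + (628156 / 361179) * z ^ 2) *
        q327)).resolve_left hz1
  have q437 : T 4 3 7 = 0 := by
    linear_combination p162 + ((325376 / 40131) + (511792 / 441441) * z) * q317 + (-(218843 /
      1083537) + (1124821 / 1083537) * z) * q327 + ((637 / 486)) * q637 + (-(257075 / 1216944) +
      (1267357 / 1216944) * z) * q723
  have q736 : T 7 3 6 = 0 := by
    linear_combination p161 + ((1038 / 4459) - (1266 / 4459) * z) * q327 + ((211248 / 4459) +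
      (830736 / 49049) * z) * q317 + (-1) * q637
  have q537 : T 5 3 7 = 0 := by
    linear_combination p160 + (-(23851 / 1083537) - (1495 / 83349) * z) * q327 + (-(35972 /
      4459) - (11500 / 3773) * z) * q317 + ((32065 / 8518608) - (76175 / 8518608) * z) * q723 +
      ((5 / 729)) * q736 + (-(23 / 1458)) * q637
  have q657 : T 6 5 7 = 0 := by
    linear_combination p159 + ((460 / 567) - (92 / 81) * z) * q637 + (-(575 / 26166) - (21965 /
      13083) * z + (8947 / 3738) * z ^ 2) * q613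
  have q627 : T 6 2 7 = 0 := by
    linear_combination p158 + ((405 / 623) + (31509 / 623) * z) * q613 + (-1) * q637
  have q615 : T 6 1 5 = 0 := by
    linear_combination p157 + ((4852795 / 4395888) - (23268629 / 4395888) * z) * q613 + ((277 /
      23814)) * q627 + ((15745 / 11907)) * q637
  have q617 : T 6 1 7 = 0 := by
    linear_combination p156 + (-(55 / 4984) - (4279 / 4984) * z) * q613
  have q614 : T 6 1 4 = 0 := by
    linear_combination p155 + (-(18945 / 1246) + (14805 / 178) * z) * q613 + (-5) * q615 + (9) *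
      q617
  have q625 : T 6 2 5 = 0 := by
    linear_combination p154 + ((637 / 486)) * q627 + ((257075 / 12816) - (1267357 / 12816) * z)
      * q613
  have q624 : T 6 2 4 = 0 := by
    linear_combination p153 + (-(5 / 49)) * q625 + ((1 / 9)) * q627 + ((2105 / 1246) - (1645 /
      178) * z) * q613
  have q635 : T 6 3 5 = 0 := by
    linear_combination p152 + (-(32065 / 89712) + (76175 / 89712) * z) * q613 + (-(55 / 486)) *
      q637
  have q634 : T 6 3 4 = 0 := by
    linear_combination p151 + ((2947 / 178) - (16121 / 178) * z) * q613 + (-(49 / 5)) * q635 +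
      ((49 / 9)) * q637
  have q713 : T 7 1 3 = 0 := by
    linear_combination p150 + ((89 / 8451)) * q723
  have q217 : T 2 1 7 = 0 := by
    linear_combination p149 + (-(7007 / 4272)) * q613 + (-(4967963 / 354576)) * q713 + ((110 /
      747)) * q723 + (-1) * q317
  have q215 : T 2 1 5 = 0 := by
    linear_combination p148 + ((19571 / 3003)) * q217 + (-(9760 / 7371)) * q327 + (-(9760 /
      7371)) * q723
  have q523 : T 5 2 3 = 0 := by
    linear_combination p147 + (-(2504 / 1911)) * q327 + (-(5819 / 51597)) * q723 + ((2504 /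
      1911)) * q217 + (-(12520 / 33)) * q317
  have q423 : T 4 2 3 = 0 := by
    linear_combination p146 + (-(49 / 5)) * q523 + (-(20032 / 3185)) * q327 + ((1058 / 195)) *
      q723 + (-(45072 / 715)) * q217 + (-(26006544 / 7007)) * q317
  have q513 : T 5 1 3 = 0 := by
    linear_combination p145 + (-(11 / 486)) * q613 + (-(2275552 / 567567)) * q317 + (-(55 /
      486)) * q713 + (-(712 / 51597)) * q327
  have q413 : T 4 1 3 = 0 := by
    linear_combination p144 + (-(49 / 5)) * q513 + ((49 / 45)) * q613 + (-(4038464 / 105105)) *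
      q317 + ((49 / 9)) * q713 + (-(5696 / 85995)) * q327
  have q745 : T 7 4 5 = 0 := by
    linear_combination p143 + ((323 / 28) - (33961 / 686) * z + (2189 / 196) * z ^ 2) * q713 +
      (-(1159 / 15876) + (29027 / 55566) * z - (14575 / 15876) * z ^ 2) * q723 + (-(304 / 567) +
      (176 / 81) * z) * q736
  have q726 : T 7 2 6 = 0 := by
    linear_combination p142 + (-(9 / 56) + (225 / 392) * z) * q723 + ((891 / 56) - (1539 / 392)
      * z) * q713 + (-1) * q736
  have q715 : T 7 1 5 = 0 := by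
    linear_combination p141 + (-(4531 / 217728) + (99275 / 1524096) * z) * q723 + ((2883 / 896)
      - (4827 / 6272) * z) * q713 + (-(61 / 486)) * q726 + (-(25 / 243)) * q736
  have q527 : T 5 2 7 = 0 := by
    linear_combination p140 + ((3665 / 3696) - (18325 / 25872) * z) * q523 + (-(560745 / 1232) +
      (903789 / 8624) * z) * q513 + ((3185 / 11)) * q537
  have q517 : T 5 1 7 = 0 := by
    linear_combination p139 + ((77 / 107568) - (55 / 107568) * z) * q523 + (-(1309 / 3984) +
      (1507 / 19920) * z) * q513 + (-(11 / 3735)) * q527 + (-(110 / 747)) * q537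
  have q427 : T 4 2 7 = 0 := by
    linear_combination p138 + (-(373 / 7644) + (9325 / 26754) * z) * q423 + (-(3357 / 196) +
      (16785 / 4459) * z) * q413 + ((55 / 637)) * q437
  have q417 : T 4 1 7 = 0 := by
    linear_combination p137 + (-(77 / 114858) + (275 / 57429) * z) * q423 + (-(1001 / 4254) +
      (110 / 2127) * z) * q413 + (-(11 / 6381)) * q427 + (-(550 / 6381)) * q437
  have q547 : T 5 4 7 = 0 := by
    linear_combination p136 + (-(4675 / 294) + (85580 / 1029) * z - (37675 / 2058) * z ^ 2) *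
      q513 + ((275 / 7938) - (5500 / 27783) * z + (6875 / 55566) * z ^ 2) * q523 + (-(240 / 7) +
      (1200 / 7) * z) * q517
  have q546 : T 5 4 6 = 0 := by
    linear_combination p135 + ((23 / 50)) * q547 + ((10649 / 392) - (484817 / 6860) * z + (40871
      / 2744) * z ^ 2) * q513 + (-(299 / 3528) + (1357 / 4116) * z - (6325 / 24696) * z ^ 2) *
      q523 + ((19872 / 385) - (9936 / 77) * z) * q517
  have q716 : T 7 1 6 = 0 := by
    linear_combination p134 + (-(1001 / 64) + (247 / 64) * z) * q713 + ((91 / 576) - (325 / 576)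
      * z) * q723
  have q714 : T 7 1 4 = 0 := by
    linear_combination p133 + ((36 / 7) - (45 / 28) * z) * q713 + (-5) * q715 + ((45 / 49)) *
      q716 + (-(3 / 14) + (25 / 28) * z) * q723
  have q516 : T 5 1 6 = 0 := by
    linear_combination p132 + (-(1001 / 64) + (247 / 64) * z) * q513 + (-(637 / 11)) * q517 +
      ((91 / 576) - (325 / 576) * z) * q523
  have q514 : T 5 1 4 = 0 := by
    linear_combination p131 + ((36 / 7) - (45 / 28) * z) * q513 + ((45 / 49)) * q516 + (9) *
      q517 + (-(3 / 14) + (25 / 28) * z) * q523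
  have q416 : T 4 1 6 = 0 := by
    linear_combination p130 + (-(1001 / 64) + (247 / 64) * z) * q413 + (-(637 / 11)) * q417 +
      ((91 / 576) - (325 / 576) * z) * q423
  have q415 : T 4 1 5 = 0 := by
    linear_combination p129 + ((36 / 35) - (9 / 28) * z) * q413 + ((9 / 49)) * q416 + ((9 / 5))
      * q417 + (-(3 / 70) + (5 / 28) * z) * q423
  have q725 : T 7 2 5 = 0 := by
    linear_combination p128 + ((7735 / 31104) - (32825 / 31104) * z) * q723 + ((3185 / 486)) *
      q726 + (-(455 / 128) + (169 / 128) * z) * q713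
  have q724 : T 7 2 4 = 0 := by
    linear_combination p127 + ((1 / 42) - (25 / 252) * z) * q723 + (-(5 / 49)) * q725 + ((5 /
      9)) * q726 + (-(4 / 7) + (5 / 28) * z) * q713
  have q526 : T 5 2 6 = 0 := by
    linear_combination p126 + (-(17 / 448) + (505 / 3136) * z) * q523 + (-(1 / 5)) * q527 +
      ((243 / 448) - (3159 / 15680) * z) * q513
  have q524 : T 5 2 4 = 0 := by
    linear_combination p125 + ((1 / 42) - (25 / 252) * z) * q523 + ((5 / 9)) * q526 + ((1 / 9))
      * q527 + (-(4 / 7) + (5 / 28) * z) * q513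
  have q426 : T 4 2 6 = 0 := by
    linear_combination p124 + (-(31 / 2240) + (235 / 3136) * z) * q423 + (-(1 / 5)) * q427 +
      (-(4131 / 2240) + (1215 / 3136) * z) * q413
  have q425 : T 4 2 5 = 0 := by
    linear_combination p123 + ((7 / 30) - (35 / 36) * z) * q423 + ((49 / 9)) * q426 + ((49 /
      45)) * q427 + (-(28 / 5) + (7 / 4) * z) * q413
  have q756 : T 7 5 6 = 0 := by
    linear_combination p122 + (-(440 / 343) - (200 / 91) * z) * q716 + (-(440 / 243) + (1000 /
      1701) * z) * q726 + (-(1760 / 1701) - (800 / 243) * z) * q736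
  have q746 : T 7 4 6 = 0 := by
    linear_combination p121 + (-(184 / 245) + (368 / 1001) * z) * q716 + ((92 / 315) - (460 /
      231) * z) * q726 + (-(92 / 105) + (92 / 99) * z) * q736 + ((23 / 50)) * q756
  have q735 : T 7 3 5 = 0 := by
    linear_combination p120 + (-(187 / 896) + (275 / 6272) * z) * q713 + (-(341 / 217728) +
      (12925 / 1524096) * z) * q723 + (-(11 / 486)) * q736
  have q734 : T 7 3 4 = 0 := by
    linear_combination p119 + (-(28 / 5) + (7 / 4) * z) * q713 + ((7 / 30) - (35 / 36) * z) *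
      q723 + (-(49 / 5)) * q735 + ((49 / 45)) * q736
  have q647 : T 6 4 7 = 0 := by
    linear_combination p118 + (-(440 / 63) + (440 / 63) * z) * q614 + ((440 / 63) + (1000 / 63)
      * z) * q624 + (-(22000 / 3087) + (880 / 117) * z) * q634
  have q645 : T 6 4 5 = 0 := by
    linear_combination p117 + (-(48 / 35) + (24 / 7) * z) * q614 + (-(12 / 35) + (180 / 77) * z)
      * q624 + (-(60 / 49) + (36 / 13) * z) * q634 + ((27 / 50)) * q647
  have q536 : T 5 3 6 = 0 := by
    linear_combination p116 + (-(4131 / 448) + (6075 / 3136) * z) * q513 + (-(31 / 448) + (1175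
      / 3136) * z) * q523 + (-5) * q537
  have q534 : T 5 3 4 = 0 := by
    linear_combination p115 + (-(28 / 5) + (7 / 4) * z) * q513 + ((7 / 30) - (35 / 36) * z) *
      q523 + ((49 / 45)) * q536 + ((49 / 9)) * q537
  have q436 : T 4 3 6 = 0 := by
    linear_combination p114 + ((1215 / 448) - (3159 / 3136) * z) * q413 + (-(85 / 448) + (2525 /
      3136) * z) * q423 + (-5) * q437
  have q435 : T 4 3 5 = 0 := by
    linear_combination p113 + (-(4 / 7) + (5 / 28) * z) * q413 + ((1 / 42) - (25 / 252) * z) *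
      q423 + ((1 / 9)) * q436 + ((5 / 9)) * q437
  have q326 : T 3 2 6 = 0 := by
    linear_combination p112 + ((405648 / 7007)) * q317 + (-(11 / 637)) * q327
  have q315 : T 3 1 5 = 0 := by
    linear_combination p111 + (-(61 / 486)) * q326 + ((6723 / 539)) * q317 + ((277 / 23814)) *
      q327
  have q623 : T 6 2 3 = 0 := by
    linear_combination p110 + (-(405648 / 7007)) * q217 + (-(405648 / 7007)) * q317 + (-(11 /
      637)) * q723
  have q107 : T 1 0 7 = 0 := by
    linear_combination p109 + (1) * q317 + (1) * q217 + (-1) * q723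
  have q105 : T 1 0 5 = 0 := by
    linear_combination p108 + (1) * q315 + (1) * q215 + (-1) * q523
  have q325 : T 3 2 5 = 0 := by
    linear_combination p107 + ((3185 / 486)) * q326 + ((637 / 486)) * q327
  have q324 : T 3 2 4 = 0 := by
    linear_combination p106 + (-(5 / 49)) * q325 + ((5 / 9)) * q326 + ((1 / 9)) * q327
  have q316 : T 3 1 6 = 0 := by
    linear_combination p105 + (-(637 / 11)) * q317
  have q314 : T 3 1 4 = 0 := by
    linear_combination p104 + (-5) * q315 + ((45 / 49)) * q316 + (9) * q317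
  have q216 : T 2 1 6 = 0 := by
    linear_combination p103 + (-(637 / 11)) * q217
  have q214 : T 2 1 4 = 0 := by
    linear_combination p102 + (-5) * q215 + ((45 / 49)) * q216 + (9) * q217
  have q106 : T 1 0 6 = 0 := by
    linear_combination p101 + (-(11 / 637)) * q107
  have q104 : T 1 0 4 = 0 := by
    linear_combination p100 + (-(1 / 5)) * q105 + ((9 / 5)) * q106 + ((9 / 49)) * q107
  have q207 : T 2 0 7 = 0 := by
    linear_combination p99 + (-1) * q217 + (1) * q327 + (1) * q723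
  have q206 : T 2 0 6 = 0 := by
    linear_combination p98 + (-1) * q216 + (1) * q326 + (1) * q623
  have q205 : T 2 0 5 = 0 := by
    linear_combination p97 + (-1) * q215 + (1) * q325 + (1) * q523
  have q204 : T 2 0 4 = 0 := by
    linear_combination p96 + (-1) * q214 + (1) * q324 + (1) * q423
  have q706 : T 7 0 6 = 0 := by
    linear_combination p95 + (-1) * q716 + (-1) * q726 + (-1) * q736
  have q705 : T 7 0 5 = 0 := by
    linear_combination p94 + (-1) * q715 + (-1) * q725 + (-1) * q735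
  have q704 : T 7 0 4 = 0 := by
    linear_combination p93 + (-1) * q714 + (-1) * q724 + (-1) * q734
  have q607 : T 6 0 7 = 0 := by
    linear_combination p92 + (-1) * q617 + (-1) * q627 + (-1) * q637
  have q605 : T 6 0 5 = 0 := by
    linear_combination p91 + (-1) * q615 + (-1) * q625 + (-1) * q635
  have q604 : T 6 0 4 = 0 := by
    linear_combination p90 + (-1) * q614 + (-1) * q624 + (-1) * q634
  have q507 : T 5 0 7 = 0 := by
    linear_combination p89 + (-1) * q517 + (-1) * q527 + (-1) * q537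
  have q506 : T 5 0 6 = 0 := by
    linear_combination p88 + (-1) * q516 + (-1) * q526 + (-1) * q536
  have q504 : T 5 0 4 = 0 := by
    linear_combination p87 + (-1) * q514 + (-1) * q524 + (-1) * q534
  have q407 : T 4 0 7 = 0 := by
    linear_combination p86 + (-1) * q417 + (-1) * q427 + (-1) * q437
  have q406 : T 4 0 6 = 0 := by
    linear_combination p85 + (-1) * q416 + (-1) * q426 + (-1) * q436
  have q405 : T 4 0 5 = 0 := by
    linear_combination p84 + (-1) * q415 + (-1) * q425 + (-1) * q435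
  have q712 : T 7 1 2 = 0 := by
    linear_combination p83 + (-1) * q713 + (-1) * q723
  have q612 : T 6 1 2 = 0 := by
    linear_combination p82 + (-1) * q613 + (-1) * q623
  have q512 : T 5 1 2 = 0 := by
    linear_combination p81 + (-1) * q513 + (-1) * q523
  have q412 : T 4 1 2 = 0 := by
    linear_combination p80 + (-1) * q413 + (-1) * q423
  have q703 : T 7 0 3 = 0 := by
    linear_combination p79 + (-1) * q713 + (-1) * q723
  have q702 : T 7 0 2 = 0 := by
    linear_combination p78 + (-1) * q712 + (-1) * q723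
  have q701 : T 7 0 1 = 0 := by
    linear_combination p77 + (-1) * q702 + (-1) * q703
  have q603 : T 6 0 3 = 0 := by
    linear_combination p76 + (-1) * q613 + (-1) * q623
  have q602 : T 6 0 2 = 0 := by
    linear_combination p75 + (-1) * q612 + (-1) * q623
  have q601 : T 6 0 1 = 0 := by
    linear_combination p74 + (-1) * q602 + (-1) * q603
  have q503 : T 5 0 3 = 0 := by
    linear_combination p73 + (-1) * q513 + (-1) * q523
  have q502 : T 5 0 2 = 0 := by
    linear_combination p72 + (-1) * q512 + (-1) * q523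
  have q501 : T 5 0 1 = 0 := by
    linear_combination p71 + (-1) * q502 + (-1) * q503
  have q403 : T 4 0 3 = 0 := by
    linear_combination p70 + (-1) * q413 + (-1) * q423
  have q402 : T 4 0 2 = 0 := by
    linear_combination p69 + (-1) * q412 + (-1) * q423
  have q401 : T 4 0 1 = 0 := by
    linear_combination p68 + (-1) * q402 + (-1) * q403
  have q307 : T 3 0 7 = 0 := by
    linear_combination p67 + (-1) * q317 + (-1) * q327
  have q306 : T 3 0 6 = 0 := by
    linear_combination p66 + (-1) * q316 + (-1) * q326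
  have q305 : T 3 0 5 = 0 := by
    linear_combination p65 + (-1) * q315 + (-1) * q325
  have q304 : T 3 0 4 = 0 := by
    linear_combination p64 + (-1) * q314 + (-1) * q324
  have q567 : T 5 6 7 = 0 := by
    linear_combination p63 + (-1) * q657 + (-1) * q756
  have q467 : T 4 6 7 = 0 := by
    linear_combination p62 + (-1) * q647 + (-1) * q746
  have q457 : T 4 5 7 = 0 := by
    linear_combination p61 + (-1) * q547 + (-1) * q745
  have q456 : T 4 5 6 = 0 := by
    linear_combination p60 + (-1) * q546 + (-1) * q645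
  have q367 : T 3 6 7 = 0 := by
    linear_combination p59 + (-1) * q637 + (-1) * q736
  have q357 : T 3 5 7 = 0 := by
    linear_combination p58 + (-1) * q537 + (-1) * q735
  have q356 : T 3 5 6 = 0 := by
    linear_combination p57 + (-1) * q536 + (-1) * q635
  have q347 : T 3 4 7 = 0 := by
    linear_combination p56 + (-1) * q437 + (-1) * q734
  have q346 : T 3 4 6 = 0 := by
    linear_combination p55 + (-1) * q436 + (-1) * q634
  have q345 : T 3 4 5 = 0 := by
    linear_combination p54 + (-1) * q435 + (-1) * q534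
  have q267 : T 2 6 7 = 0 := by
    linear_combination p53 + (-1) * q627 + (-1) * q726
  have q257 : T 2 5 7 = 0 := by
    linear_combination p52 + (-1) * q527 + (-1) * q725
  have q256 : T 2 5 6 = 0 := by
    linear_combination p51 + (-1) * q526 + (-1) * q625
  have q247 : T 2 4 7 = 0 := by
    linear_combination p50 + (-1) * q427 + (-1) * q724
  have q246 : T 2 4 6 = 0 := by
    linear_combination p49 + (-1) * q426 + (-1) * q624
  have q245 : T 2 4 5 = 0 := by
    linear_combination p48 + (-1) * q425 + (-1) * q524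
  have q237 : T 2 3 7 = 0 := by
    linear_combination p47 + (-1) * q327 + (-1) * q723
  have q236 : T 2 3 6 = 0 := by
    linear_combination p46 + (-1) * q326 + (-1) * q623
  have q235 : T 2 3 5 = 0 := by
    linear_combination p45 + (-1) * q325 + (-1) * q523
  have q234 : T 2 3 4 = 0 := by
    linear_combination p44 + (-1) * q324 + (-1) * q423
  have q167 : T 1 6 7 = 0 := by
    linear_combination p43 + (-1) * q617 + (-1) * q716
  have q157 : T 1 5 7 = 0 := by
    linear_combination p42 + (-1) * q517 + (-1) * q715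
  have q156 : T 1 5 6 = 0 := by
    linear_combination p41 + (-1) * q516 + (-1) * q615
  have q147 : T 1 4 7 = 0 := by
    linear_combination p40 + (-1) * q417 + (-1) * q714
  have q146 : T 1 4 6 = 0 := by
    linear_combination p39 + (-1) * q416 + (-1) * q614
  have q145 : T 1 4 5 = 0 := by
    linear_combination p38 + (-1) * q415 + (-1) * q514
  have q137 : T 1 3 7 = 0 := by
    linear_combination p37 + (-1) * q317 + (-1) * q713
  have q136 : T 1 3 6 = 0 := by
    linear_combination p36 + (-1) * q316 + (-1) * q613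
  have q135 : T 1 3 5 = 0 := by
    linear_combination p35 + (-1) * q315 + (-1) * q513
  have q134 : T 1 3 4 = 0 := by
    linear_combination p34 + (-1) * q314 + (-1) * q413
  have q127 : T 1 2 7 = 0 := by
    linear_combination p33 + (-1) * q217 + (-1) * q712
  have q126 : T 1 2 6 = 0 := by
    linear_combination p32 + (-1) * q216 + (-1) * q612
  have q125 : T 1 2 5 = 0 := by
    linear_combination p31 + (-1) * q215 + (-1) * q512
  have q124 : T 1 2 4 = 0 := by
    linear_combination p30 + (-1) * q214 + (-1) * q412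
  have q067 : T 0 6 7 = 0 := by
    linear_combination p29 + (-1) * q607 + (-1) * q706
  have q057 : T 0 5 7 = 0 := by
    linear_combination p28 + (-1) * q507 + (-1) * q705
  have q056 : T 0 5 6 = 0 := by
    linear_combination p27 + (-1) * q506 + (-1) * q605
  have q047 : T 0 4 7 = 0 := by
    linear_combination p26 + (-1) * q407 + (-1) * q704
  have q046 : T 0 4 6 = 0 := by
    linear_combination p25 + (-1) * q406 + (-1) * q604
  have q045 : T 0 4 5 = 0 := by
    linear_combination p24 + (-1) * q405 + (-1) * q504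
  have q037 : T 0 3 7 = 0 := by
    linear_combination p23 + (-1) * q307 + (-1) * q703
  have q036 : T 0 3 6 = 0 := by
    linear_combination p22 + (-1) * q306 + (-1) * q603
  have q035 : T 0 3 5 = 0 := by
    linear_combination p21 + (-1) * q305 + (-1) * q503
  have q034 : T 0 3 4 = 0 := by
    linear_combination p20 + (-1) * q304 + (-1) * q403
  have q027 : T 0 2 7 = 0 := by
    linear_combination p19 + (-1) * q207 + (-1) * q702
  have q026 : T 0 2 6 = 0 := by
    linear_combination p18 + (-1) * q206 + (-1) * q602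
  have q025 : T 0 2 5 = 0 := by
    linear_combination p17 + (-1) * q205 + (-1) * q502
  have q024 : T 0 2 4 = 0 := by
    linear_combination p16 + (-1) * q204 + (-1) * q402
  have q017 : T 0 1 7 = 0 := by
    linear_combination p15 + (-1) * q107 + (-1) * q701
  have q016 : T 0 1 6 = 0 := by
    linear_combination p14 + (-1) * q106 + (-1) * q601
  have q015 : T 0 1 5 = 0 := by
    linear_combination p13 + (-1) * q105 + (-1) * q501
  have q014 : T 0 1 4 = 0 := by
    linear_combination p12 + (-1) * q104 + (-1) * q401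
  have q213 : T 2 1 3 = 0 := by
    exact p11
  have q203 : T 2 0 3 = 0 := by
    exact p10
  have q201 : T 2 0 1 = 0 := by
    exact p9
  have q312 : T 3 1 2 = 0 := by
    exact p8
  have q301 : T 3 0 1 = 0 := by
    exact p7
  have q302 : T 3 0 2 = 0 := by
    exact p6
  have q103 : T 1 0 3 = 0 := by
    exact p5
  have q102 : T 1 0 2 = 0 := by
    exact p4
  have q123 : T 1 2 3 = 0 := by
    exact p3
  have q023 : T 0 2 3 = 0 := by
    exact p2
  have q013 : T 0 1 3 = 0 := by
    linear_combination p1 + (-1) * q023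
  have q012 : T 0 1 2 = 0 := by
    linear_combination p0 + (-1) * q013
  exact all8
    (all8
      (all8 (h0 0 0) (zA 0 1) (zA 0 2) (zA 0 3) (zA 0 4) (zA 0 5) (zA 0 6) (zA 0 7))
      (all8 (zB 0 1) (h0 0 1) q012 q013 q014 q015 q016 q017)
      (all8 (zB 0 2) ((hsym 0 2 1).trans q012) (h0 0 2) q023 q024 q025 q026 q027)
      (all8 (zB 0 3) ((hsym 0 3 1).trans q013) ((hsym 0 3 2).trans q023) (h0 0 3) q034 q035 q036
        q037)
      (all8 (zB 0 4) ((hsym 0 4 1).trans q014) ((hsym 0 4 2).trans q024) ((hsym 0 4 3).trans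
        q034) (h0 0 4) q045 q046 q047)
      (all8 (zB 0 5) ((hsym 0 5 1).trans q015) ((hsym 0 5 2).trans q025) ((hsym 0 5 3).trans
        q035) ((hsym 0 5 4).trans q045) (h0 0 5) q056 q057)
      (all8 (zB 0 6) ((hsym 0 6 1).trans q016) ((hsym 0 6 2).trans q026) ((hsym 0 6 3).trans
        q036) ((hsym 0 6 4).trans q046) ((hsym 0 6 5).trans q056) (h0 0 6) q067)
      (all8 (zB 0 7) ((hsym 0 7 1).trans q017) ((hsym 0 7 2).trans q027) ((hsym 0 7 3).trans
        q037) ((hsym 0 7 4).trans q047) ((hsym 0 7 5).trans q057) ((hsym 0 7 6).trans q067) (h0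
        0 7)))
    (all8
      (all8 (h0 1 0) (zB 1 0) q102 q103 q104 q105 q106 q107)
      (all8 (zA 1 0) (h0 1 1) (zA 1 2) (zA 1 3) (zA 1 4) (zA 1 5) (zA 1 6) (zA 1 7))
      (all8 ((hsym 1 2 0).trans q102) (zB 1 2) (h0 1 2) q123 q124 q125 q126 q127)
      (all8 ((hsym 1 3 0).trans q103) (zB 1 3) ((hsym 1 3 2).trans q123) (h0 1 3) q134 q135 q136
        q137)
      (all8 ((hsym 1 4 0).trans q104) (zB 1 4) ((hsym 1 4 2).trans q124) ((hsym 1 4 3).trans
        q134) (h0 1 4) q145 q146 q147)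
      (all8 ((hsym 1 5 0).trans q105) (zB 1 5) ((hsym 1 5 2).trans q125) ((hsym 1 5 3).trans
        q135) ((hsym 1 5 4).trans q145) (h0 1 5) q156 q157)
      (all8 ((hsym 1 6 0).trans q106) (zB 1 6) ((hsym 1 6 2).trans q126) ((hsym 1 6 3).trans
        q136) ((hsym 1 6 4).trans q146) ((hsym 1 6 5).trans q156) (h0 1 6) q167)
      (all8 ((hsym 1 7 0).trans q107) (zB 1 7) ((hsym 1 7 2).trans q127) ((hsym 1 7 3).trans
        q137) ((hsym 1 7 4).trans q147) ((hsym 1 7 5).trans q157) ((hsym 1 7 6).trans q167) (h0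
        1 7)))
    (all8
      (all8 (h0 2 0) q201 (zB 2 0) q203 q204 q205 q206 q207)
      (all8 ((hsym 2 1 0).trans q201) (h0 2 1) (zB 2 1) q213 q214 q215 q216 q217)
      (all8 (zA 2 0) (zA 2 1) (h0 2 2) (zA 2 3) (zA 2 4) (zA 2 5) (zA 2 6) (zA 2 7))
      (all8 ((hsym 2 3 0).trans q203) ((hsym 2 3 1).trans q213) (zB 2 3) (h0 2 3) q234 q235 q236
        q237)
      (all8 ((hsym 2 4 0).trans q204) ((hsym 2 4 1).trans q214) (zB 2 4) ((hsym 2 4 3).trans
        q234) (h0 2 4) q245 q246 q247)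
      (all8 ((hsym 2 5 0).trans q205) ((hsym 2 5 1).trans q215) (zB 2 5) ((hsym 2 5 3).trans
        q235) ((hsym 2 5 4).trans q245) (h0 2 5) q256 q257)
      (all8 ((hsym 2 6 0).trans q206) ((hsym 2 6 1).trans q216) (zB 2 6) ((hsym 2 6 3).trans
        q236) ((hsym 2 6 4).trans q246) ((hsym 2 6 5).trans q256) (h0 2 6) q267)
      (all8 ((hsym 2 7 0).trans q207) ((hsym 2 7 1).trans q217) (zB 2 7) ((hsym 2 7 3).trans
        q237) ((hsym 2 7 4).trans q247) ((hsym 2 7 5).trans q257) ((hsym 2 7 6).trans q267) (h0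
        2 7)))
    (all8
      (all8 (h0 3 0) q301 q302 (zB 3 0) q304 q305 q306 q307)
      (all8 ((hsym 3 1 0).trans q301) (h0 3 1) q312 (zB 3 1) q314 q315 q316 q317)
      (all8 ((hsym 3 2 0).trans q302) ((hsym 3 2 1).trans q312) (h0 3 2) (zB 3 2) q324 q325 q326
        q327)
      (all8 (zA 3 0) (zA 3 1) (zA 3 2) (h0 3 3) (zA 3 4) (zA 3 5) (zA 3 6) (zA 3 7))
      (all8 ((hsym 3 4 0).trans q304) ((hsym 3 4 1).trans q314) ((hsym 3 4 2).trans q324) (zB 3
        4) (h0 3 4) q345 q346 q347)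
      (all8 ((hsym 3 5 0).trans q305) ((hsym 3 5 1).trans q315) ((hsym 3 5 2).trans q325) (zB 3
        5) ((hsym 3 5 4).trans q345) (h0 3 5) q356 q357)
      (all8 ((hsym 3 6 0).trans q306) ((hsym 3 6 1).trans q316) ((hsym 3 6 2).trans q326) (zB 3
        6) ((hsym 3 6 4).trans q346) ((hsym 3 6 5).trans q356) (h0 3 6) q367)
      (all8 ((hsym 3 7 0).trans q307) ((hsym 3 7 1).trans q317) ((hsym 3 7 2).trans q327) (zB 3
        7) ((hsym 3 7 4).trans q347) ((hsym 3 7 5).trans q357) ((hsym 3 7 6).trans q367) (h0 3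
        7)))
    (all8
      (all8 (h0 4 0) q401 q402 q403 (zB 4 0) q405 q406 q407)
      (all8 ((hsym 4 1 0).trans q401) (h0 4 1) q412 q413 (zB 4 1) q415 q416 q417)
      (all8 ((hsym 4 2 0).trans q402) ((hsym 4 2 1).trans q412) (h0 4 2) q423 (zB 4 2) q425 q426
        q427)
      (all8 ((hsym 4 3 0).trans q403) ((hsym 4 3 1).trans q413) ((hsym 4 3 2).trans q423) (h0 4
        3) (zB 4 3) q435 q436 q437)
      (all8 (zA 4 0) (zA 4 1) (zA 4 2) (zA 4 3) (h0 4 4) (zA 4 5) (zA 4 6) (zA 4 7))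
      (all8 ((hsym 4 5 0).trans q405) ((hsym 4 5 1).trans q415) ((hsym 4 5 2).trans q425) ((hsym
        4 5 3).trans q435) (zB 4 5) (h0 4 5) q456 q457)
      (all8 ((hsym 4 6 0).trans q406) ((hsym 4 6 1).trans q416) ((hsym 4 6 2).trans q426) ((hsym
        4 6 3).trans q436) (zB 4 6) ((hsym 4 6 5).trans q456) (h0 4 6) q467)
      (all8 ((hsym 4 7 0).trans q407) ((hsym 4 7 1).trans q417) ((hsym 4 7 2).trans q427) ((hsym
        4 7 3).trans q437) (zB 4 7) ((hsym 4 7 5).trans q457) ((hsym 4 7 6).trans q467) (h0 4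
        7)))
    (all8
      (all8 (h0 5 0) q501 q502 q503 q504 (zB 5 0) q506 q507)
      (all8 ((hsym 5 1 0).trans q501) (h0 5 1) q512 q513 q514 (zB 5 1) q516 q517)
      (all8 ((hsym 5 2 0).trans q502) ((hsym 5 2 1).trans q512) (h0 5 2) q523 q524 (zB 5 2) q526
        q527)
      (all8 ((hsym 5 3 0).trans q503) ((hsym 5 3 1).trans q513) ((hsym 5 3 2).trans q523) (h0 5
        3) q534 (zB 5 3) q536 q537)
      (all8 ((hsym 5 4 0).trans q504) ((hsym 5 4 1).trans q514) ((hsym 5 4 2).trans q524) ((hsym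
        5 4 3).trans q534) (h0 5 4) (zB 5 4) q546 q547)
      (all8 (zA 5 0) (zA 5 1) (zA 5 2) (zA 5 3) (zA 5 4) (h0 5 5) (zA 5 6) (zA 5 7))
      (all8 ((hsym 5 6 0).trans q506) ((hsym 5 6 1).trans q516) ((hsym 5 6 2).trans q526) ((hsym
        5 6 3).trans q536) ((hsym 5 6 4).trans q546) (zB 5 6) (h0 5 6) q567)
      (all8 ((hsym 5 7 0).trans q507) ((hsym 5 7 1).trans q517) ((hsym 5 7 2).trans q527) ((hsym
        5 7 3).trans q537) ((hsym 5 7 4).trans q547) (zB 5 7) ((hsym 5 7 6).trans q567) (h0 5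
        7)))
    (all8
      (all8 (h0 6 0) q601 q602 q603 q604 q605 (zB 6 0) q607)
      (all8 ((hsym 6 1 0).trans q601) (h0 6 1) q612 q613 q614 q615 (zB 6 1) q617)
      (all8 ((hsym 6 2 0).trans q602) ((hsym 6 2 1).trans q612) (h0 6 2) q623 q624 q625 (zB 6 2)
        q627)
      (all8 ((hsym 6 3 0).trans q603) ((hsym 6 3 1).trans q613) ((hsym 6 3 2).trans q623) (h0 6
        3) q634 q635 (zB 6 3) q637)
      (all8 ((hsym 6 4 0).trans q604) ((hsym 6 4 1).trans q614) ((hsym 6 4 2).trans q624) ((hsym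
        6 4 3).trans q634) (h0 6 4) q645 (zB 6 4) q647)
      (all8 ((hsym 6 5 0).trans q605) ((hsym 6 5 1).trans q615) ((hsym 6 5 2).trans q625) ((hsym
        6 5 3).trans q635) ((hsym 6 5 4).trans q645) (h0 6 5) (zB 6 5) q657)
      (all8 (zA 6 0) (zA 6 1) (zA 6 2) (zA 6 3) (zA 6 4) (zA 6 5) (h0 6 6) (zA 6 7))
      (all8 ((hsym 6 7 0).trans q607) ((hsym 6 7 1).trans q617) ((hsym 6 7 2).trans q627) ((hsym
        6 7 3).trans q637) ((hsym 6 7 4).trans q647) ((hsym 6 7 5).trans q657) (zB 6 7) (h0 6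
        7)))
    (all8
      (all8 (h0 7 0) q701 q702 q703 q704 q705 q706 (zB 7 0))
      (all8 ((hsym 7 1 0).trans q701) (h0 7 1) q712 q713 q714 q715 q716 (zB 7 1))
      (all8 ((hsym 7 2 0).trans q702) ((hsym 7 2 1).trans q712) (h0 7 2) q723 q724 q725 q726 (zB
        7 2))
      (all8 ((hsym 7 3 0).trans q703) ((hsym 7 3 1).trans q713) ((hsym 7 3 2).trans q723) (h0 7
        3) q734 q735 q736 (zB 7 3))
      (all8 ((hsym 7 4 0).trans q704) ((hsym 7 4 1).trans q714) ((hsym 7 4 2).trans q724) ((hsym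
        7 4 3).trans q734) (h0 7 4) q745 q746 (zB 7 4))
      (all8 ((hsym 7 5 0).trans q705) ((hsym 7 5 1).trans q715) ((hsym 7 5 2).trans q725) ((hsym
        7 5 3).trans q735) ((hsym 7 5 4).trans q745) (h0 7 5) q756 (zB 7 5))
      (all8 ((hsym 7 6 0).trans q706) ((hsym 7 6 1).trans q716) ((hsym 7 6 2).trans q726) ((hsym
        7 6 3).trans q736) ((hsym 7 6 4).trans q746) ((hsym 7 6 5).trans q756) (h0 7 6) (zB 7
        6))
      (all8 (zA 7 0) (zA 7 1) (zA 7 2) (zA 7 3) (zA 7 4) (zA 7 5) (zA 7 6) (h0 7 7)))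

end Pool.Agent.H77.PG
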