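import Mathlib
import Pool.Agent.H77.PG.Base

/-!
# `K_{1,2} = 0` from `K_{2,1} = 0` in genus 8, by counting dimensions

The Koszul complex `⋀³ V → ⋀² V ⊗ V → V ⊗ H⁰ (L²) → H⁰ (L³)` has dimensions `35, 147, 147, 35` (helper77).
-/

set_option autoImplicit false

namespace Pool.Agent.H77.PG

open Polynomial TensorProduct

noncomputable section

section Values

variable {g : ℕ} (a b : Fin g → ℂ) (t : Fin g → ℂˣ)

lemma dif_mem (hg : 1 ≤ g) (i j : Fin g) (h : t i = t j) :
    el a b t i - el a b t j ∈ sect a b t 1 := by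
  have h1 := comb_mem a b t hg (fun k => (if k = i then 1 else 0) - (if k = j then 1 else 0)) (by
    simp only [mul_sub, Finset.sum_sub_distrib, mul_ite, mul_one, mul_zero,
      Finset.sum_ite_eq', Finset.mem_univ, if_true]
    rw [h]; ring)
  simpa only [sub_smul, Finset.sum_sub_distrib, ite_smul, one_smul, zero_smul,
    Finset.sum_ite_eq', Finset.mem_univ, if_true] using h1

lemma one_mem (hg : 1 ≤ g) (k : Fin g) (h : t k = 1) : el a b t k ∈ sect a b t 1 := by
  have h1 := comb_mem a b t hg (fun i => if i = k then 1 else 0) (by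
    simp only [mul_ite, mul_one, mul_zero, Finset.sum_ite_eq', Finset.mem_univ, if_true]
    rw [h]; simp)
  simpa only [ite_smul, one_smul, zero_smul, Finset.sum_ite_eq', Finset.mem_univ,
    if_true] using h1

lemma node_monic : (nodePoly a b).Monic :=
  monic_prod_of_monic _ _ fun _ _ => (monic_X_sub_C _).mul (monic_X_sub_C _)

lemma node_natDegree : (nodePoly a b).natDegree = 2 * g := by
  rw [nodePoly, natDegree_prod_of_monic _ _ fun j _ => (monic_X_sub_C _).mul (monic_X_sub_C _)]
  rw [Finset.sum_congr rfl (g := fun _ => 2) fun j _ => by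
    rw [(monic_X_sub_C _).natDegree_mul (monic_X_sub_C _)]; simp]
  simp [mul_comm]

/-- `D Q` is a section of `L²`. -/
lemma node_mul_mem (Q : ℂ[X]) (hQ : Q.natDegree ≤ (1 + 1) * (2 * g - 2) - 2 * g)
    (hg : 2 ≤ g) : nodePoly a b * Q ∈ sect a b t (1 + 1) := by
  refine ⟨natDegree_mul_le.trans ?_, fun i => ?_⟩
  · rw [node_natDegree]
    omega
  · rw [eval_mul, eval_mul, node_a, node_b]
    ring

/-- The product space `H⁰ (L) · H⁰ (L²)`. -/
abbrev prodSpace : Submodule ℂ ℂ[X] :=
  LinearMap.range (Submodule.mulMap (sect a b t 1) (sect a b t (1 + 1)))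

lemma mul_mem_prod {x y : ℂ[X]} (hx : x ∈ sect a b t 1) (hy : y ∈ sect a b t (1 + 1)) :
    x * y ∈ prodSpace a b t :=
  ⟨(⟨x, hx⟩ : sect a b t 1) ⊗ₜ[ℂ] (⟨y, hy⟩ : sect a b t (1 + 1)), Submodule.mulMap_tmul _ _ _ _⟩

lemma node_prod (hg : 2 ≤ g) {x Q : ℂ[X]} (hx : x ∈ sect a b t 1)
    (hQ : Q.natDegree ≤ (1 + 1) * (2 * g - 2) - 2 * g) :
    nodePoly a b * (x * Q) ∈ prodSpace a b t := by
  have h := mul_mem_prod a b t hx (node_mul_mem a b t Q hQ hg)
  rwa [show x * (nodePoly a b * Q) = nodePoly a b * (x * Q) by ring] at h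

variable (hv : Function.Injective (Sum.elim a b))

include hv

/-- A polynomial which vanishes at all points over the nodes is divisible by `D`. -/
lemma node_dvd (F : ℂ[X]) (ha : ∀ i, F.eval (a i) = 0) (hb : ∀ i, F.eval (b i) = 0) :
    ∃ G : ℂ[X], F = nodePoly a b * G ∧ G.natDegree = F.natDegree - 2 * g := by
  have hm := node_monic a b
  refine ⟨F /ₘ nodePoly a b, ?_, by rw [natDegree_divByMonic _ hm, node_natDegree]⟩
  have h := modByMonic_add_div F (nodePoly a b)
  have hr : F %ₘ nodePoly a b = 0 := by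
    refine uniq a b hv ?_ (fun i => ?_) fun i => ?_
    · have := degree_modByMonic_lt F hm
      rwa [degree_eq_natDegree hm.ne_zero, node_natDegree] at this
    · have h1 := congrArg (eval (a i)) h
      rw [eval_add, eval_mul, node_a, zero_mul, add_zero, ha] at h1
      exact h1
    · have h1 := congrArg (eval (b i)) h
      rw [eval_add, eval_mul, node_b, zero_mul, add_zero, hb] at h1
      exact h1
  rw [hr, zero_add] at h
  exact h.symm

end Values

section Eight

variable (a b : Fin 8 → ℂ) (t : Fin 8 → ℂˣ)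
  (hv : Function.Injective (Sum.elim a b)) (k0 : Fin 8) (hk0 : t k0 = 1)
  (s s' : Fin 8 → Fin 8) (hs : ∀ i, s i ≠ i) (hst : ∀ i, t i = t (s i))
  (hs' : ∀ i, s' i ≠ i) (hst' : ∀ i, t i = t (s' i)) (hss : ∀ i, s' i ≠ s i)

include hv hs hst

lemma local_a (i : Fin 8) : ∃ x Q : ℂ[X], x ∈ sect a b t 1 ∧ Q.natDegree ≤ 3 ∧
    (x * Q).eval (a i) ≠ 0 ∧ (∀ j, j ≠ i → (x * Q).eval (a j) = 0) ∧
    ∀ j, (x * Q).eval (b j) = 0 := by
  refine ⟨el a b t i - el a b t (s i), (X - C (b i)) * (X - C (a (s i))) * (X - C (b (s i))),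
    dif_mem a b t (by norm_num) _ _ (hst i), by compute_degree, ?_, fun j hj => ?_, fun j => ?_⟩
  · rw [eval_mul, eval_sub, el_a, el_a' a b t (hs i).symm, sub_zero]
    simp only [eval_mul, eval_sub, eval_X, eval_C]
    exact mul_ne_zero (der_a_ne a b hv i) (mul_ne_zero (mul_ne_zero (ne_ab a b hv i i)
      (ne_aa a b hv (hs i).symm)) (ne_ab a b hv i (s i)))
  · rcases eq_or_ne j (s i) with rfl | h
    · simp
    · rw [eval_mul, eval_sub, el_a' a b t hj, el_a' a b t h]; simp
  · rcases eq_or_ne j (s i) with rfl | h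
    · simp
    · rcases eq_or_ne j i with rfl | h'
      · simp
      · rw [eval_mul, eval_sub, el_b' a b t h', el_b' a b t h]; simp

lemma local_b (i : Fin 8) : ∃ x Q : ℂ[X], x ∈ sect a b t 1 ∧ Q.natDegree ≤ 3 ∧
    (x * Q).eval (b i) ≠ 0 ∧ (∀ j, j ≠ i → (x * Q).eval (b j) = 0) ∧
    ∀ j, (x * Q).eval (a j) = 0 := by
  refine ⟨el a b t i - el a b t (s i), (X - C (a i)) * (X - C (a (s i))) * (X - C (b (s i))),
    dif_mem a b t (by norm_num) _ _ (hst i), by compute_degree, ?_, fun j hj => ?_, fun j => ?_⟩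
  · rw [eval_mul, eval_sub, el_b, el_b' a b t (hs i).symm, sub_zero]
    simp only [eval_mul, eval_sub, eval_X, eval_C]
    exact mul_ne_zero (mul_ne_zero (neg_ne_zero.2 (t i).ne_zero) (der_b_ne a b hv i))
      (mul_ne_zero (mul_ne_zero (ne_ba a b hv i i)
      (ne_ba a b hv i (s i))) (ne_bb a b hv (hs i).symm))
  · rcases eq_or_ne j (s i) with rfl | h
    · simp
    · rw [eval_mul, eval_sub, el_b' a b t hj, el_b' a b t h]; simp
  · rcases eq_or_ne j (s i) with rfl | h
    · simp
    · rcases eq_or_ne j i with rfl | h'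
      · simp
      · rw [eval_mul, eval_sub, el_a' a b t h', el_a' a b t h]; simp

include hk0

/-- `D F` lies in `H⁰ (L) · H⁰ (L²)` for all `F` of degree at most 26. -/
lemma node_all (F : ℂ[X]) (hF : F.natDegree ≤ 26) : nodePoly a b * F ∈ prodSpace a b t := by
  choose xa Qa h1 h2 h3 h4 h5 using local_a a b t hv s hs hst
  choose xb Qb k1 k2 k3 k4 k5 using local_b a b t hv s hs hst
  have dx : ∀ x ∈ sect a b t 1, ∀ Q : ℂ[X], Q.natDegree ≤ 3 → (x * Q).natDegree ≤ 26 :=
    fun x hx Q hQ => natDegree_mul_le.trans (by have := hx.1; omega)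
  set S : ℂ[X] := ∑ i, (F.eval (a i) / (xa i * Qa i).eval (a i)) • (xa i * Qa i) +
    ∑ i, (F.eval (b i) / (xb i * Qb i).eval (b i)) • (xb i * Qb i) with hS
  have hSa : ∀ j, S.eval (a j) = F.eval (a j) := fun j => by
    rw [hS, eval_add, eval_finsetSum, eval_finsetSum, Finset.sum_eq_single j, eval_smul,
      smul_eq_mul, div_mul_cancel₀ _ (h3 j), Finset.sum_eq_zero fun i _ => by
        rw [eval_smul, k5, smul_zero], add_zero]
    · intro i _ hi
      rw [eval_smul, h4 i j hi.symm, smul_zero]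
    · simp
  have hSb : ∀ j, S.eval (b j) = F.eval (b j) := fun j => by
    rw [hS, eval_add, eval_finsetSum, eval_finsetSum, Finset.sum_eq_zero fun i _ => by
        rw [eval_smul, h5, smul_zero], Finset.sum_eq_single j, eval_smul,
      smul_eq_mul, div_mul_cancel₀ _ (k3 j), zero_add]
    · intro i _ hi
      rw [eval_smul, k4 i j hi.symm, smul_zero]
    · simp
  have hSd : S.natDegree ≤ 26 := by
    refine (natDegree_add_le _ _).trans (max_le ?_ ?_)
    · exact natDegree_sum_le_of_forall_le _ _ fun i _ =>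
        (natDegree_smul_le _ _).trans (dx _ (h1 i) _ (h2 i))
    · exact natDegree_sum_le_of_forall_le _ _ fun i _ =>
        (natDegree_smul_le _ _).trans (dx _ (k1 i) _ (k2 i))
  have hSm : nodePoly a b * S ∈ prodSpace a b t := by
    rw [hS, mul_add, Finset.mul_sum, Finset.mul_sum]
    refine Submodule.add_mem _ (Submodule.sum_mem _ fun i _ => ?_)
      (Submodule.sum_mem _ fun i _ => ?_)
    · rw [mul_smul_comm]
      exact Submodule.smul_mem _ _ (node_prod a b t (by norm_num) (h1 i)
        ((h2 i).trans (by norm_num)))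
    · rw [mul_smul_comm]
      exact Submodule.smul_mem _ _ (node_prod a b t (by norm_num) (k1 i)
        ((k2 i).trans (by norm_num)))
  obtain ⟨G, hG, hGd⟩ := node_dvd a b hv (F - S) (fun i => by rw [eval_sub, hSa, sub_self])
    fun i => by rw [eval_sub, hSb, sub_self]
  have hGd' : G.natDegree ≤ 10 := by
    rw [hGd]
    have := natDegree_sub_le F S
    omega
  have hne : a k0 - b k0 ≠ 0 := ne_ab a b hv k0 k0
  have hel : nodePoly a b * G = el a b t k0 *
      (C (a k0 - b k0)⁻¹ * ((X - C (a k0)) * (X - C (b k0)) * G)) := by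
    have e1 : num a b t k0 = C (a k0 - b k0) := by
      rw [num, hk0, C_sub]; simp
    have e2 : C (a k0 - b k0) * C (a k0 - b k0)⁻¹ = (1 : ℂ[X]) := by
      rw [← C_mul, mul_inv_cancel₀ hne, C_1]
    rw [el, e1, nodePoly_eq a b k0]
    linear_combination -(rest a b k0 * (X - C (a k0)) * (X - C (b k0)) * G) * e2
  have hFS : F = S + nodePoly a b * G := by rw [← hG]; ring
  rw [hFS, mul_add]
  refine Submodule.add_mem _ hSm ?_
  rw [hel]
  refine node_prod a b t (by norm_num) (one_mem a b t (by norm_num) k0 hk0) ?_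
  refine natDegree_mul_le.trans ?_
  rw [natDegree_C, zero_add]
  refine natDegree_mul_le.trans ?_
  have : ((X - C (a k0)) * (X - C (b k0)) : ℂ[X]).natDegree ≤ 2 := by compute_degree
  omega

include hs' hst' hss

/-- The space `H⁰ (L) · H⁰ (L²)` has dimension at least 35. -/
lemma prod_family : ∃ f : Fin 27 ⊕ Fin 8 → ℂ[X], LinearIndependent ℂ f ∧
    ∀ i, f i ∈ prodSpace a b t := by
  let u : Fin 8 → ℂ[X] := fun i => (el a b t i - el a b t (s i)) *
    ((el a b t i - el a b t (s' i)) * (el a b t i - el a b t (s' i)))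
  have hu : ∀ i, u i ∈ prodSpace a b t := fun i =>
    mul_mem_prod a b t (dif_mem a b t (by norm_num) _ _ (hst i))
      (mul_mem_sect a b t (dif_mem a b t (by norm_num) _ _ (hst' i))
        (dif_mem a b t (by norm_num) _ _ (hst' i)))
  have hui : ∀ i, (u i).eval (a i) ≠ 0 := fun i => by
    simp only [u, eval_mul, eval_sub, el_a, el_a' a b t (hs i).symm, el_a' a b t (hs' i).symm,
      sub_zero]
    have h := der_a_ne a b hv i
    exact mul_ne_zero h (mul_ne_zero h h)
  have huj : ∀ i j, j ≠ i → (u i).eval (a j) = 0 := fun i j hj => by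
    simp only [u, eval_mul, eval_sub, el_a' a b t hj, zero_sub]
    rcases eq_or_ne j (s i) with rfl | h
    · rw [el_a' a b t (hss i).symm]; simp
    · rw [el_a' a b t h]; simp
  refine ⟨Sum.elim (fun m => nodePoly a b * X ^ m.val) u, ?_, ?_⟩
  · rw [Fintype.linearIndependent_iff]
    intro c hc
    rw [Fintype.sum_sum_type] at hc
    simp only [Sum.elim_inl, Sum.elim_inr] at hc
    have hd : ∀ j, c (Sum.inr j) = 0 := fun j => by
      have h := congrArg (eval (a j)) hc
      rw [eval_add, eval_finsetSum, eval_finsetSum, Finset.sum_eq_zero fun m _ => by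
        rw [eval_smul, eval_mul, node_a, zero_mul, smul_zero], zero_add,
        Finset.sum_eq_single j (fun i _ hi => by rw [eval_smul, huj i j hi.symm, smul_zero])
          (by simp), eval_smul, eval_zero, smul_eq_mul] at h
      exact (mul_eq_zero.1 h).resolve_right (hui j)
    simp only [hd, zero_smul, Finset.sum_const_zero, add_zero] at hc
    have hc' : nodePoly a b * ∑ m : Fin 27, c (Sum.inl m) • (X : ℂ[X]) ^ m.val = 0 := by
      rw [Finset.mul_sum, ← hc]
      exact Finset.sum_congr rfl fun m _ => mul_smul_comm _ _ _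
    have h0 := (mul_eq_zero.1 hc').resolve_left (node_monic a b).ne_zero
    intro i
    rcases i with m | j
    · have h := congrArg (fun p => coeff p m.val) h0
      simp only [finsetSum_coeff, coeff_smul, coeff_X_pow, smul_eq_mul, coeff_zero] at h
      rw [Finset.sum_eq_single m (fun i _ hi => by
        rw [if_neg (fun e => hi (Fin.ext e.symm)), mul_zero]) (by simp), if_pos rfl,
        mul_one] at h
      exact h
    · exact hd j
  · rintro (m | j)
    · exact node_all a b t hv k0 hk0 s hs hst _ ((natDegree_X_pow_le _).trans (by omega))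
    · exact hu j

end Eight

/-- The linear algebra of the count. -/
theorem lin_count {M M' : Type} [AddCommGroup M] [Module ℂ M] [AddCommGroup M'] [Module ℂ M']
    (d : M →ₗ[ℂ] M') (N : Submodule ℂ M) [Module.Finite ℂ M]
    (hM : Module.finrank ℂ M ≤ 147) {ι κ : Type} [Fintype ι] [Fintype κ]
    (hι : Fintype.card ι = 35) (hκ : Fintype.card κ = 112)
    (f : ι → M') (hf : LinearIndependent ℂ f) (hfd : ∀ i, f i ∈ LinearMap.range d)
    (h : κ → M) (hh : ∀ c : κ → ℂ, ∑ i, c i • h i = 0 → ∀ i, c i = 0)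
    (hhN : ∀ i, h i ∈ N) (hk : N ≤ LinearMap.ker d) :
    LinearMap.ker d ≤ N := by
  have h1 : 35 ≤ Module.finrank ℂ (LinearMap.range d) := by
    have hli : LinearIndependent ℂ fun i => (⟨f i, hfd i⟩ : LinearMap.range d) :=
      LinearIndependent.of_comp (LinearMap.range d).subtype hf
    rw [← hι]
    exact hli.fintype_card_le_finrank
  have h2 : 112 ≤ Module.finrank ℂ N := by
    have hli : LinearIndependent ℂ fun i => (⟨h i, hhN i⟩ : N) :=
      LinearIndependent.of_comp N.subtype (Fintype.linearIndependent_iff.2 hh)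
    rw [← hκ]
    exact hli.fintype_card_le_finrank
  have h3 := d.finrank_range_add_finrank_ker
  exact (Submodule.eq_of_le_of_finrank_le hk (by omega)).ge

/-- The index set of the `112` tensors. -/
abbrev Ix3 : Type := {p : Fin 7 × Fin 7 × Fin 7 // p.1 < p.2.1 ∧ p.2.2 ≤ p.2.1}

set_option maxRecDepth 100000 in
lemma card_ix3 : Fintype.card Ix3 = 112 := by decide

section Final

variable (a b : Fin 8 → ℂ) (t : Fin 8 → ℂˣ)
  (hv : Function.Injective (Sum.elim a b)) {e : Fin 8} (he : t e ≠ 1)

/-- The tensors `(v_i ⊗ v_j) ⊗ v_k`. -/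
def ten (p : Ix3) : (sect a b t 1 ⊗[ℂ] sect a b t 1) ⊗[ℂ] sect a b t 1 :=
  (bas a b t (by norm_num) he (e.succAbove p.1.1) ⊗ₜ[ℂ]
    bas a b t (by norm_num) he (e.succAbove p.1.2.1)) ⊗ₜ[ℂ]
    bas a b t (by norm_num) he (e.succAbove p.1.2.2)

include hv

lemma aco_ten (i j k : Fin 7) (p : Ix3) :
    aco a b t (e.succAbove i) (e.succAbove j) (e.succAbove k) (ten a b t he p) =
      ((if i = p.1.1 then 1 else 0) * (if j = p.1.2.1 then 1 else 0) -
        (if i = p.1.2.1 then 1 else 0) * (if j = p.1.1 then 1 else 0)) *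
        (if k = p.1.2.2 then 1 else 0) := by
  rw [ten, aco_tmul]
  simp only [res_bas' a b t hv _ he _ (Fin.succAbove_ne e _), Fin.succAbove_right_inj]

/-- The Koszul images of the `112` tensors are linearly independent. -/
lemma kos_indep
    (H : ∀ τ, kos a b t τ = 0 → ∀ i j k, aco a b t i j k τ + aco a b t i k j τ = 0)
    (c : Ix3 → ℂ) (hc : kos a b t (∑ p, c p • ten a b t he p) = 0) (p : Ix3) : c p = 0 := by
  set τ := ∑ p, c p • ten a b t he p with hτ
  set A : Fin 7 → Fin 7 → Fin 7 → ℂ := fun i j k =>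
    aco a b t (e.succAbove i) (e.succAbove j) (e.succAbove k) τ with hA
  have h1 : ∀ i j k, A i j k = -A i k j := fun i j k => eq_neg_of_add_eq_zero_left (H τ hc _ _ _)
  have h2 : ∀ i j k, A i j k = -A j i k := fun i j k => by
    simp only [hA]
    rw [aco_anti a b t (e.succAbove i)]; rfl
  have h3 : ∀ i j k, A i j k = ∑ p, c p *
      (((if i = p.1.1 then 1 else 0) * (if j = p.1.2.1 then 1 else 0) -
        (if i = p.1.2.1 then 1 else 0) * (if j = p.1.1 then 1 else 0)) *
        (if k = p.1.2.2 then 1 else 0)) := fun i j k => by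
    simp only [hA, hτ, map_sum, map_smul, smul_eq_mul, aco_ten a b t hv he]
  -- a coefficient outside of the index set vanishes
  have h4 : ∀ i j k, i < j → j < k → A i j k = 0 := fun i j k hij hjk => by
    rw [h3]
    refine Finset.sum_eq_zero fun q _ => ?_
    have hq := q.2
    have e1 : ((if i = q.1.1 then (1 : ℂ) else 0) * (if j = q.1.2.1 then 1 else 0)) *
        (if k = q.1.2.2 then 1 else 0) = 0 := by
      split_ifs with c1 c2 c3
      · exact absurd hjk (by rw [c2, c3]; exact not_lt.2 hq.2)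
      all_goals simp
    have e2 : ((if i = q.1.2.1 then (1 : ℂ) else 0) * (if j = q.1.1 then 1 else 0)) = 0 := by
      split_ifs with c1 c2
      · exact absurd hq.1 (by rw [← c1, ← c2]; exact not_lt.2 hij.le)
      all_goals simp
    linear_combination c q * e1 - c q * (if k = q.1.2.2 then 1 else 0) * e2
  have h5 : A p.1.1 p.1.2.1 p.1.2.2 = c p := by
    rw [h3, Finset.sum_eq_single p]
    · have hne : p.1.1 ≠ p.1.2.1 := p.2.1.ne
      simp [hne]
    · intro q _ hq
      have e2 : ((if p.1.1 = q.1.2.1 then (1 : ℂ) else 0) *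
          (if p.1.2.1 = q.1.1 then 1 else 0)) = 0 := by
        split_ifs with c1 c2
        · exact absurd q.2.1 (by rw [← c1, ← c2]; exact not_lt.2 p.2.1.le)
        all_goals simp
      have e1 : ((if p.1.1 = q.1.1 then (1 : ℂ) else 0) *
          (if p.1.2.1 = q.1.2.1 then 1 else 0)) * (if p.1.2.2 = q.1.2.2 then 1 else 0) = 0 := by
        split_ifs with c1 c2 c3
        · exact absurd (Subtype.ext (Prod.ext c1.symm (Prod.ext c2.symm c3.symm))) hq
        all_goals simp
      linear_combination c q * e1 - c q * (if p.1.2.2 = q.1.2.2 then 1 else 0) * e2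
    · simp
  rw [← h5]
  obtain ⟨hij, hkj⟩ := p.2
  generalize p.1.1 = i at hij ⊢
  generalize p.1.2.1 = j at hij hkj ⊢
  generalize p.1.2.2 = k at hkj ⊢
  rcases lt_trichotomy k i with hki | hki | hki
  · have e1 := h4 k i j hki hij
    have e2 := h1 i j k
    have e3 := h2 i k j
    linear_combination e2 - e3 + e1
  · subst hki
    have e2 := h1 k j k
    have e3 := h2 k k j
    linear_combination e2 - (1 / 2) * e3
  · rcases eq_or_lt_of_le hkj with hkj | hkj
    · subst hkj
      have e2 := h1 i k k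
      linear_combination (1 / 2) * e2
    · have e1 := h4 i k j hki hkj
      have e2 := h1 i j k
      linear_combination e2 - e1

include he in
/-- `K_{1,2} = 0` from the vanishing of the symmetrised coefficients. -/
theorem vanish12_of (k0 : Fin 8) (hk0 : t k0 = 1)
    (s s' : Fin 8 → Fin 8) (hs : ∀ i, s i ≠ i) (hst : ∀ i, t i = t (s i))
    (hs' : ∀ i, s' i ≠ i) (hst' : ∀ i, t i = t (s' i)) (hss : ∀ i, s' i ≠ s i)
    (H : ∀ τ, kos a b t τ = 0 → ∀ i j k, aco a b t i j k τ + aco a b t i k j τ = 0) :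
    VanishK12 a b t := by
  obtain ⟨f, hf, hfr⟩ := prod_family a b t hv k0 hk0 s s' hs hst hs' hst' hss
  obtain ⟨fin1, dim1⟩ := sect1_finite a b t hv (by norm_num) he
  obtain ⟨fin2, dim2⟩ := sect_finite a b t hv (1 + 1) 13 (by norm_num)
  have hdim : Module.finrank ℂ (sect a b t 1 ⊗[ℂ] sect a b t (1 + 1)) ≤ 147 := by
    rw [Module.finrank_tensorProduct]
    calc _ ≤ 7 * 21 := Nat.mul_le_mul dim1 dim2
      _ = 147 := by norm_num
  have key := @lin_count (sect a b t 1 ⊗[ℂ] sect a b t (1 + 1)) ℂ[X] _ _ _ _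
    (Submodule.mulMap (sect a b t 1) (sect a b t (1 + 1))) (LinearMap.range (kos a b t)) _ hdim
    (Fin 27 ⊕ Fin 8) Ix3 _ _ (by simp) card_ix3 f hf hfr
    (fun p => kos a b t (ten a b t he p)) ?_ (fun p => ⟨_, rfl⟩) ?_
  · intro σ hσ
    have h1 : σ ∈ LinearMap.ker (Submodule.mulMap (sect a b t 1) (sect a b t (1 + 1))) := by
      rw [LinearMap.mem_ker]
      exact congrArg Subtype.val hσ
    exact key h1
  · intro c hc p
    refine kos_indep a b t hv he H c ?_ p
    rw [← hc, map_sum]
    exact Finset.sum_congr rfl fun q _ => map_smul _ _ _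
  · rintro _ ⟨τ, rfl⟩
    have e0 : Submodule.mulMap (sect a b t 1) (sect a b t (1 + 1)) ∘ₗ kos a b t = 0 := by
      refine ext3 a b t fun x y w => ?_
      rw [LinearMap.comp_apply, kos_tmul, map_add, Submodule.mulMap_tmul, Submodule.mulMap_tmul]
      change (x : ℂ[X]) * ((y : ℂ[X]) * (w : ℂ[X])) + (y : ℂ[X]) * -((x : ℂ[X]) * (w : ℂ[X])) = 0
      ring
    exact LinearMap.congr_fun e0 τ

end Final

end

end Pool.Agent.H77.PG
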