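import Mathlib
import Pool.Agent.H77.PG.Base
import Pool.Agent.H77.PG.Count
import Pool.Agent.H77.PG.Core

/-!
# The vanishing in genus 8

The nodes are `a = (2, -2, 3, -3, 1/2, -1/2, 12, -12)`, `b = (1, -1, 6, -6, 4, -4, 3/2, -3/2)` (orbits of the Klein group generated by
`x ↦ -x` and `x ↦ 6 / x`), the gluing factors are `(z, z, z, z, 1, 1, 1, 1)` (helper77).
-/

set_option autoImplicit false

namespace Pool.Agent.H77.PG

open Polynomial TensorProduct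

noncomputable section

/-- The numerators of the points `a_i` over 2. -/
def an8 : Fin 8 → ℤ := ![4, -4, 6, -6, 1, -1, 24, -24]

/-- The numerators of the points `b_i` over 2. -/
def bn8 : Fin 8 → ℤ := ![2, -2, 12, -12, 8, -8, 3, -3]

/-- The points `a_i`. -/
def a8 : Fin 8 → ℂ := fun i => (an8 i : ℂ) / 2

/-- The points `b_i`. -/
def b8 : Fin 8 → ℂ := fun i => (bn8 i : ℂ) / 2

/-- The gluing factors `(z, z, z, z, 1, 1, 1, 1)`. -/
abbrev mult8 (z : ℂˣ) : Fin 8 → ℂˣ := glue 8 4 z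

lemma inj8 : Function.Injective (Sum.elim a8 b8) := by
  have h : Function.Injective (Sum.elim an8 bn8) := by decide
  intro x y hxy
  apply h
  have e : ∀ x : Fin 8 ⊕ Fin 8, Sum.elim a8 b8 x = ((Sum.elim an8 bn8 x : ℤ) : ℂ) / 2 := by
    rintro (i | i) <;> rfl
  rw [e, e] at hxy
  have h2 : ((Sum.elim an8 bn8 x : ℤ) : ℂ) = ((Sum.elim an8 bn8 y : ℤ) : ℂ) := by
    linear_combination 2 * hxy
  exact_mod_cast h2

lemma a8_0 : a8 0 = 2 := by change ((4 : ℤ) : ℂ) / 2 = _; norm_num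
lemma b8_0 : b8 0 = 1 := by change ((2 : ℤ) : ℂ) / 2 = _; norm_num
lemma a8_1 : a8 1 = -2 := by change ((-4 : ℤ) : ℂ) / 2 = _; norm_num
lemma b8_1 : b8 1 = -1 := by change ((-2 : ℤ) : ℂ) / 2 = _; norm_num
lemma a8_2 : a8 2 = 3 := by change ((6 : ℤ) : ℂ) / 2 = _; norm_num
lemma b8_2 : b8 2 = 6 := by change ((12 : ℤ) : ℂ) / 2 = _; norm_num
lemma a8_3 : a8 3 = -3 := by change ((-6 : ℤ) : ℂ) / 2 = _; norm_num
lemma b8_3 : b8 3 = -6 := by change ((-12 : ℤ) : ℂ) / 2 = _; norm_num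
lemma a8_4 : a8 4 = 1 / 2 := by change ((1 : ℤ) : ℂ) / 2 = _; norm_num
lemma b8_4 : b8 4 = 4 := by change ((8 : ℤ) : ℂ) / 2 = _; norm_num
lemma a8_5 : a8 5 = -1 / 2 := by change ((-1 : ℤ) : ℂ) / 2 = _; norm_num
lemma b8_5 : b8 5 = -4 := by change ((-8 : ℤ) : ℂ) / 2 = _; norm_num
lemma a8_6 : a8 6 = 12 := by change ((24 : ℤ) : ℂ) / 2 = _; norm_num
lemma b8_6 : b8 6 = 3 / 2 := by change ((3 : ℤ) : ℂ) / 2 = _; norm_num
lemma a8_7 : a8 7 = -12 := by change ((-24 : ℤ) : ℂ) / 2 = _; norm_num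
lemma b8_7 : b8 7 = -3 / 2 := by change ((-3 : ℤ) : ℂ) / 2 = _; norm_num

/-- The explicit rows of the linear system. -/
theorem rows8 (z : ℂ) (t : Fin 8 → ℂ) (ht : ∀ i : Fin 8, t i = if i.val < 4 then z else 1)
    (T : Fin 8 → Fin 8 → Fin 8 → ℂ) (hsym : ∀ i j k, T i j k = T i k j) (h0 : ∀ i j, T i j j = 0)
    (hA : ∀ i j, ∑ k, T i j k *
      (((a8 j - b8 k) - t k * (a8 j - a8 k)) / ((a8 j - a8 k) * (a8 j - b8 k))) = 0)
    (hB : ∀ i j, ∑ k, T i j k *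
      (((b8 j - b8 k) - t k * (b8 j - a8 k)) / ((b8 j - a8 k) * (b8 j - b8 k))) = 0) :
    (∀ i, (210 - 280 * z) * T i 0 1 + (-840 + 210 * z) * T i 0 2 + (168 - 105 * z) * T i 0 3 +
      (980) * T i 0 4 + (196) * T i 0 5 + (-1764) * T i 0 6 + (-180) * T i 0 7 = 0) ∧
    (∀ i, (-210 + 280 * z) * T i 0 1 + (-168 + 105 * z) * T i 1 2 + (840 - 210 * z) * T i 1 3 +
      (-196) * T i 1 4 + (-980) * T i 1 5 + (180) * T i 1 6 + (1764) * T i 1 7 = 0) ∧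
    (∀ i, (1260 - 630 * z) * T i 0 2 + (252 - 315 * z) * T i 1 2 + (210 - 140 * z) * T i 2 3 +
      (1764) * T i 2 4 + (180) * T i 2 5 + (-980) * T i 2 6 + (-196) * T i 2 7 = 0) ∧
    (∀ i, (-252 + 315 * z) * T i 0 3 + (-1260 + 630 * z) * T i 1 3 + (-210 + 140 * z) * T i 2 3
      + (-180) * T i 3 4 + (-1764) * T i 3 5 + (196) * T i 3 6 + (980) * T i 3 7 = 0) ∧
    (∀ i, (-6906900 + 20720700 * z) * T i 0 4 + (4144140 - 6906900 * z) * T i 1 4 + (-4144140 +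
      1883700 * z) * T i 2 4 + (2960100 - 1593900 * z) * T i 3 4 + (8058050) * T i 4 5 +
      (9459450) * T i 4 6 + (-4351347) * T i 4 7 = 0) ∧
    (∀ i, (-4144140 + 6906900 * z) * T i 0 5 + (6906900 - 20720700 * z) * T i 1 5 + (-2960100 +
      1593900 * z) * T i 2 5 + (4144140 - 1883700 * z) * T i 3 5 + (-8058050) * T i 4 5 +
      (4351347) * T i 5 6 + (-9459450) * T i 5 7 = 0) ∧
    (∀ i, (24864840 - 22604400 * z) * T i 0 6 + (17760600 - 19126800 * z) * T i 1 6 + (27627600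
      - 41441400 * z) * T i 2 6 + (16576560 - 13813800 * z) * T i 3 6 + (-9459450) * T i 4 6 +
      (4351347) * T i 5 6 + (-8058050) * T i 6 7 = 0) ∧
    (∀ i, (-17760600 + 19126800 * z) * T i 0 7 + (-24864840 + 22604400 * z) * T i 1 7 +
      (-16576560 + 13813800 * z) * T i 2 7 + (-27627600 + 41441400 * z) * T i 3 7 + (-4351347) *
      T i 4 7 + (9459450) * T i 5 7 + (8058050) * T i 6 7 = 0) ∧
    (∀ i, (20020 - 30030 * z) * T i 0 1 + (-30030 + 12012 * z) * T i 0 2 + (15015 - 8580 * z) *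
      T i 0 3 + (140140) * T i 0 4 + (28028) * T i 0 5 + (114660) * T i 0 6 + (-19404) * T i 0 7
      = 0) ∧
    (∀ i, (-20020 + 30030 * z) * T i 0 1 + (-15015 + 8580 * z) * T i 1 2 + (30030 - 12012 * z) *
      T i 1 3 + (-28028) * T i 1 4 + (-140140) * T i 1 5 + (19404) * T i 1 6 + (-114660) * T i 1
      7 = 0) ∧
    (∀ i, (90090 - 72072 * z) * T i 0 2 + (45045 - 51480 * z) * T i 1 2 + (40040 - 30030 * z) *
      T i 2 3 + (-114660) * T i 2 4 + (19404) * T i 2 5 + (-140140) * T i 2 6 + (-28028) * T i 2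
      7 = 0) ∧
    (∀ i, (-45045 + 51480 * z) * T i 0 3 + (-90090 + 72072 * z) * T i 1 3 + (-40040 + 30030 * z)
      * T i 2 3 + (-19404) * T i 3 4 + (114660) * T i 3 5 + (28028) * T i 3 6 + (140140) * T i 3
      7 = 0) ∧
    (∀ i, (27720 - 18480 * z) * T i 0 4 + (9240 - 11088 * z) * T i 1 4 + (55440 + 27720 * z) * T
      i 2 4 + (7920 - 5544 * z) * T i 3 4 + (5390) * T i 4 5 + (-29106) * T i 4 6 + (-6615) * T
      i 4 7 = 0) ∧
    (∀ i, (-9240 + 11088 * z) * T i 0 5 + (-27720 + 18480 * z) * T i 1 5 + (-7920 + 5544 * z) *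
      T i 2 5 + (-55440 - 27720 * z) * T i 3 5 + (-5390) * T i 4 5 + (6615) * T i 5 6 + (29106)
      * T i 5 7 = 0) ∧
    (∀ i, (-41580 - 41580 * z) * T i 0 6 + (5940 - 8316 * z) * T i 1 6 + (-13860 + 4620 * z) * T
      i 2 6 + (4620 - 2772 * z) * T i 3 6 + (29106) * T i 4 6 + (6615) * T i 5 6 + (-5390) * T i
      6 7 = 0) ∧
    (∀ i, (-5940 + 8316 * z) * T i 0 7 + (41580 + 41580 * z) * T i 1 7 + (-4620 + 2772 * z) * T
      i 2 7 + (13860 - 4620 * z) * T i 3 7 + (-6615) * T i 4 7 + (-29106) * T i 5 7 + (5390) * T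
      i 6 7 = 0) := by
  have t0 : t 0 = z := ht 0
  have t1 : t 1 = z := ht 1
  have t2 : t 2 = z := ht 2
  have t3 : t 3 = z := ht 3
  have t4 : t 4 = 1 := ht 4
  have t5 : t 5 = 1 := ht 5
  have t6 : t 6 = 1 := ht 6
  have t7 : t 7 = 1 := ht 7
  refine ⟨?_, ?_, ?_, ?_, ?_, ?_, ?_, ?_, ?_, ?_, ?_, ?_, ?_, ?_, ?_, ?_⟩
  · intro i
    have h := hA i 0
    rw [Fin.sum_univ_eight, h0 i 0, t0, t1, t2, t3, t4, t5, t6, t7, a8_0, a8_1, a8_2, a8_3, a8_4, a8_5,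
      a8_6, a8_7, b8_0, b8_1, b8_2, b8_3, b8_4, b8_5, b8_6, b8_7] at h
    linear_combination 840 * h
  · intro i
    have h := hA i 1
    rw [Fin.sum_univ_eight, h0 i 1, t0, t1, t2, t3, t4, t5, t6, t7, a8_0, a8_1, a8_2, a8_3, a8_4, a8_5,
      a8_6, a8_7, b8_0, b8_1, b8_2, b8_3, b8_4, b8_5, b8_6, b8_7, hsym i 1 0] at h
    linear_combination 840 * h
  · intro i
    have h := hA i 2
    rw [Fin.sum_univ_eight, h0 i 2, t0, t1, t2, t3, t4, t5, t6, t7, a8_0, a8_1, a8_2, a8_3, a8_4, a8_5,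
      a8_6, a8_7, b8_0, b8_1, b8_2, b8_3, b8_4, b8_5, b8_6, b8_7, hsym i 2 0, hsym i 2 1] at h
    linear_combination 1260 * h
  · intro i
    have h := hA i 3
    rw [Fin.sum_univ_eight, h0 i 3, t0, t1, t2, t3, t4, t5, t6, t7, a8_0, a8_1, a8_2, a8_3, a8_4, a8_5,
      a8_6, a8_7, b8_0, b8_1, b8_2, b8_3, b8_4, b8_5, b8_6, b8_7, hsym i 3 0, hsym i 3 1, hsym i 3 2] at h
    linear_combination 1260 * h
  · intro i
    have h := hA i 4
    rw [Fin.sum_univ_eight, h0 i 4, t0, t1, t2, t3, t4, t5, t6, t7, a8_0, a8_1, a8_2, a8_3, a8_4, a8_5,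
      a8_6, a8_7, b8_0, b8_1, b8_2, b8_3, b8_4, b8_5, b8_6, b8_7, hsym i 4 0, hsym i 4 1, hsym i 4 2, hsym i 4 3] at h
    linear_combination 10360350 * h
  · intro i
    have h := hA i 5
    rw [Fin.sum_univ_eight, h0 i 5, t0, t1, t2, t3, t4, t5, t6, t7, a8_0, a8_1, a8_2, a8_3, a8_4, a8_5,
      a8_6, a8_7, b8_0, b8_1, b8_2, b8_3, b8_4, b8_5, b8_6, b8_7, hsym i 5 0, hsym i 5 1, hsym i 5 2, hsym i 5 3, hsym i 5 4] at h
    linear_combination 10360350 * h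
  · intro i
    have h := hA i 6
    rw [Fin.sum_univ_eight, h0 i 6, t0, t1, t2, t3, t4, t5, t6, t7, a8_0, a8_1, a8_2, a8_3, a8_4, a8_5,
      a8_6, a8_7, b8_0, b8_1, b8_2, b8_3, b8_4, b8_5, b8_6, b8_7, hsym i 6 0, hsym i 6 1, hsym i 6 2, hsym i 6 3, hsym i 6 4, hsym i 6 5] at h
    linear_combination 248648400 * h
  · intro i
    have h := hA i 7
    rw [Fin.sum_univ_eight, h0 i 7, t0, t1, t2, t3, t4, t5, t6, t7, a8_0, a8_1, a8_2, a8_3, a8_4, a8_5,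
      a8_6, a8_7, b8_0, b8_1, b8_2, b8_3, b8_4, b8_5, b8_6, b8_7, hsym i 7 0, hsym i 7 1, hsym i 7 2, hsym i 7 3, hsym i 7 4, hsym i 7 5, hsym i 7 6] at h
    linear_combination 248648400 * h
  · intro i
    have h := hB i 0
    rw [Fin.sum_univ_eight, h0 i 0, t0, t1, t2, t3, t4, t5, t6, t7, a8_0, a8_1, a8_2, a8_3, a8_4, a8_5,
      a8_6, a8_7, b8_0, b8_1, b8_2, b8_3, b8_4, b8_5, b8_6, b8_7] at h
    linear_combination 60060 * h
  · intro i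
    have h := hB i 1
    rw [Fin.sum_univ_eight, h0 i 1, t0, t1, t2, t3, t4, t5, t6, t7, a8_0, a8_1, a8_2, a8_3, a8_4, a8_5,
      a8_6, a8_7, b8_0, b8_1, b8_2, b8_3, b8_4, b8_5, b8_6, b8_7, hsym i 1 0] at h
    linear_combination 60060 * h
  · intro i
    have h := hB i 2
    rw [Fin.sum_univ_eight, h0 i 2, t0, t1, t2, t3, t4, t5, t6, t7, a8_0, a8_1, a8_2, a8_3, a8_4, a8_5,
      a8_6, a8_7, b8_0, b8_1, b8_2, b8_3, b8_4, b8_5, b8_6, b8_7, hsym i 2 0, hsym i 2 1] at h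
    linear_combination 360360 * h
  · intro i
    have h := hB i 3
    rw [Fin.sum_univ_eight, h0 i 3, t0, t1, t2, t3, t4, t5, t6, t7, a8_0, a8_1, a8_2, a8_3, a8_4, a8_5,
      a8_6, a8_7, b8_0, b8_1, b8_2, b8_3, b8_4, b8_5, b8_6, b8_7, hsym i 3 0, hsym i 3 1, hsym i 3 2] at h
    linear_combination 360360 * h
  · intro i
    have h := hB i 4
    rw [Fin.sum_univ_eight, h0 i 4, t0, t1, t2, t3, t4, t5, t6, t7, a8_0, a8_1, a8_2, a8_3, a8_4, a8_5,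
      a8_6, a8_7, b8_0, b8_1, b8_2, b8_3, b8_4, b8_5, b8_6, b8_7, hsym i 4 0, hsym i 4 1, hsym i 4 2, hsym i 4 3] at h
    linear_combination 55440 * h
  · intro i
    have h := hB i 5
    rw [Fin.sum_univ_eight, h0 i 5, t0, t1, t2, t3, t4, t5, t6, t7, a8_0, a8_1, a8_2, a8_3, a8_4, a8_5,
      a8_6, a8_7, b8_0, b8_1, b8_2, b8_3, b8_4, b8_5, b8_6, b8_7, hsym i 5 0, hsym i 5 1, hsym i 5 2, hsym i 5 3, hsym i 5 4] at h
    linear_combination 55440 * h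
  · intro i
    have h := hB i 6
    rw [Fin.sum_univ_eight, h0 i 6, t0, t1, t2, t3, t4, t5, t6, t7, a8_0, a8_1, a8_2, a8_3, a8_4, a8_5,
      a8_6, a8_7, b8_0, b8_1, b8_2, b8_3, b8_4, b8_5, b8_6, b8_7, hsym i 6 0, hsym i 6 1, hsym i 6 2, hsym i 6 3, hsym i 6 4, hsym i 6 5] at h
    linear_combination 20790 * h
  · intro i
    have h := hB i 7
    rw [Fin.sum_univ_eight, h0 i 7, t0, t1, t2, t3, t4, t5, t6, t7, a8_0, a8_1, a8_2, a8_3, a8_4, a8_5,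
      a8_6, a8_7, b8_0, b8_1, b8_2, b8_3, b8_4, b8_5, b8_6, b8_7, hsym i 7 0, hsym i 7 1, hsym i 7 2, hsym i 7 3, hsym i 7 4, hsym i 7 5, hsym i 7 6] at h
    linear_combination 20790 * h

/-- The symmetrised coefficients of a tensor in the kernel of the Koszul differential vanish. -/
theorem sym8 (z : ℂˣ) (h1 : z ≠ 1) (h2 : (z : ℂ) ≠ -1)
    (τ : (sect a8 b8 (mult8 z) 1 ⊗[ℂ] sect a8 b8 (mult8 z) 1) ⊗[ℂ] sect a8 b8 (mult8 z) 1)
    (hτ : kos a8 b8 (mult8 z) τ = 0) (i j k : Fin 8) :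
    aco a8 b8 (mult8 z) i j k τ + aco a8 b8 (mult8 z) i k j τ = 0 := by
  set T : Fin 8 → Fin 8 → Fin 8 → ℂ := fun i j k =>
    aco a8 b8 (mult8 z) i j k τ + aco a8 b8 (mult8 z) i k j τ with hT
  obtain ⟨hsym, h0, hc, hs, hr, hA, hB⟩ := kos_rel a8 b8 (mult8 z) inj8 (by norm_num) τ hτ T
    fun _ _ _ => rfl
  have ht : ∀ i : Fin 8, ((mult8 z i : ℂˣ) : ℂ) = if i.val < 4 then (z : ℂ) else 1 := fun i => by
    unfold mult8 glue
    split_ifs <;> rfl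
  have hz : (1 : ℂ) - z ≠ 0 := sub_ne_zero.2 fun e => h1 (Units.ext e.symm)
  obtain ⟨A0, A1, A2, A3, A4, A5, A6, A7, B0, B1, B2, B3, B4, B5, B6, B7⟩ :=
    rows8 z (fun i => ((mult8 z i : ℂˣ) : ℂ)) ht T hsym h0 hA hB
  have t0 : ((mult8 z 0 : ℂˣ) : ℂ) = z := ht 0
  have t1 : ((mult8 z 1 : ℂˣ) : ℂ) = z := ht 1
  have t2 : ((mult8 z 2 : ℂˣ) : ℂ) = z := ht 2
  have t3 : ((mult8 z 3 : ℂˣ) : ℂ) = z := ht 3
  have t4 : ((mult8 z 4 : ℂˣ) : ℂ) = 1 := ht 4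
  have t5 : ((mult8 z 5 : ℂˣ) : ℂ) = 1 := ht 5
  have t6 : ((mult8 z 6 : ℂˣ) : ℂ) = 1 := ht 6
  have t7 : ((mult8 z 7 : ℂˣ) : ℂ) = 1 := ht 7
  have hs' : ∀ i j, T i j 0 + T i j 1 + T i j 2 + T i j 3 = 0 := fun i j => by
    have h := hs i j
    rw [Fin.sum_univ_eight, t0, t1, t2, t3, t4, t5, t6, t7] at h
    refine (mul_eq_zero.1 (show (1 - (z : ℂ)) * _ = 0 from ?_)).resolve_left hz
    linear_combination h
  have hr' : ∀ j k, T 0 j k + T 1 j k + T 2 j k + T 3 j k = 0 := fun j k => by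
    have h := hr j k
    rw [Fin.sum_univ_eight, t0, t1, t2, t3, t4, t5, t6, t7] at h
    refine (mul_eq_zero.1 (show (1 - (z : ℂ)) * _ = 0 from ?_)).resolve_left hz
    linear_combination h
  have key := core8 z h2 (fun i j k => T (Fin.ofNat 8 i) (Fin.ofNat 8 j) (Fin.ofNat 8 k))
    (fun _ _ _ => hsym _ _ _) (fun _ _ => h0 _ _)
    (fun i j k => by
      have h := hc (Fin.ofNat 8 i) (Fin.ofNat 8 j) (Fin.ofNat 8 k)
      rw [hsym (Fin.ofNat 8 j) (Fin.ofNat 8 k)] at h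
      exact h)
    (fun _ _ => hs' _ _) (fun _ _ => hr' _ _)
    (fun _ => A0 _) (fun _ => A1 _) (fun _ => A2 _) (fun _ => A3 _) (fun _ => A4 _)
    (fun _ => A5 _) (fun _ => A6 _) (fun _ => A7 _) (fun _ => B0 _) (fun _ => B1 _)
    (fun _ => B2 _) (fun _ => B3 _) (fun _ => B4 _) (fun _ => B5 _) (fun _ => B6 _)
    (fun _ => B7 _) i.val i.isLt j.val j.isLt k.val k.isLt
  have e : ∀ i : Fin 8, Fin.ofNat 8 i.val = i := fun i => Fin.ext (Nat.mod_eq_of_lt i.isLt)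
  simp only [e] at key
  exact key

/-- The shifts inside the two blocks. -/
def sh (m : ℕ) (i : Fin 8) : Fin 8 := if i.val < 4 then Fin.ofNat 8 ((i.val + m) % 4)
  else Fin.ofNat 8 (4 + (i.val + m) % 4)

lemma sh_mult (z : ℂˣ) (m : ℕ) (i : Fin 8) : mult8 z i = mult8 z (sh m i) := by
  unfold sh mult8 glue
  split_ifs with h1 h2 h3
  · rfl
  · exact absurd (show ((i.val + m) % 4) % 8 < 4 by omega) h2
  · exact absurd h3 (show ¬ ((4 + (i.val + m) % 4) % 8 < 4) by omega)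
  · rfl

/-- **The vanishing in genus 8.** -/
theorem vanish8 (z : ℂˣ) (h1 : z ≠ 1) (h2 : (z : ℂ) ≠ -1) :
    VanishK12 a8 b8 (mult8 z) ∧ VanishK21 a8 b8 (mult8 z) := by
  have he : mult8 z 0 ≠ 1 := h1
  have hk : mult8 z 4 = 1 := rfl
  exact ⟨vanish12_of a8 b8 (mult8 z) inj8 he 4 hk (sh 1) (sh 2) (by decide) (sh_mult z 1)
    (by decide) (sh_mult z 2) (by decide) (sym8 z h1 h2),
    vanish21_of a8 b8 (mult8 z) inj8 (by norm_num) he (sym8 z h1 h2)⟩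

end

end Pool.Agent.H77.PG
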