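import Mathlib
import Pool.Agent.H77.PG.Base

/-!
# The vanishing in genus 6

The gluing factors are `(z, z, z, 1, 1, 1)`. For a tensor `τ` in the kernel of the multiplication put
`S_jk = (r_j ⊗ r_k + r_k ⊗ r_j) (τ)`. The relations of `kernel_rel` do not involve `z` any more once the block of the first three
indices is known to vanish, and they give `S = 0` if two determinants do not vanish (helper77).
-/

set_option autoImplicit false

namespace Pool.Agent.H77.PG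

open Polynomial TensorProduct

section Alg

variable {R : Type} [CommRing R]

/-- The cross product. -/
def cr (p q : Fin 3 → R) : Fin 3 → R :=
  ![p 1 * q 2 - p 2 * q 1, p 2 * q 0 - p 0 * q 2, p 0 * q 1 - p 1 * q 0]

/-- The determinant of three vectors. -/
def det3 (u v w : Fin 3 → R) : R :=
  u 0 * (v 1 * w 2 - v 2 * w 1) + u 1 * (v 2 * w 0 - v 0 * w 2) + u 2 * (v 0 * w 1 - v 1 * w 0)

/-- The factor `(y - a_k) (y - b_k)`; here `x = (a, b)`. -/
def gg (x : Fin 6 ⊕ Fin 6 → R) (y : R) (k : Fin 6) : R := (y - x (Sum.inl k)) * (y - x (Sum.inr k))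

/-- The vector of the `∏_{l ≠ k} (y - a_l) (y - b_l)`, `k = 3, 4, 5`. -/
def pv (x : Fin 6 ⊕ Fin 6 → R) (y : R) : Fin 3 → R :=
  ![gg x y 4 * gg x y 5, gg x y 3 * gg x y 5, gg x y 3 * gg x y 4]

/-- The normal vector of row `i`. -/
def nv (x : Fin 6 ⊕ Fin 6 → R) (i : Fin 6) : Fin 3 → R :=
  cr (pv x (x (Sum.inl i))) (pv x (x (Sum.inr i)))

/-- The first determinant which must not vanish. -/
def delta1 (x : Fin 6 ⊕ Fin 6 → R) : R := det3 (nv x 0) (nv x 1) (nv x 2)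

/-- The second determinant which must not vanish. -/
def delta2 (x : Fin 6 ⊕ Fin 6 → R) : R :=
  gg x (x (Sum.inl 3)) 5 * gg x (x (Sum.inr 3)) 4 - gg x (x (Sum.inl 3)) 4 * gg x (x (Sum.inr 3)) 5

lemma delta1_map {S : Type} [CommRing S] (f : R →+* S) (x : Fin 6 ⊕ Fin 6 → R) :
    f (delta1 x) = delta1 fun i => f (x i) := by
  simp [delta1, det3, nv, cr, pv, gg]

lemma delta2_map {S : Type} [CommRing S] (f : R →+* S) (x : Fin 6 ⊕ Fin 6 → R) :
    f (delta2 x) = delta2 fun i => f (x i) := by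
  simp [delta2, gg]

end Alg

lemma lin3 (w0 w1 w2 p0 q0 p1 q1 p2 q2 : Fin 3 → ℂ) (hs : ∀ j, w0 j + w1 j + w2 j = 0)
    (hp0 : p0 0 * w0 0 + p0 1 * w0 1 + p0 2 * w0 2 = 0)
    (hq0 : q0 0 * w0 0 + q0 1 * w0 1 + q0 2 * w0 2 = 0)
    (hp1 : p1 0 * w1 0 + p1 1 * w1 1 + p1 2 * w1 2 = 0)
    (hq1 : q1 0 * w1 0 + q1 1 * w1 1 + q1 2 * w1 2 = 0)
    (hp2 : p2 0 * w2 0 + p2 1 * w2 1 + p2 2 * w2 2 = 0)
    (hq2 : q2 0 * w2 0 + q2 1 * w2 1 + q2 2 * w2 2 = 0)
    (hd : det3 (cr p0 q0) (cr p1 q1) (cr p2 q2) ≠ 0) (j : Fin 3) : w0 j = 0 := by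
  -- `w × n = 0` for `n = p × q` if `w` is orthogonal to `p` and `q`
  have par : ∀ p q w : Fin 3 → ℂ, p 0 * w 0 + p 1 * w 1 + p 2 * w 2 = 0 →
      q 0 * w 0 + q 1 * w 1 + q 2 * w 2 = 0 →
      w 1 * cr p q 2 - w 2 * cr p q 1 = 0 ∧ w 2 * cr p q 0 - w 0 * cr p q 2 = 0 ∧
      w 0 * cr p q 1 - w 1 * cr p q 0 = 0 := by
    intro p q w h1 h2
    simp only [cr, Matrix.cons_val_zero, Matrix.cons_val_one, Matrix.cons_val]
    refine ⟨?_, ?_, ?_⟩
    · linear_combination p 0 * h2 - q 0 * h1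
    · linear_combination p 1 * h2 - q 1 * h1
    · linear_combination p 2 * h2 - q 2 * h1
  obtain ⟨a0, a1, a2⟩ := par p0 q0 w0 hp0 hq0
  obtain ⟨b0, b1, b2⟩ := par p1 q1 w1 hp1 hq1
  obtain ⟨c0, c1, c2⟩ := par p2 q2 w2 hp2 hq2
  revert hd a0 a1 a2 b0 b1 b2 c0 c1 c2
  generalize cr p0 q0 = n0
  generalize cr p1 q1 = n1
  generalize cr p2 q2 = n2
  intro hd a0 a1 a2 b0 b1 b2 c0 c1 c2
  have hm : w0 0 * (n1 1 * n2 2 - n1 2 * n2 1) + w0 1 * (n1 2 * n2 0 - n1 0 * n2 2) +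
      w0 2 * (n1 0 * n2 1 - n1 1 * n2 0) = 0 := by
    linear_combination (n1 1 * n2 2 - n1 2 * n2 1) * hs 0 + (n1 2 * n2 0 - n1 0 * n2 2) * hs 1 +
      (n1 0 * n2 1 - n1 1 * n2 0) * hs 2 - (n2 0 * b0 + n2 1 * b1 + n2 2 * b2) +
      (n1 0 * c0 + n1 1 * c1 + n1 2 * c2)
  have key : det3 n0 n1 n2 * w0 j = 0 := by
    unfold det3
    fin_cases j
    · simp only [Fin.zero_eta, Fin.isValue]
      linear_combination n0 0 * hm + (n1 2 * n2 0 - n1 0 * n2 2) * a2 -
        (n1 0 * n2 1 - n1 1 * n2 0) * a1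
    · simp only [Fin.mk_one, Fin.isValue]
      linear_combination n0 1 * hm + (n1 0 * n2 1 - n1 1 * n2 0) * a0 -
        (n1 1 * n2 2 - n1 2 * n2 1) * a2
    · simp only [Fin.reduceFinMk, Fin.isValue]
      linear_combination n0 2 * hm + (n1 1 * n2 2 - n1 2 * n2 1) * a1 -
        (n1 2 * n2 0 - n1 0 * n2 2) * a0
  exact (mul_eq_zero.1 key).resolve_left hd

lemma clear3 {u v w c d e : ℂ} (hc : c ≠ 0) (hd : d ≠ 0) (he : e ≠ 0)
    (h : u / c + v / d + w / e = 0) : d * e * u + c * e * v + c * d * w = 0 := by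
  field_simp at h
  linear_combination h


lemma all_zero (S : Fin 6 → Fin 6 → ℂ) (hsym : ∀ j k, S j k = S k j) (hii : ∀ i, S i i = 0)
    (s01 : S 0 1 = 0) (s02 : S 0 2 = 0) (s03 : S 0 3 = 0) (s04 : S 0 4 = 0) (s05 : S 0 5 = 0)
    (s12 : S 1 2 = 0) (s13 : S 1 3 = 0) (s14 : S 1 4 = 0) (s15 : S 1 5 = 0) (s23 : S 2 3 = 0)
    (s24 : S 2 4 = 0) (s25 : S 2 5 = 0) (s34 : S 3 4 = 0) (s35 : S 3 5 = 0) (s45 : S 4 5 = 0)
    (j k : Fin 6) : S j k = 0 := by
  fin_cases j <;> fin_cases k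
  exacts [hii 0, s01, s02, s03, s04, s05, (hsym 1 0).trans s01, hii 1, s12, s13, s14, s15,
    (hsym 2 0).trans s02, (hsym 2 1).trans s12, hii 2, s23, s24, s25,
    (hsym 3 0).trans s03, (hsym 3 1).trans s13, (hsym 3 2).trans s23, hii 3, s34, s35,
    (hsym 4 0).trans s04, (hsym 4 1).trans s14, (hsym 4 2).trans s24, (hsym 4 3).trans s34, hii 4,
    s45, (hsym 5 0).trans s05, (hsym 5 1).trans s15, (hsym 5 2).trans s25, (hsym 5 3).trans s35,
    (hsym 5 4).trans s45, hii 5]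

/-- The relations of `kernel_rel` for `t = (z, z, z, 1, 1, 1)` have only the trivial solution. -/
lemma core (a b : Fin 6 → ℂ) (z : ℂ) (hz : z ≠ 1) (haa : ∀ {i j : Fin 6}, i ≠ j → a i - a j ≠ 0)
    (hbb : ∀ {i j : Fin 6}, i ≠ j → b i - b j ≠ 0) (hab : ∀ i j, a i - b j ≠ 0)
    (hba : ∀ i j, b i - a j ≠ 0)
    (h1 : delta1 (Sum.elim a b) ≠ 0) (h2 : delta2 (Sum.elim a b) ≠ 0)
    (T : Fin 6 → ℂ) (hT : ∀ k, T k = if k.val < 3 then z else 1)
    (S : Fin 6 → Fin 6 → ℂ) (hsym : ∀ j k, S j k = S k j) (hii : ∀ i, S i i = 0)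
    (hsum : ∀ i, ∑ k, (1 - T k) * S i k = 0)
    (hA : ∀ i, ∑ k, S i k * (((a i - b k) - T k * (a i - a k)) / ((a i - a k) * (a i - b k))) = 0)
    (hB : ∀ i, ∑ k, S i k * (((b i - b k) - T k * (b i - a k)) / ((b i - a k) * (b i - b k))) = 0) :
    ∀ j k, S j k = 0 := by
  have T0 : T 0 = z := hT 0
  have T1 : T 1 = z := hT 1
  have T2 : T 2 = z := hT 2
  have T3 : T 3 = 1 := hT 3
  have T4 : T 4 = 1 := hT 4
  have T5 : T 5 = 1 := hT 5
  have hs : ∀ i, S i 0 + S i 1 + S i 2 = 0 := by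
    intro i
    have h := hsum i
    rw [Fin.sum_univ_six, T0, T1, T2, T3, T4, T5] at h
    exact (mul_eq_zero.1 (show (1 - z) * (S i 0 + S i 1 + S i 2) = 0 by
      linear_combination h)).resolve_left (sub_ne_zero.2 hz.symm)
  have s01 : S 0 1 = 0 := by
    linear_combination (1 / 2) * (hs 0 + hs 1 - hs 2) - (1 / 2) * (hii 0 + hii 1 - hii 2) -
      (1 / 2) * (hsym 1 0 - hsym 2 0 - hsym 2 1)
  have s02 : S 0 2 = 0 := by
    linear_combination hs 0 - hii 0 - s01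
  have s12 : S 1 2 = 0 := by
    linear_combination hs 1 - hii 1 - s01 - hsym 1 0
  have s10 : S 1 0 = 0 := by rw [hsym, s01]
  have s20 : S 2 0 = 0 := by rw [hsym, s02]
  have s21 : S 2 1 = 0 := by rw [hsym, s12]
  -- the three rows
  have rA : ∀ i : Fin 6, i ≠ 3 → i ≠ 4 → i ≠ 5 → S i 0 = 0 → S i 1 = 0 → S i 2 = 0 →
      pv (Sum.elim a b) (a i) 0 * (S i 3 * (a 3 - b 3)) +
      pv (Sum.elim a b) (a i) 1 * (S i 4 * (a 4 - b 4)) +
      pv (Sum.elim a b) (a i) 2 * (S i 5 * (a 5 - b 5)) = 0 := by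
    intro i n3 n4 n5 e0 e1 e2
    have h := hA i
    rw [Fin.sum_univ_six, e0, e1, e2, T3, T4, T5] at h
    have h' := clear3 (mul_ne_zero (haa n3) (hab i 3)) (mul_ne_zero (haa n4) (hab i 4))
      (mul_ne_zero (haa n5) (hab i 5))
      (show (S i 3 * (a 3 - b 3)) / ((a i - a 3) * (a i - b 3)) +
        (S i 4 * (a 4 - b 4)) / ((a i - a 4) * (a i - b 4)) +
        (S i 5 * (a 5 - b 5)) / ((a i - a 5) * (a i - b 5)) = 0 by
        rw [← h]; ring)
    simp only [pv, gg, Sum.elim_inl, Sum.elim_inr, Matrix.cons_val_zero, Matrix.cons_val_one,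
      Matrix.cons_val]
    linear_combination h'
  have rB : ∀ i : Fin 6, i ≠ 3 → i ≠ 4 → i ≠ 5 → S i 0 = 0 → S i 1 = 0 → S i 2 = 0 →
      pv (Sum.elim a b) (b i) 0 * (S i 3 * (a 3 - b 3)) +
      pv (Sum.elim a b) (b i) 1 * (S i 4 * (a 4 - b 4)) +
      pv (Sum.elim a b) (b i) 2 * (S i 5 * (a 5 - b 5)) = 0 := by
    intro i n3 n4 n5 e0 e1 e2
    have h := hB i
    rw [Fin.sum_univ_six, e0, e1, e2, T3, T4, T5] at h
    have h' := clear3 (mul_ne_zero (hba i 3) (hbb n3)) (mul_ne_zero (hba i 4) (hbb n4))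
      (mul_ne_zero (hba i 5) (hbb n5))
      (show (S i 3 * (a 3 - b 3)) / ((b i - a 3) * (b i - b 3)) +
        (S i 4 * (a 4 - b 4)) / ((b i - a 4) * (b i - b 4)) +
        (S i 5 * (a 5 - b 5)) / ((b i - a 5) * (b i - b 5)) = 0 by
        rw [← h]; ring)
    simp only [pv, gg, Sum.elim_inl, Sum.elim_inr, Matrix.cons_val_zero, Matrix.cons_val_one,
      Matrix.cons_val]
    linear_combination h'
  let w : Fin 6 → Fin 3 → ℂ := fun i =>
    ![S i 3 * (a 3 - b 3), S i 4 * (a 4 - b 4), S i 5 * (a 5 - b 5)]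
  have hw : ∀ j, w 0 j + w 1 j + w 2 j = 0 := by
    intro j
    fin_cases j
    · change S 0 3 * (a 3 - b 3) + S 1 3 * (a 3 - b 3) + S 2 3 * (a 3 - b 3) = 0
      linear_combination (a 3 - b 3) * (hs 3 + hsym 0 3 + hsym 1 3 + hsym 2 3)
    · change S 0 4 * (a 4 - b 4) + S 1 4 * (a 4 - b 4) + S 2 4 * (a 4 - b 4) = 0
      linear_combination (a 4 - b 4) * (hs 4 + hsym 0 4 + hsym 1 4 + hsym 2 4)
    · change S 0 5 * (a 5 - b 5) + S 1 5 * (a 5 - b 5) + S 2 5 * (a 5 - b 5) = 0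
      linear_combination (a 5 - b 5) * (hs 5 + hsym 0 5 + hsym 1 5 + hsym 2 5)
  have A0 := rA 0 (by decide) (by decide) (by decide) (hii 0) s01 s02
  have A1 := rA 1 (by decide) (by decide) (by decide) s10 (hii 1) s12
  have A2 := rA 2 (by decide) (by decide) (by decide) s20 s21 (hii 2)
  have B0 := rB 0 (by decide) (by decide) (by decide) (hii 0) s01 s02
  have B1 := rB 1 (by decide) (by decide) (by decide) s10 (hii 1) s12
  have B2 := rB 2 (by decide) (by decide) (by decide) s20 s21 (hii 2)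
  have cyc : ∀ u v w : Fin 3 → ℂ, det3 v w u = det3 u v w := fun u v w => by
    simp only [det3]; ring
  have w0 : ∀ j, w 0 j = 0 := lin3 (w 0) (w 1) (w 2) _ _ _ _ _ _ hw A0 B0 A1 B1 A2 B2 h1
  have w1 : ∀ j, w 1 j = 0 := lin3 (w 1) (w 2) (w 0) _ _ _ _ _ _
    (fun j => by rw [← hw j]; ring) A1 B1 A2 B2 A0 B0 (by rw [cyc]; exact h1)
  have w2 : ∀ j, w 2 j = 0 := lin3 (w 2) (w 0) (w 1) _ _ _ _ _ _
    (fun j => by rw [← hw j]; ring) A2 B2 A0 B0 A1 B1 (by rw [← cyc]; exact h1)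
  have x3 : ∀ i, (∀ j, w i j = 0) → S i 3 = 0 := fun i h =>
    (mul_eq_zero.1 (show S i 3 * (a 3 - b 3) = 0 from h 0)).resolve_right (hab 3 3)
  have x4 : ∀ i, (∀ j, w i j = 0) → S i 4 = 0 := fun i h =>
    (mul_eq_zero.1 (show S i 4 * (a 4 - b 4) = 0 from h 1)).resolve_right (hab 4 4)
  have x5 : ∀ i, (∀ j, w i j = 0) → S i 5 = 0 := fun i h =>
    (mul_eq_zero.1 (show S i 5 * (a 5 - b 5) = 0 from h 2)).resolve_right (hab 5 5)
  have s03 := x3 0 w0
  have s13 := x3 1 w1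
  have s23 := x3 2 w2
  have s04 := x4 0 w0
  have s14 := x4 1 w1
  have s24 := x4 2 w2
  have s05 := x5 0 w0
  have s15 := x5 1 w1
  have s25 := x5 2 w2
  -- row 3
  have g3 : S 3 4 = 0 ∧ S 3 5 = 0 := by
    have hx := hA 3
    have hy := hB 3
    rw [Fin.sum_univ_six, hsym 3 0, hsym 3 1, hsym 3 2, s03, s13, s23, hii 3, T4, T5] at hx hy
    have n34 : a 3 - a 4 ≠ 0 := haa (by decide)
    have n35 : a 3 - a 5 ≠ 0 := haa (by decide)
    have m34 : b 3 - b 4 ≠ 0 := hbb (by decide)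
    have m35 : b 3 - b 5 ≠ 0 := hbb (by decide)
    have hx' := clear3 (mul_ne_zero n34 (hab 3 4)) (mul_ne_zero n35 (hab 3 5)) one_ne_zero
      (show (S 3 4 * (a 4 - b 4)) / ((a 3 - a 4) * (a 3 - b 4)) +
        (S 3 5 * (a 5 - b 5)) / ((a 3 - a 5) * (a 3 - b 5)) + 0 / 1 = 0 by
        linear_combination hx)
    have hy' := clear3 (mul_ne_zero (hba 3 4) m34) (mul_ne_zero (hba 3 5) m35) one_ne_zero
      (show (S 3 4 * (a 4 - b 4)) / ((b 3 - a 4) * (b 3 - b 4)) +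
        (S 3 5 * (a 5 - b 5)) / ((b 3 - a 5) * (b 3 - b 5)) + 0 / 1 = 0 by
        linear_combination hy)
    constructor
    · refine (mul_eq_zero.1 (show S 3 4 * (a 4 - b 4) = 0 from ?_)).resolve_right (hab 4 4)
      refine (mul_eq_zero.1 (show delta2 (Sum.elim a b) * _ = 0 from ?_)).resolve_left h2
      simp only [delta2, gg, Sum.elim_inl, Sum.elim_inr]
      linear_combination (b 3 - a 4) * (b 3 - b 4) * hx' - (a 3 - a 4) * (a 3 - b 4) * hy'
    · refine (mul_eq_zero.1 (show S 3 5 * (a 5 - b 5) = 0 from ?_)).resolve_right (hab 5 5)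
      refine (mul_eq_zero.1 (show delta2 (Sum.elim a b) * _ = 0 from ?_)).resolve_left h2
      simp only [delta2, gg, Sum.elim_inl, Sum.elim_inr]
      linear_combination -(b 3 - a 5) * (b 3 - b 5) * hx' + (a 3 - a 5) * (a 3 - b 5) * hy'
  obtain ⟨s34, s35⟩ := g3
  have s45 : S 4 5 = 0 := by
    have hx := hA 4
    rw [Fin.sum_univ_six, hsym 4 0, hsym 4 1, hsym 4 2, hsym 4 3, s04, s14, s24, s34, hii 4,
      T5] at hx
    have n45 : a 4 - a 5 ≠ 0 := haa (by decide)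
    have hx' : S 4 5 * (((a 4 - b 5) - 1 * (a 4 - a 5)) / ((a 4 - a 5) * (a 4 - b 5))) = 0 := by
      linear_combination hx
    refine (mul_eq_zero.1 hx').resolve_right (div_ne_zero ?_ (mul_ne_zero n45 (hab 4 5)))
    exact fun e => hab 5 5 (by linear_combination e)
  exact all_zero S hsym hii s01 s02 s03 s04 s05 s12 s13 s14 s15 s23 s24 s25 s34 s35 s45

noncomputable section

/-- The coefficients of the five basis sections `E_0 - E_2`, `E_1 - E_2`, `E_3`, `E_4`, `E_5`. -/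
def cf : Fin 5 → Fin 6 → ℂ :=
  ![![1, 0, -1, 0, 0, 0], ![0, 1, -1, 0, 0, 0], ![0, 0, 0, 1, 0, 0], ![0, 0, 0, 0, 1, 0],
    ![0, 0, 0, 0, 0, 1]]

/-- The five indices whose residues are coordinates. -/
def sg : Fin 5 → Fin 6 := ![0, 1, 3, 4, 5]

lemma cf_sum (z : ℂˣ) (j : Fin 5) : ∑ k, (1 - (glue 6 3 z k : ℂ)) * cf j k = 0 := by
  rw [Fin.sum_univ_six]
  fin_cases j <;> simp [glue, cf]

lemma cf_sg (j k : Fin 5) : cf k (sg j) = if j = k then 1 else 0 := by
  fin_cases j <;> fin_cases k <;> simp [cf, sg]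

lemma half {M : Type} [AddCommGroup M] [Module ℂ M] (F : Fin 5 → Fin 5 → ℂ)
    (A : Fin 5 → Fin 5 → M) (τ : M) (h : ∑ j, ∑ k, F j k • A j k = τ)
    (hs : ∀ j k, F j k + F k j = 0) :
    τ = (2⁻¹ : ℂ) • ∑ j, ∑ k, F j k • (A j k - A k j) := by
  have hswap : ∑ j, ∑ k, F j k • A k j + τ = 0 := by
    calc _ = ∑ j, ∑ k, F k j • A j k + ∑ j, ∑ k, F j k • A j k := by
          rw [h, Finset.sum_comm]
      _ = 0 := by
          rw [← Finset.sum_add_distrib]
          refine Finset.sum_eq_zero fun j _ => ?_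
          rw [← Finset.sum_add_distrib]
          refine Finset.sum_eq_zero fun k _ => ?_
          rw [← add_smul, hs, zero_smul]
  have e : ∑ j, ∑ k, F j k • (A j k - A k j) = τ - -τ := by
    simp only [smul_sub, Finset.sum_sub_distrib]
    rw [h, eq_neg_of_add_eq_zero_left hswap]
  rw [e, sub_neg_eq_add, ← two_smul ℂ τ, smul_smul]
  norm_num

section Final

variable (a b : Fin 6 → ℂ) (z : ℂˣ)

/-- The basis sections. -/
def bv (j : Fin 5) : sect a b (glue 6 3 z) 1 :=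
  ⟨∑ k, cf j k • el a b (glue 6 3 z) k, comb_mem a b (glue 6 3 z) (by norm_num) _ (cf_sum z j)⟩

variable (hv : Function.Injective (Sum.elim a b))

include hv

lemma res_bv (i : Fin 6) (j : Fin 5) : res a b (glue 6 3 z) i (bv a b z j) = cf j i :=
  res_comb a b (glue 6 3 z) hv _ _ i

lemma expand5 (hz : z ≠ 1) (x : sect a b (glue 6 3 z) 1) :
    x = ∑ j, res a b (glue 6 3 z) (sg j) x • bv a b z j := by
  rw [← sub_eq_zero]
  refine eq_zero_of_res a b (glue 6 3 z) hv (by norm_num) _ fun k => ?_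
  have hs := sum_res a b (glue 6 3 z) hv (by norm_num) x
  have hz' : (1 : ℂ) - z ≠ 0 := sub_ne_zero.2 fun e => hz (Units.ext e.symm)
  have hs' : res a b (glue 6 3 z) 0 x + res a b (glue 6 3 z) 1 x + res a b (glue 6 3 z) 2 x = 0 := by
    refine (mul_eq_zero.1 (show (1 - (z : ℂ)) * _ = 0 from ?_)).resolve_left hz'
    rw [Fin.sum_univ_six] at hs
    simp only [glue, Fin.isValue, Fin.val_zero, Fin.val_one, Fin.val_two] at hs
    norm_num at hs
    linear_combination hs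
  rw [map_sub, map_sum]
  simp only [map_smul, res_bv a b z hv, smul_eq_mul, Fin.sum_univ_five]
  fin_cases k <;> simp [cf, sg]
  linear_combination hs'

lemma tensor_expand (hz : z ≠ 1) (τ : sect a b (glue 6 3 z) 1 ⊗[ℂ] sect a b (glue 6 3 z) 1) :
    ∑ j, ∑ k, phi a b (glue 6 3 z) (sg j) (sg k) τ • (bv a b z j ⊗ₜ[ℂ] bv a b z k) = τ := by
  induction τ using TensorProduct.induction_on with
  | zero => simp
  | tmul x y =>
    conv_rhs => rw [expand5 a b z hv hz x, expand5 a b z hv hz y]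
    simp only [TensorProduct.sum_tmul, TensorProduct.tmul_sum, TensorProduct.smul_tmul_smul,
      phi_tmul]
    exact Finset.sum_comm
  | add x y hx hy =>
    simp only [map_add, add_smul, Finset.sum_add_distrib]
    rw [hx, hy]

variable (h1 : delta1 (Sum.elim a b) ≠ 0) (h2 : delta2 (Sum.elim a b) ≠ 0)

include h1 h2

lemma sym_zero (hz : z ≠ 1) (τ : sect a b (glue 6 3 z) 1 ⊗[ℂ] sect a b (glue 6 3 z) 1)
    (hτ : Submodule.mulMap (sect a b (glue 6 3 z) 1) (sect a b (glue 6 3 z) 1) τ = 0) (j k : Fin 6) :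
    phi a b (glue 6 3 z) j k τ + phi a b (glue 6 3 z) k j τ = 0 := by
  obtain ⟨hii, hsum, hA, hB⟩ := kernel_rel a b (glue 6 3 z) hv (by norm_num) τ hτ
  refine core a b z (fun e => hz (Units.ext e)) (ne_aa a b hv) (ne_bb a b hv) (ne_ab a b hv)
    (ne_ba a b hv) h1 h2 (fun k => (glue 6 3 z k : ℂ)) (fun k => ?_)
    (fun j k => phi a b (glue 6 3 z) j k τ + phi a b (glue 6 3 z) k j τ) (fun j k => add_comm _ _) hii
    hsum hA hB j k
  unfold glue
  split_ifs <;> rfl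

lemma vanish11 (hz : z ≠ 1) : VanishK11 a b (glue 6 3 z) := by
  intro τ hτ'
  have hτ : Submodule.mulMap (sect a b (glue 6 3 z) 1) (sect a b (glue 6 3 z) 1) τ = 0 :=
    congrArg Subtype.val hτ'
  have h := tensor_expand a b z hv hz τ
  have h3 := @half (sect a b (glue 6 3 z) 1 ⊗[ℂ] sect a b (glue 6 3 z) 1) _ _
    (fun j k => phi a b (glue 6 3 z) (sg j) (sg k) τ) (fun j k => bv a b z j ⊗ₜ[ℂ] bv a b z k) τ h
    fun j k => sym_zero a b z hv h1 h2 hz τ hτ (sg j) (sg k)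
  rw [h3]
  refine Submodule.smul_mem _ _ (Submodule.sum_mem _ fun j _ => Submodule.sum_mem _ fun k _ =>
    Submodule.smul_mem _ _ (Submodule.subset_span ⟨(bv a b z j, bv a b z k), rfl⟩))

/-- The index set of the fifteen products. -/
abbrev Ix : Type := {p : Fin 5 × Fin 5 // p.1 ≤ p.2}

lemma prod_indep (hz : z ≠ 1) : LinearIndependent ℂ fun p : Ix =>
    ((bv a b z p.1.1 : ℂ[X]) * (bv a b z p.1.2 : ℂ[X])) := by
  rw [Fintype.linearIndependent_iff]
  intro c hc p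
  have hτ : Submodule.mulMap (sect a b (glue 6 3 z) 1) (sect a b (glue 6 3 z) 1)
      (∑ q : Ix, c q • (bv a b z q.1.1 ⊗ₜ[ℂ] bv a b z q.1.2)) = 0 := by
    rw [map_sum, ← hc]
    refine Finset.sum_congr rfl fun q _ => ?_
    rw [map_smul, Submodule.mulMap_tmul]
  have h := sym_zero a b z hv h1 h2 hz _ hτ (sg p.1.1) (sg p.1.2)
  simp only [map_sum, map_smul, phi_tmul, res_bv a b z hv, cf_sg, smul_eq_mul] at h
  rw [← Finset.sum_add_distrib, Finset.sum_eq_single p] at h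
  · by_cases hp : p.1.1 = p.1.2
    · simp only [hp, if_true] at h
      linear_combination (1 / 2) * h
    · simp only [if_true, hp, if_false] at h
      linear_combination h
  · intro q _ hq
    have e1 : ((if p.1.1 = q.1.1 then (1 : ℂ) else 0) * if p.1.2 = q.1.2 then 1 else 0) = 0 := by
      split_ifs with h3 h4
      · exact absurd (Subtype.ext (Prod.ext h3.symm h4.symm)) hq
      all_goals simp
    have e2 : ((if p.1.2 = q.1.1 then (1 : ℂ) else 0) * if p.1.1 = q.1.2 then 1 else 0) = 0 := by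
      split_ifs with h3 h4
      · have h5 := p.2
        have h6 := q.2
        rw [← h3, ← h4] at h6
        have h7 := le_antisymm h5 h6
        exact absurd (Subtype.ext (Prod.ext (h3.symm.trans h7.symm) (h4.symm.trans h7))) hq
      all_goals simp
    rw [e1, e2]; ring
  · simp

lemma range02 (hz : z ≠ 1) :
    LinearMap.range (Submodule.mulMap (sect a b (glue 6 3 z) 1) (sect a b (glue 6 3 z) 1)) =
      sect a b (glue 6 3 z) 2 := by
  obtain ⟨hfin, hdim⟩ := sect_finite a b (glue 6 3 z) hv 2 9 (by norm_num)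
  have hle : LinearMap.range (Submodule.mulMap (sect a b (glue 6 3 z) 1) (sect a b (glue 6 3 z) 1)) ≤
      sect a b (glue 6 3 z) 2 := by
    rw [Submodule.mulMap_range, Submodule.mul_le]
    intro x hx y hy
    exact mul_mem_sect a b (glue 6 3 z) hx hy
  refine Submodule.eq_of_le_of_finrank_le hle (hdim.trans ?_)
  have hli : LinearIndependent ℂ fun p : Ix =>
      (⟨(bv a b z p.1.1 : ℂ[X]) * (bv a b z p.1.2 : ℂ[X]),
        ⟨bv a b z p.1.1 ⊗ₜ[ℂ] bv a b z p.1.2, Submodule.mulMap_tmul _ _ _ _⟩⟩ :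
        LinearMap.range (Submodule.mulMap (sect a b (glue 6 3 z) 1) (sect a b (glue 6 3 z) 1))) :=
    LinearIndependent.of_comp (Submodule.subtype _) (prod_indep a b z hv h1 h2 hz)
  have : Module.Finite ℂ
      (LinearMap.range (Submodule.mulMap (sect a b (glue 6 3 z) 1) (sect a b (glue 6 3 z) 1))) :=
    Submodule.finiteDimensional_of_le hle
  have hcard : Fintype.card Ix = 15 := by decide
  rw [show 6 + 9 = Fintype.card Ix from hcard.symm]
  exact hli.fintype_card_le_finrank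

lemma vanish02 (hz : z ≠ 1) : VanishK02 a b (glue 6 3 z) := by
  intro y
  have hy : (y : ℂ[X]) ∈ LinearMap.range
      (Submodule.mulMap (sect a b (glue 6 3 z) 1) (sect a b (glue 6 3 z) 1)) := by
    rw [range02 a b z hv h1 h2 hz]
    exact y.2
  obtain ⟨τ, hτ⟩ := hy
  exact ⟨τ, Subtype.ext hτ⟩

end Final

/-- The product of all differences of the twelve points. -/
def diffs {R : Type} [CommRing R] (x : Fin 6 ⊕ Fin 6 → R) : R :=
  ∏ p ∈ Finset.univ.filter (fun p : (Fin 6 ⊕ Fin 6) × (Fin 6 ⊕ Fin 6) => p.1 ≠ p.2),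
    (x p.1 - x p.2)

/-- The polynomial in the twelve points which must not vanish. -/
def good {R : Type} [CommRing R] (x : Fin 6 ⊕ Fin 6 → R) : R := diffs x * delta1 x * delta2 x

lemma good_map {R S : Type} [CommRing R] [CommRing S] (f : R →+* S) (x : Fin 6 ⊕ Fin 6 → R) :
    f (good x) = good fun i => f (x i) := by
  simp only [good, map_mul, delta1_map, delta2_map, diffs, map_prod, map_sub]

lemma inj_of_diffs (x : Fin 6 ⊕ Fin 6 → ℂ) (h : diffs x ≠ 0) : Function.Injective x := by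
  intro i j hij
  by_contra hne
  exact Finset.prod_ne_zero_iff.1 h (i, j) (Finset.mem_filter.2 ⟨Finset.mem_univ _, hne⟩)
    (sub_eq_zero.2 hij)

/-- The points `a_i = i`, `b_i = i + 6`. -/
def x0 : Fin 6 ⊕ Fin 6 → ℤ := Sum.elim (fun i => i.val) fun i => i.val + 6

lemma good_x0 : good x0 ≠ 0 := by
  have h0 : diffs x0 ≠ 0 := by
    refine Finset.prod_ne_zero_iff.2 fun p hp => sub_ne_zero.2 fun e => ?_
    refine (Finset.mem_filter.1 hp).2 ?_
    obtain ⟨i | i, j | j⟩ := p <;> simp only [x0, Sum.elim_inl, Sum.elim_inr] at e <;>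
      first
      | (exact congrArg _ (Fin.ext (by omega)))
      | omega
  have h1 : delta1 x0 ≠ 0 := by decide
  have h2 : delta2 x0 ≠ 0 := by decide
  exact mul_ne_zero (mul_ne_zero h0 h1) h2

lemma good_X_ne : good (R := MvPolynomial (Fin 6 ⊕ Fin 6) ℂ) MvPolynomial.X ≠ 0 := by
  intro h
  have h1 := good_map (MvPolynomial.eval fun i => (x0 i : ℂ))
    (MvPolynomial.X (R := ℂ) (σ := Fin 6 ⊕ Fin 6))
  rw [h, map_zero] at h1
  simp only [MvPolynomial.eval_X] at h1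
  have h2 := good_map (Int.castRingHom ℂ) x0
  simp only [eq_intCast] at h2
  rw [← h2] at h1
  exact good_x0 (Int.cast_eq_zero.1 h1.symm)

end

end Pool.Agent.H77.PG
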